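import Mathlib

/-! Power series: division by the variables, and an Artin-Rees argument. -/

set_option autoImplicit false

namespace Pool.Agent.P.MP_7cb106_nt.PG

open MvPowerSeries

variable {O : Type} [CommRing O] {g : ℕ}

theorem coeff_X_mul' (j : Fin g) (f : MvPowerSeries (Fin g) O) (β : Fin g →₀ ℕ) :
    coeff β (X j * f) = if β j = 0 then 0 else coeff (β - Finsupp.single j 1) f := by
  rw [X_def, coeff_monomial_mul]
  by_cases h : β j = 0
  · rw [if_pos h, if_neg]
    rw [Finsupp.single_le_iff]
    omega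
  · rw [if_neg h, if_pos, one_mul]
    rw [Finsupp.single_le_iff]
    omega

theorem degree_sub_single {β : Fin g →₀ ℕ} {j : Fin g} (h : β j ≠ 0) :
    (β - Finsupp.single j 1).degree + 1 = β.degree := by
  have h1 : Finsupp.single j 1 ≤ β := by
    rw [Finsupp.single_le_iff]
    omega
  conv_rhs => rw [← tsub_add_cancel_of_le h1]
  rw [map_add, Finsupp.degree_single]

/-- division by the variables -/
theorem exists_div (f : MvPowerSeries (Fin g) O) :
    ∃ q : Fin g → MvPowerSeries (Fin g) O, f = C (constantCoeff f) + ∑ j, X j * q j ∧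
      ∀ n, (∀ β : Fin g →₀ ℕ, β.degree < n + 1 → coeff β f = 0) →
        ∀ j (β : Fin g →₀ ℕ), β.degree < n → coeff β (q j) = 0 := by
  classical
  let q : Fin g → MvPowerSeries (Fin g) O := fun j β =>
    if ∀ i, i < j → β i = 0 then coeff (β + Finsupp.single j 1) f else 0
  have hq : ∀ j β, coeff β (q j) =
      if ∀ i, i < j → β i = 0 then coeff (β + Finsupp.single j 1) f else 0 := fun _ _ => rfl
  refine ⟨q, ?_, ?_⟩
  · ext β
    rw [map_add, map_sum]
    simp only [coeff_X_mul']
    by_cases h0 : β = 0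
    · subst h0
      simp
    · rw [coeff_C, if_neg h0, zero_add]
      have hne : (Finset.univ.filter fun j => β j ≠ 0).Nonempty := by
        by_contra hc
        rw [Finset.not_nonempty_iff_eq_empty, Finset.filter_eq_empty_iff] at hc
        exact h0 (Finsupp.ext fun j => by simpa using hc (Finset.mem_univ j))
      set j₀ := (Finset.univ.filter fun j => β j ≠ 0).min' hne with hj₀
      have h1 : β j₀ ≠ 0 := (Finset.mem_filter.1 (Finset.min'_mem _ hne)).2
      have h2 : ∀ i, β i ≠ 0 → j₀ ≤ i := fun i hi =>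
        Finset.min'_le (Finset.univ.filter fun j => β j ≠ 0) i
          (Finset.mem_filter.2 ⟨Finset.mem_univ _, hi⟩)
      rw [Finset.sum_eq_single j₀]
      · rw [if_neg h1, hq, if_pos, tsub_add_cancel_of_le]
        · rw [Finsupp.single_le_iff]
          omega
        · intro i hi
          have h3 : β i = 0 := by
            by_contra h4
            exact absurd (h2 i h4) (not_le.2 hi)
          simp [h3]
      · intro j _ hj
        by_cases h3 : β j = 0
        · rw [if_pos h3]
        · rw [if_neg h3, hq, if_neg]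
          intro h4
          have h5 := h4 j₀ (lt_of_le_of_ne (h2 j h3) (Ne.symm hj))
          rw [Finsupp.tsub_apply, Finsupp.single_eq_of_ne (Ne.symm hj)] at h5
          exact h1 (by simpa using h5)
      · intro h
        exact absurd (Finset.mem_univ _) h
  · intro n hn j β hβ
    rw [hq]
    split_ifs
    · refine hn _ ?_
      rw [map_add, Finsupp.degree_single]
      omega
    · rfl

/-- the ideal generated by the variables -/
noncomputable def idX (g : ℕ) (O : Type) [CommRing O] : Ideal (MvPowerSeries (Fin g) O) :=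
  Ideal.span (Set.range X)

theorem X_mem_idX (j : Fin g) : (X j : MvPowerSeries (Fin g) O) ∈ idX g O :=
  Ideal.subset_span ⟨j, rfl⟩

theorem mem_idX_pow (n : ℕ) : ∀ f : MvPowerSeries (Fin g) O,
    (∀ β : Fin g →₀ ℕ, β.degree < n → coeff β f = 0) → f ∈ idX g O ^ n := by
  induction n with
  | zero => intro f _; simp
  | succ n ih =>
    intro f hf
    obtain ⟨q, h1, h2⟩ := exists_div f
    have h0 : constantCoeff f = 0 := by
      rw [← coeff_zero_eq_constantCoeff_apply]
      exact hf 0 (by simp)
    rw [h1, h0, map_zero, zero_add, pow_succ']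
    exact Ideal.sum_mem _ fun j _ => Ideal.mul_mem_mul (X_mem_idX j) (ih _ (h2 n hf j))

variable {R : Type} [CommRing R] [Algebra (MvPowerSeries (Fin g) O) R]

theorem phi_linear (φ : R →+ MvPowerSeries (Fin g) O)
    (hX : ∀ j r, φ ((X j : MvPowerSeries (Fin g) O) • r) = X j * φ r)
    (hC : ∀ c r, φ ((C c : MvPowerSeries (Fin g) O) • r) = C c * φ r)
    (a : MvPowerSeries (Fin g) O) (r : R) : φ (a • r) = a * φ r := by
  have key : ∀ n (a : MvPowerSeries (Fin g) O) (r : R) (β : Fin g →₀ ℕ), β.degree < n →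
      coeff β (φ (a • r)) = coeff β (a * φ r) := by
    intro n
    induction n with
    | zero => intro a r β h; omega
    | succ n ih =>
      intro a r β hβ
      obtain ⟨q, h1, -⟩ := exists_div a
      rw [h1, add_smul, add_mul, Finset.sum_smul, Finset.sum_mul, map_add, map_sum, hC, map_add,
        map_add, map_sum, map_sum]
      congr 1
      refine Finset.sum_congr rfl fun j _ => ?_
      rw [mul_smul, hX, mul_assoc, coeff_X_mul', coeff_X_mul']
      split_ifs with h
      · rfl
      · have h2 := degree_sub_single h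
        exact ih _ _ _ (by omega)
  ext β
  exact key _ a r β (Nat.lt_succ_self _)

theorem phi_inj [IsDomain O] [IsDomain R] [Module.Finite (MvPowerSeries (Fin g) O) R]
    (φ : R →+ MvPowerSeries (Fin g) O)
    (hl : ∀ (a : MvPowerSeries (Fin g) O) (r : R), φ (a • r) = a * φ r) (h1 : φ 1 ≠ 0) (x : R)
    (h2 : ∀ y, φ (x * y) = 0) : x = 0 := by
  by_contra hx0
  have hint : IsIntegral (MvPowerSeries (Fin g) O) x := Algebra.IsIntegral.isIntegral x
  have h3 := Ideal.comap_ne_bot_of_integral_mem (I := Ideal.span {x}) hx0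
    (Ideal.mem_span_singleton_self x) hint
  obtain ⟨c, hc, hc0⟩ := Submodule.exists_mem_ne_zero_of_ne_bot h3
  obtain ⟨y, hy⟩ := Ideal.mem_span_singleton'.1 (Ideal.mem_comap.1 hc)
  have h4 := h2 y
  rw [mul_comm, hy, Algebra.algebraMap_eq_smul_one, hl] at h4
  exact h1 ((mul_eq_zero.1 h4).resolve_left hc0)

/-- Artin-Rees -/
theorem pow_mem_of_phi [IsDomain O] [IsNoetherianRing O] [IsDomain R]
    [Module.Finite (MvPowerSeries (Fin g) O) R] (φ : R →+ MvPowerSeries (Fin g) O)
    (hX : ∀ j r, φ ((X j : MvPowerSeries (Fin g) O) • r) = X j * φ r)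
    (hC : ∀ c r, φ ((C c : MvPowerSeries (Fin g) O) • r) = C c * φ r) (h1 : φ 1 ≠ 0) (a : R)
    (ha : ∀ (n : ℕ) (r : R) (β : Fin g →₀ ℕ), β.degree < n → coeff β (φ (a ^ n * r)) = 0) :
    ∃ n, a ^ n ∈ (idX g O).map (algebraMap (MvPowerSeries (Fin g) O) R) := by
  classical
  have hl := phi_linear φ hX hC
  obtain ⟨s, r, hr⟩ := Module.Finite.exists_fin (R := MvPowerSeries (Fin g) O) (M := R)
  let Φ : R →ₗ[MvPowerSeries (Fin g) O] (Fin s → MvPowerSeries (Fin g) O) :=
    { toFun := fun x i => φ (x * r i)
      map_add' := fun x y => funext fun i => by simp [add_mul]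
      map_smul' := fun c x => funext fun i => by simp [hl] }
  have hinj : Function.Injective Φ := by
    rw [injective_iff_map_eq_zero]
    intro x hx
    have h2 : ∀ y, φ (x * y) = 0 := by
      intro y
      have hy : y ∈ Submodule.span (MvPowerSeries (Fin g) O) (Set.range r) := hr ▸ trivial
      induction hy using Submodule.span_induction with
      | mem y hy =>
        obtain ⟨i, rfl⟩ := hy
        exact congrFun hx i
      | zero => simp
      | add y z _ _ hy hz => rw [mul_add, map_add, hy, hz, add_zero]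
      | smul c y _ hy => rw [mul_smul_comm, hl, hy, mul_zero]
    exact phi_inj φ hl h1 x h2
  obtain ⟨k, hk⟩ := Ideal.exists_pow_inf_eq_pow_smul (idX g O) (LinearMap.range Φ)
  refine ⟨k + 1, ?_⟩
  have h5 : Φ (a ^ (k + 1)) ∈ (idX g O ^ (k + 1) • ⊤ ⊓ LinearMap.range Φ :
      Submodule (MvPowerSeries (Fin g) O) (Fin s → MvPowerSeries (Fin g) O)) := by
    refine ⟨?_, ⟨_, rfl⟩⟩
    rw [SetLike.mem_coe, ← Finset.univ_sum_single (Φ (a ^ (k + 1)))]
    refine Submodule.sum_mem _ fun i _ => ?_
    have h6 : (Pi.single i (Φ (a ^ (k + 1)) i) : Fin s → MvPowerSeries (Fin g) O) =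
        Φ (a ^ (k + 1)) i • Pi.single i 1 := by
      rw [← Pi.single_smul, smul_eq_mul, mul_one]
    rw [h6]
    exact Submodule.smul_mem_smul (mem_idX_pow _ _ (ha _ _)) trivial
  rw [hk (k + 1) (Nat.le_succ k), Nat.add_sub_cancel_left, pow_one] at h5
  have h7 : (idX g O • (idX g O ^ k • ⊤ ⊓ LinearMap.range Φ) :
      Submodule (MvPowerSeries (Fin g) O) (Fin s → MvPowerSeries (Fin g) O)) ≤
      (idX g O • ⊤ : Submodule (MvPowerSeries (Fin g) O) R).map Φ := by
    rw [Submodule.map_smul'', Submodule.map_top]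
    exact Submodule.smul_mono le_rfl inf_le_right
  obtain ⟨y, hy, hy'⟩ := h7 h5
  rw [hinj hy', SetLike.mem_coe, Ideal.smul_top_eq_map] at hy
  exact hy

end Pool.Agent.P.MP_7cb106_nt.PG
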