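import Pool.Agent.P.MP_7cb106_nt.PG.IfaceN
import Pool.Agent.P.MP_7cb106_nt.PG.D67b

/-! Lifting, divisible families, linear forms. -/

set_option autoImplicit false

namespace Pool.Agent.P.MP_7cb106_nt.PG

/-! Step LFT. -/

section

open Pool.Agent.P.MP_7cb106_nt.GK MvPowerSeries

theorem lft_cont {L B : Type} [NormedField L] [NormedAddCommGroup B] [NormedSpace L B]
    (T : Module.End L B) (h : ∀ v, ‖T v‖ ≤ ‖v‖) : Continuous T :=
  AddMonoidHomClass.continuous_of_bound T 1 (by simpa using h)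

theorem lft_surj {L B : Type} [NormedField L] [NormedAddCommGroup B] [NormedSpace L B]
    [IsUltrametricDist B] [CompleteSpace B] {ϖ : L} (hU : Unif ϖ B) (W : Submodule L B)
    (hW : IsClosed (W : Set B)) (T : Module.End L B) (hT : ∀ v, ‖T v‖ ≤ ‖v‖)
    (hTW : ∀ v ∈ W, T v ∈ W)
    (h : ∀ v ∈ W, ‖v‖ ≤ 1 → ∃ w ∈ W, ‖w‖ ≤ 1 ∧ ‖T w - v‖ < 1) :
    ∀ v ∈ W, ‖v‖ ≤ 1 → ∃ w ∈ W, ‖w‖ ≤ 1 ∧ T w = v := by
  have hϖ : ϖ ≠ 0 := norm_pos_iff.mp hU.pos
  have key : ∀ v : {v : B // v ∈ W ∧ ‖v‖ ≤ 1}, ∃ w : {v : B // v ∈ W ∧ ‖v‖ ≤ 1},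
      ∃ s : {v : B // v ∈ W ∧ ‖v‖ ≤ 1}, (v : B) = T w + ϖ • (s : B) := by
    rintro ⟨v, hv, hv1⟩
    obtain ⟨w, hw, hw1, hlt⟩ := h v hv hv1
    refine ⟨⟨w, hw, hw1⟩, ⟨ϖ⁻¹ • (v - T w), W.smul_mem _ (W.sub_mem hv (hTW w hw)), ?_⟩, ?_⟩
    · rw [norm_smul, norm_inv, inv_mul_le_iff₀ hU.pos, mul_one, norm_sub_rev]
      exact hU.le _ hlt
    · simp [smul_smul, mul_inv_cancel₀ hϖ]
  choose f s hfs using key
  intro v hv hv1
  obtain ⟨u, hu0, hus⟩ : ∃ u : ℕ → {v : B // v ∈ W ∧ ‖v‖ ≤ 1},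
      (u 0 : B) = v ∧ ∀ n, u (n + 1) = s (u n) :=
    ⟨fun n => s^[n] ⟨v, hv, hv1⟩, rfl, fun n => Function.iterate_succ_apply' s n _⟩
  have hb : ∀ (n : ℕ) (y : {v : B // v ∈ W ∧ ‖v‖ ≤ 1}), ‖ϖ ^ n • (y : B)‖ ≤ ‖ϖ‖ ^ n := by
    intro n y
    rw [norm_smul, norm_pow]
    exact mul_le_of_le_one_right (pow_nonneg hU.pos.le n) y.2.2
  have hsum : Summable fun n => ϖ ^ n • (f (u n) : B) :=
    Summable.of_norm_bounded (summable_geometric_of_lt_one hU.pos.le hU.lt) fun n => hb n _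
  have hlim := hsum.hasSum.tendsto_sum_nat
  have hpart : ∀ n, T (∑ i ∈ Finset.range n, ϖ ^ i • (f (u i) : B)) = v - ϖ ^ n • (u n : B) := by
    intro n
    induction n with
    | zero => simp [hu0]
    | succ n ih =>
      rw [Finset.sum_range_succ, map_add, ih, map_smul, hus, pow_succ, mul_smul]
      nth_rewrite 1 [hfs (u n)]
      rw [smul_add]
      abel
  have hz : Filter.Tendsto (fun n : ℕ => ϖ ^ n • (u n : B)) Filter.atTop (nhds 0) :=
    squeeze_zero_norm (fun n => hb n _) (tendsto_pow_atTop_nhds_zero_of_lt_one hU.pos.le hU.lt)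
  refine ⟨∑' n, ϖ ^ n • (f (u n) : B), ?_, ?_, ?_⟩
  · exact hW.mem_of_tendsto hlim (Filter.Eventually.of_forall fun n =>
      W.sum_mem fun i _ => W.smul_mem _ (f (u i)).2.1)
  · exact IsUltrametricDist.norm_tsum_le_of_forall_le_of_nonneg zero_le_one fun n =>
      (hb n _).trans (pow_le_one₀ hU.pos.le hU.lt.le)
  · have h1 := ((lft_cont T hT).tendsto _).comp hlim
    have h2 : Filter.Tendsto (fun n : ℕ => v - ϖ ^ n • (u n : B)) Filter.atTop (nhds (v - 0)) :=
      tendsto_const_nhds.sub hz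
    rw [sub_zero] at h2
    exact tendsto_nhds_unique h1 (h2.congr fun n => (hpart n).symm)

theorem lft_coreg {L B : Type} [NormedField L] [NormedAddCommGroup B] [NormedSpace L B]
    [IsUltrametricDist B] [CompleteSpace B] {ϖ : L} {g : ℕ} {x : Fin g → Module.End L B}
    (hU : Unif ϖ B) (hx : ∀ j v, ‖x j v‖ ≤ ‖v‖) (hc : ∀ i j, Commute (x i) (x j)) (hM : CoM x)
    (k : Fin g) (P : ∀ v : B, ‖v‖ ≤ 1 → (∀ j < k, ‖x j v‖ < 1) →
      ∃ w, ‖w‖ ≤ 1 ∧ (∀ j < k, x j w = 0) ∧ ‖w - v‖ < 1) :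
    ∀ v : B, ‖v‖ ≤ 1 → (∀ j < k, x j v = 0) →
      ∃ w, ‖w‖ ≤ 1 ∧ (∀ j < k, x j w = 0) ∧ x k w = v := by
  obtain ⟨W, hmem⟩ : ∃ W : Submodule L B, ∀ v, v ∈ W ↔ ∀ j < k, x j v = 0 :=
    ⟨⨅ j, ⨅ _ : j < k, LinearMap.ker (x j), fun v => by simp [Submodule.mem_iInf]⟩
  have hW : IsClosed (W : Set B) := by
    have : (W : Set B) = ⋂ j, ⋂ _ : j < k, {v | x j v = 0} := by
      ext v
      simp [hmem]
    rw [this]
    exact isClosed_iInter fun j => isClosed_iInter fun _ =>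
      isClosed_eq (lft_cont (x j) (hx j)) continuous_const
  have hTW : ∀ v ∈ W, x k v ∈ W := by
    intro v hv
    rw [hmem] at hv ⊢
    intro j hj
    have := LinearMap.congr_fun (hc j k).eq v
    simp only [Module.End.mul_apply] at this
    rw [this, hv j hj, map_zero]
  intro v hv1 hv
  obtain ⟨w, hw, hw1, hwv⟩ := lft_surj hU W hW (x k) (hx k) hTW (by
    intro v hv hv1
    rw [hmem] at hv
    obtain ⟨w, hw1, hw, hlt⟩ := hM k v hv1 fun j hj => by simp [hv j hj]
    obtain ⟨w', hw1', hw', hlt'⟩ := P w hw1 hw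
    refine ⟨w', (hmem _).2 hw', hw1', ?_⟩
    have : x k w' - v = x k (w' - w) + (x k w - v) := by
      rw [map_sub]
      abel
    rw [this]
    exact (IsUltrametricDist.norm_add_le_max _ _).trans_lt
      (max_lt ((hx k _).trans_lt hlt') hlt)) v ((hmem _).2 hv) hv1
  exact ⟨w, hw1, (hmem _).1 hw, hwv⟩

theorem lft_P {L B : Type} [NormedField L] [NormedAddCommGroup B] [NormedSpace L B]
    [IsUltrametricDist B] [CompleteSpace B] {ϖ : L} {g : ℕ} {x : Fin g → Module.End L B}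
    (hU : Unif ϖ B) (hx : ∀ j v, ‖x j v‖ ≤ ‖v‖) (hc : ∀ i j, Commute (x i) (x j)) (hM : CoM x)
    (n : ℕ) : ∀ v : B, ‖v‖ ≤ 1 → (∀ j : Fin g, j.val < n → ‖x j v‖ < 1) →
      ∃ w, ‖w‖ ≤ 1 ∧ (∀ j : Fin g, j.val < n → x j w = 0) ∧ ‖w - v‖ < 1 := by
  have hϖ : ϖ ≠ 0 := norm_pos_iff.mp hU.pos
  induction n with
  | zero =>
    intro v hv1 _
    exact ⟨v, hv1, fun j hj => absurd hj (Nat.not_lt_zero _), by simp⟩
  | succ n ih =>
    intro v hv1 hv
    obtain ⟨w, hw1, hw, hlt⟩ := ih v hv1 fun j hj => hv j (Nat.lt_succ_of_lt hj)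
    by_cases hn : n < g
    · have hreg := lft_coreg hU hx hc hM ⟨n, hn⟩ ih
      have hk : ‖x ⟨n, hn⟩ w‖ < 1 := by
        have : x ⟨n, hn⟩ w = x ⟨n, hn⟩ (w - v) + x ⟨n, hn⟩ v := by
          rw [map_sub]
          abel
        rw [this]
        exact (IsUltrametricDist.norm_add_le_max _ _).trans_lt
          (max_lt ((hx _ _).trans_lt hlt) (hv _ (Nat.lt_succ_self n)))
      obtain ⟨w', hw1', hw', he⟩ := hreg (ϖ⁻¹ • x ⟨n, hn⟩ w) (by
        rw [norm_smul, norm_inv, inv_mul_le_iff₀ hU.pos, mul_one]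
        exact hU.le _ hk) (by
        intro j hj
        have := LinearMap.congr_fun (hc j ⟨n, hn⟩).eq w
        simp only [Module.End.mul_apply] at this
        rw [map_smul, this, hw j hj, map_zero, smul_zero])
      have hs : ‖-(ϖ • w')‖ < 1 := by
        rw [norm_neg, norm_smul]
        exact (mul_le_of_le_one_right hU.pos.le hw1').trans_lt hU.lt
      refine ⟨w + -(ϖ • w'), (IsUltrametricDist.norm_add_le_max _ _).trans (max_le hw1 hs.le),
        ?_, ?_⟩
      · intro j hj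
        rcases Nat.lt_succ_iff_lt_or_eq.mp hj with h | h
        · rw [map_add, map_neg, map_smul, hw j h, hw' j h]
          simp
        · obtain rfl : j = ⟨n, hn⟩ := Fin.ext h
          rw [map_add, map_neg, map_smul, he, smul_smul, mul_inv_cancel₀ hϖ]
          simp
      · rw [add_sub_right_comm]
        exact (IsUltrametricDist.norm_add_le_max _ _).trans_lt (max_lt hlt hs)
    · exact ⟨w, hw1, fun j _ => hw j (j.2.trans_le (not_lt.mp hn)), hlt⟩

theorem p_LFT :
    S_LFT := by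
  intro L B _ _ _ _ _ ϖ g x hU hx hc hM
  refine ⟨fun k => lft_coreg hU hx hc hM k (lft_P hU hx hc hM k.val), fun v hv1 hv => ?_⟩
  obtain ⟨w, hw1, hw, hlt⟩ := lft_P hU hx hc hM g v hv1 fun j _ => hv j
  exact ⟨w, hw1, fun j => hw j j.2, hlt⟩

end

/-! Step DIV. -/

section

open Pool.Agent.P.MP_7cb106_nt.GK MvPowerSeries

theorem p_DIV :
    S_DIV := fun _ _ _ =>
  ⟨fun a => (exists_div a).imp fun _ h => h.1, fun n a h => mem_idX_pow n a h⟩

end

/-! Step FAM. -/

section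

open Pool.Agent.P.MP_7cb106_nt.GK MvPowerSeries

theorem fam_kos {L B : Type} [NormedField L] [NormedAddCommGroup B] [NormedSpace L B]
    [IsUltrametricDist B] {g : ℕ} {x : Fin g → Module.End L B} (hx : ∀ j v, ‖x j v‖ ≤ ‖v‖)
    (hc : ∀ i j, Commute (x i) (x j)) (hr : CoReg x) (u : Fin g → B) (hu : ∀ j, ‖u j‖ ≤ 1)
    (h : ∀ i j, x i (u j) = x j (u i)) : ∃ w, ‖w‖ ≤ 1 ∧ ∀ j, x j w = u j := by
  have key : ∀ k : ℕ, ∃ w, ‖w‖ ≤ 1 ∧ ∀ j : Fin g, j.val < k → x j w = u j := by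
    intro k
    induction k with
    | zero => exact ⟨0, by simp, fun j hj => absurd hj (Nat.not_lt_zero _)⟩
    | succ k ih =>
      obtain ⟨w, hw, hw'⟩ := ih
      by_cases hk : k < g
      · have h1 : ‖u ⟨k, hk⟩ - x ⟨k, hk⟩ w‖ ≤ 1 := by
          rw [sub_eq_add_neg]
          exact (IsUltrametricDist.norm_add_le_max _ _).trans
            (max_le (hu _) (by rw [norm_neg]; exact (hx _ _).trans hw))
        obtain ⟨w', h2, h3, h4⟩ := hr ⟨k, hk⟩ _ h1 fun j hj => by
          rw [map_sub, h j, ← Module.End.mul_apply, (hc j _).eq, Module.End.mul_apply, hw' j hj,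
            sub_self]
        refine ⟨w + w', (IsUltrametricDist.norm_add_le_max _ _).trans (max_le hw h2),
          fun j hj => ?_⟩
        rcases (Nat.lt_succ_iff.1 hj).lt_or_eq with h5 | h5
        · rw [map_add, hw' j h5, h3 j h5, add_zero]
        · obtain rfl : j = ⟨k, hk⟩ := Fin.ext h5
          rw [map_add, h4, add_sub_cancel]
      · exact ⟨w, hw, fun j _ => hw' j (by omega)⟩
  obtain ⟨w, hw, hw'⟩ := key g
  exact ⟨w, hw, fun j => hw' j j.2⟩

noncomputable def fam_F {L B : Type} [NormedField L] [NormedAddCommGroup B] [NormedSpace L B]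
    {g : ℕ} (x : Fin g → Module.End L B) (v₀ : B) : ℕ → (Fin g →₀ ℕ) → B
  | 0, _ => v₀
  | n + 1, β => Classical.epsilon fun w => ‖w‖ ≤ 1 ∧
      ∀ j, x j w = if β j = 0 then 0 else fam_F x v₀ n (β - Finsupp.single j 1)

theorem fam_deg {g : ℕ} {β : Fin g →₀ ℕ} {j : Fin g} {n : ℕ} (h : β.degree = n + 1)
    (hj : β j ≠ 0) : (β - Finsupp.single j 1).degree = n := by
  have h1 : β - Finsupp.single j 1 + Finsupp.single j 1 = β :=
    tsub_add_cancel_of_le (Finsupp.single_le_iff.2 (by omega))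
  rw [← h1, map_add, Finsupp.degree_single] at h
  omega

theorem p_FAM :
    S_FAM := by
  intro L B _ _ _ _ g x hx hc hr v₀ h0 h0'
  have key : ∀ (n : ℕ) (β : Fin g →₀ ℕ), β.degree = n → ‖fam_F x v₀ n β‖ ≤ 1 ∧
      ∀ j, x j (fam_F x v₀ n β) =
        if β j = 0 then 0 else fam_F x v₀ (n - 1) (β - Finsupp.single j 1) := by
    intro n
    induction n with
    | zero =>
      intro β hβ
      obtain rfl : β = 0 := (Finsupp.degree_eq_zero_iff β).1 hβ
      exact ⟨h0, fun j => by simpa [fam_F] using h0' j⟩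
    | succ n ih =>
      intro β hβ
      refine Classical.epsilon_spec (fam_kos hx hc hr
        (fun j => if β j = 0 then 0 else fam_F x v₀ n (β - Finsupp.single j 1))
        (fun j => ?_) fun i j => ?_)
      · split_ifs with hj
        · simp
        · exact (ih _ (fam_deg hβ hj)).1
      · rcases eq_or_ne i j with rfl | hij
        · rfl
        have e : ∀ i j : Fin g, i ≠ j → (β - Finsupp.single j 1 : Fin g →₀ ℕ) i = β i :=
          fun i j hij => by simp [hij]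
        by_cases hi : β i = 0 <;> by_cases hj : β j = 0
        · simp [hi, hj]
        · rw [if_pos hi, if_neg hj, (ih _ (fam_deg hβ hj)).2, e i j hij, if_pos hi, map_zero]
        · rw [if_pos hj, if_neg hi, (ih _ (fam_deg hβ hi)).2, e j i hij.symm, if_pos hj, map_zero]
        · rw [if_neg hi, if_neg hj, (ih _ (fam_deg hβ hj)).2, (ih _ (fam_deg hβ hi)).2, e i j hij,
            e j i hij.symm, if_neg hi, if_neg hj, tsub_right_comm]
  refine ⟨fun β => fam_F x v₀ β.degree β, by simp [fam_F], fun β => (key _ β rfl).1,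
    fun j β => ?_, fun j β hj => ?_⟩
  · rw [(key _ _ rfl).2, if_neg (by simp), add_tsub_cancel_right, map_add, Finsupp.degree_single,
      Nat.add_sub_cancel]
  · rw [(key _ _ rfl).2, if_pos hj]

end

/-! Step FORM. -/

section

open Pool.Agent.P.MP_7cb106_nt.GK MvPowerSeries

theorem form_split {g : ℕ} (j : Fin g) (β : Fin g →₀ ℕ) :
    β j = 0 ∨ ∃ γ, β = γ + Finsupp.single j 1 := by
  rcases eq_or_ne (β j) 0 with h | h
  · exact Or.inl h
  · exact Or.inr ⟨β - Finsupp.single j 1, (tsub_add_cancel_of_le (by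
      rw [Finsupp.single_le_iff]; omega)).symm⟩

theorem form_zero {O : Type} [CommRing O] {g : ℕ} {j : Fin g} {β : Fin g →₀ ℕ} (h : β j = 0)
    (ψ : MvPowerSeries (Fin g) O) : coeff β (X j * ψ) = 0 := by
  rw [X_def, coeff_monomial_mul, if_neg]
  rw [Finsupp.single_le_iff]
  omega

theorem form_succ {O : Type} [CommRing O] {g : ℕ} (j : Fin g) (γ : Fin g →₀ ℕ)
    (ψ : MvPowerSeries (Fin g) O) : coeff (γ + Finsupp.single j 1) (X j * ψ) = coeff γ ψ := by
  rw [X_def, add_comm, coeff_add_monomial_mul, one_mul]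

theorem p_FORM (hDIV : S_DIV) :
    S_FORM := by
  intro L B _ _ _ _ g R _ κ act ℓ v h1 h2 h3 h4 h5 h6
  let φ : R →+ MvPowerSeries (Fin g) (Ob L) := AddMonoidHom.mk'
    (fun r β => ⟨ℓ (act r (v β)), (h3 _).trans ((h1 _ _).trans (h4 β))⟩) fun r r' => by
      funext β
      exact Subtype.ext (by
        change ℓ (act (r + r') (v β)) = ℓ (act r (v β)) + ℓ (act r' (v β))
        simp)
  have hφ : ∀ r β, ((coeff β (φ r) : Ob L) : L) = ℓ (act r (v β)) := fun _ _ => rfl
  have hm : ∀ a r w, act (a * r) w = act r (act a w) := fun a r w => by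
    rw [mul_comm, map_mul, Module.End.mul_apply]
  have hX : ∀ j r, φ (κ (X j) * r) = X j * φ r := fun j r => by
    ext β
    rw [hφ, hm]
    rcases form_split j β with h | ⟨γ, rfl⟩
    · rw [h6 j β h, form_zero h]
      simp
    · rw [h5, form_succ, hφ]
  have hC : ∀ c r, φ (κ (C c) * r) = C c * φ r := fun c r => by
    ext β
    rw [hφ, hm, h2, coeff_C_mul, Subring.coe_mul, hφ]
    simp
  have key : ∀ (n : ℕ) (β : Fin g →₀ ℕ), β.degree < n → ∀ a r,
      coeff β (φ (κ a * r)) = coeff β (a * φ r) := by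
    intro n
    induction n with
    | zero => intro β h; omega
    | succ n ih =>
      intro β hβ a r
      obtain ⟨b, hb⟩ := (hDIV (Ob L) g).1 a
      rw [hb, map_add, add_mul, add_mul, map_add, hC, map_add, map_add, map_sum, Finset.sum_mul,
        Finset.sum_mul, map_sum, map_sum, map_sum]
      congr 1
      refine Finset.sum_congr rfl fun j _ => ?_
      rw [map_mul κ, mul_assoc, hX, mul_assoc]
      rcases form_split j β with h | ⟨γ, rfl⟩
      · rw [form_zero h, form_zero h]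
      · rw [form_succ, form_succ]
        exact ih γ (by simp at hβ; omega) _ _
  refine ⟨φ, fun a r => ?_, hφ, fun a ha n r β hβ => ?_⟩
  · ext β : 1
    exact key _ β (Nat.lt_succ_self _) a r
  · have h7 : ∀ (n : ℕ) (β : Fin g →₀ ℕ), β.degree < n → act (a ^ n) (v β) = 0 := by
      intro n
      induction n with
      | zero => intro β h; omega
      | succ n ih =>
        intro β hβ
        rw [pow_succ, hm]
        refine ha _ fun j => ?_
        rw [← hm, mul_comm, hm]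
        rcases form_split j β with h | ⟨γ, rfl⟩
        · rw [h6 j β h, map_zero]
        · rw [h5]
          exact ih γ (by simp at hβ; omega)
    refine Subtype.ext ?_
    rw [hφ, hm, h7 n β hβ]
    simp

end

end Pool.Agent.P.MP_7cb106_nt.PG
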