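import Pool.Agent.P.MP_7cb106_nt.PG.IfaceR

/-! The completed algebra and co-regularity. -/

set_option autoImplicit false

namespace Pool.Agent.P.MP_7cb106_nt.PG

/-! Step FRA. -/

section

open Pool.Agent.P.MP_7cb106_nt.GK

section
variable {ι F V : Type} [Fintype ι] [Field F] [AddCommGroup V] [Module F V]
  {β : ι → Module.End F V} {μ : ι → ℕ} {m : ℕ} {lam : Fin m → Module.Dual F V}
  {f : Fin m → (ι →₀ ℕ) → V}

theorem fra_apply (β : ι → Module.End F V) (P : MvPolynomial ι F) (v : V) :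
    ev F β P v = ∑ α ∈ P.support, P.coeff α • mono β α v := by
  rw [ev_eq_sum, LinearMap.sum_apply]
  rfl

theorem fra_coeff (h : CF β μ lam f) (P : MvPolynomial ι F) (k : Fin m) (γ : ι →₀ ℕ) :
    lam k (ev F β P (f k γ)) = P.coeff γ := by
  rw [fra_apply, map_sum, Finset.sum_eq_single γ]
  · rw [map_smul, h.one, smul_eq_mul, mul_one]
  · intro α _ hα
    rw [map_smul, h.zero k k α γ (Or.inr hα), smul_zero]
  · intro hγ
    rw [MvPolynomial.notMem_support_iff.1 hγ, zero_smul, map_zero]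

theorem fra_kill {P : MvPolynomial ι F} {t : ℕ} (hP : ∀ γ, P.coeff γ ≠ 0 → t ≤ wt μ γ) {v : V}
    (hv : v ∈ Vs β μ t) : ev F β P v = 0 := by
  rw [fra_apply]
  refine Finset.sum_eq_zero fun α hα => ?_
  rw [hv α (hP α (MvPolynomial.mem_support_iff.1 hα)), smul_zero]

theorem fra_low (hg : Good β μ) {P : MvPolynomial ι F} {s t : ℕ}
    (hP : ∀ γ, P.coeff γ ≠ 0 → t ≤ wt μ γ) {v : V} (hv : v ∈ Vs β μ (s + t)) :
    ev F β P v ∈ Vs β μ s := by
  rw [fra_apply]
  refine Submodule.sum_mem _ fun α hα => Submodule.smul_mem _ _ fun α' hα' => ?_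
  have := hP α (MvPolynomial.mem_support_iff.1 hα)
  exact hg.zero α' α (s + t) v hv (by omega)

theorem fra_high (h : CF β μ lam f) {a : Module.End F V} (ha : Apx β μ a) {t T : ℕ} (ht : t ≤ T)
    (h0 : ∀ v ∈ Vs β μ t, a v = 0) : ∃ P : MvPolynomial ι F,
      (∀ γ, P.coeff γ ≠ 0 → t ≤ wt μ γ) ∧ ∀ v ∈ Vs β μ T, a v = ev F β P v := by
  obtain ⟨P, hP⟩ := ha T
  refine ⟨P, fun γ hγ => ?_, hP⟩
  by_contra hc
  have h1 : f ⟨0, h.pos⟩ γ ∈ Vs β μ t := Vs_mono β μ (by omega) (h.mem _ γ)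
  apply hγ
  rw [← fra_coeff h P ⟨0, h.pos⟩ γ, ← hP _ (Vs_mono β μ ht h1), h0 _ h1, map_zero]

theorem fra_mul (hg : Good β μ) {P Q : MvPolynomial ι F} {s t : ℕ}
    (hP : P.IsWeightedHomogeneous μ s) (hQ : Q.IsWeightedHomogeneous μ t) {v : V}
    (hv : v ∈ Vs β μ (s + t + 1)) : ev F β P (ev F β Q v) = ev F β (P * Q) v := by
  conv_rhs => rw [P.as_sum, Q.as_sum, Finset.sum_mul_sum]
  rw [fra_apply β P, fra_apply β Q, map_sum, LinearMap.sum_apply]
  refine Finset.sum_congr rfl fun α hα => ?_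
  rw [map_sum, map_sum, LinearMap.sum_apply, Finset.smul_sum]
  refine Finset.sum_congr rfl fun α' hα' => ?_
  have h1 : wt μ α = s := hP (MvPolynomial.mem_support_iff.1 hα)
  have h2 : wt μ α' = t := hQ (MvPolynomial.mem_support_iff.1 hα')
  rw [MvPolynomial.monomial_mul, ev_monomial, map_smul, hg.add α α' v (by rwa [h1, h2]),
    smul_smul, LinearMap.smul_apply]

theorem fra_stab {a : ℕ → Module.End F V} (ha : ∀ t, ∀ v ∈ Vs β μ t, a (t + 1) v = a t v)
    {s t : ℕ} {v : V} (hs : v ∈ Vs β μ s) (ht : v ∈ Vs β μ t) : a s v = a t v := by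
  have key : ∀ {s : ℕ}, v ∈ Vs β μ s → ∀ n, a (s + n) v = a s v := by
    intro s hs n
    induction n with
    | zero => rfl
    | succ n ih => rw [← add_assoc, ha _ v (Vs_mono β μ (Nat.le_add_right s n) hs), ih]
  rw [← key hs t, ← key ht s, add_comm]

theorem fra_lim (hx : ∀ v, ∃ T, v ∈ Vs β μ T) {a : ℕ → Module.End F V}
    (ha : ∀ t, ∀ v ∈ Vs β μ t, a (t + 1) v = a t v) :
    ∃ b : Module.End F V, ∀ t, ∀ v ∈ Vs β μ t, b v = a t v := by
  choose T hT using hx
  refine ⟨⟨⟨fun v => a (T v) v, fun v w => ?_⟩, fun c v => ?_⟩,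
    fun t v hv => fra_stab ha (hT v) hv⟩
  · have hv := Vs_mono β μ (Nat.le_add_right (T v) (T w)) (hT v)
    have hw := Vs_mono β μ (Nat.le_add_left (T w) (T v)) (hT w)
    rw [fra_stab ha (hT (v + w)) (add_mem hv hw), map_add, fra_stab ha (hT v) hv,
      fra_stab ha (hT w) hw]
  · change a (T (c • v)) (c • v) = c • a (T v) v
    rw [fra_stab ha (hT (c • v)) (Submodule.smul_mem _ c (hT v)), map_smul]

end

theorem p_FRA :
    S_FRA := by
  intro ι F V _ _ _ _ β μ m lam f h
  have hev : ∀ (P : MvPolynomial ι F) (v : V), (evA h.good h.cl P).1 v = ev F β P v :=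
    fun _ _ => rfl
  refine ⟨h.good.pos, ?_, ?_, ?_, ?_, ?_, ?_, ?_, ?_, ?_⟩
  · refine Submodule.eq_top_iff'.2 fun a v hv => ?_
    have h0 : v = 0 := by simpa using hv 0 (Nat.zero_le _)
    rw [h0, map_zero]
  · exact fun s t hst a ha v hv => ha v (Vs_mono β μ hst hv)
  · intro s t a b ha hb v hv
    obtain ⟨Q, hQ, hb'⟩ := fra_high h b.2 (Nat.le_add_left t s) hb
    change a.1 (b.1 v) = 0
    rw [hb' v hv]
    exact ha _ (fra_low h.good hQ hv)
  · intro t P hP v hv
    exact fra_kill (fun γ hγ => (hP hγ).ge) hv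
  · intro s t P Q hP hQ v hv
    change ev F β P (ev F β Q v) - ev F β (P * Q) v = 0
    rw [fra_mul h.good hP hQ hv, sub_self]
  · intro t a ha
    obtain ⟨P, hP, ha'⟩ := fra_high h a.2 (Nat.le_succ t) ha
    refine ⟨MvPolynomial.weightedHomogeneousComponent μ t P,
      MvPolynomial.weightedHomogeneousComponent_isWeightedHomogeneous t P, fun v hv => ?_⟩
    change a.1 v - ev F β (MvPolynomial.weightedHomogeneousComponent μ t P) v = 0
    rw [ha' v hv, ← LinearMap.sub_apply, ← map_sub]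
    refine fra_kill (fun γ hγ => ?_) hv
    classical
    rw [MvPolynomial.coeff_sub, MvPolynomial.coeff_weightedHomogeneousComponent] at hγ
    by_cases e : Finsupp.weight μ γ = t
    · simp [e] at hγ
    · rw [if_neg e, sub_zero] at hγ
      have := hP γ hγ
      exact lt_of_le_of_ne this (Ne.symm e)
  · intro t P hP h0
    ext γ
    by_contra hc
    have h1 : wt μ γ = t := hP hc
    apply hc
    rw [← fra_coeff h P ⟨0, h.pos⟩ γ, ← hev, h0 _ (h1 ▸ h.mem _ γ), map_zero]
    rfl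
  · intro a ha
    obtain ⟨b, hb⟩ := fra_lim (a := fun t => (a t).1) h.exh
      fun t v hv => sub_eq_zero.1 (ha t v hv)
    refine ⟨⟨b, fun T => ?_⟩, fun t v hv => sub_eq_zero.2 (hb t v hv)⟩
    obtain ⟨P, hP⟩ := (a T).2 T
    exact ⟨P, fun v hv => (hb T v hv).trans (hP v hv)⟩
  · intro a ha
    refine Subtype.ext (LinearMap.ext fun v => ?_)
    obtain ⟨T, hT⟩ := h.exh v
    exact ha T v hT

end

/-! Step OP. -/

section

open Pool.Agent.P.MP_7cb106_nt.GK

theorem op_mem {F Λ : Type} [Field F] [Ring Λ] [Algebra F Λ] (S : Submodule F Λ) (a : Λᵐᵒᵖ) :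
    a ∈ S.comap (MulOpposite.opLinearEquiv F (M := Λ)).symm.toLinearMap ↔ a.unop ∈ S := Iff.rfl

theorem op_ev {ι F Λ : Type} [Field F] [Ring Λ] [Algebra F Λ] (e : MvPolynomial ι F →ₗ[F] Λ)
    (P : MvPolynomial ι F) :
    (((MulOpposite.opLinearEquiv F).toLinearMap ∘ₗ e) P).unop = e P := rfl

theorem p_OP :
    S_OP := by
  intro ι F Λ _ _ _ μ e Fl h
  refine ⟨h.pos, ?_, ?_, ?_, ?_, ?_, ?_, ?_, ?_, ?_⟩
  · rw [h.top, Submodule.comap_top]
  · intro s t hst
    exact Submodule.comap_mono (h.anti hst)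
  · intro s t a b ha hb
    rw [op_mem] at ha hb ⊢
    rw [MulOpposite.unop_mul, add_comm]
    exact h.mul hb ha
  · intro t P hP
    rw [op_mem, op_ev]
    exact h.ev_mem hP
  · intro s t P Q hP hQ
    rw [op_mem, MulOpposite.unop_sub, MulOpposite.unop_mul, op_ev, op_ev, op_ev, mul_comm P Q,
      add_comm s t]
    exact h.ev_mul hQ hP
  · intro t a ha
    rw [op_mem] at ha
    obtain ⟨P, hP, h2⟩ := h.span ha
    exact ⟨P, hP, by rw [op_mem, MulOpposite.unop_sub, op_ev]; exact h2⟩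
  · intro t P hP h2
    rw [op_mem, op_ev] at h2
    exact h.ind hP h2
  · intro a ha
    obtain ⟨b, hb⟩ := h.complete (fun t => (a t).unop) fun t => by
      have := ha t
      rwa [op_mem, MulOpposite.unop_sub] at this
    exact ⟨MulOpposite.op b, fun t => by
      rw [op_mem, MulOpposite.unop_sub, MulOpposite.unop_op]; exact hb t⟩
  · intro a ha
    have := h.sep a.unop fun t => (op_mem _ _).1 (ha t)
    exact MulOpposite.unop_injective (by rw [this, MulOpposite.unop_zero])

end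

/-! Step TH. -/

section

open Pool.Agent.P.MP_7cb106_nt.GK

section
variable {ι F V : Type} [Fintype ι] [Field F] [AddCommGroup V] [Module F V]
  {β : ι → Module.End F V} {μ : ι → ℕ} {m : ℕ} {lam : Fin m → Module.Dual F V}
  {f : Fin m → (ι →₀ ℕ) → V}

theorem th_fin (hg : Good β μ) (T : ℕ) : {α : ι →₀ ℕ | wt μ α < T}.Finite :=
  (Finsupp.finite_of_nat_weight_le μ (fun i => (hg.pos i).ne') T).subset
    fun α (h : wt μ α < T) => (h.le : wt μ α ≤ T)

theorem th_mem (hg : Good β μ) {T : ℕ} {α : ι →₀ ℕ} : α ∈ (th_fin hg T).toFinset ↔ wt μ α < T :=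
  Set.Finite.mem_toFinset _

theorem th_exp (h : CF β μ lam f) {T : ℕ} {v : V} (hv : v ∈ Vs β μ T) :
    v = ∑ k, ∑ α ∈ (th_fin h.good T).toFinset, lam k (mono β α v) • f k α := by
  refine sub_eq_zero.1 (h.sep _ fun k' α' => ?_)
  simp only [map_sub, map_sum, map_smul, smul_eq_mul]
  rw [sub_eq_zero, Finset.sum_eq_single k' (fun k _ hk => Finset.sum_eq_zero fun α _ => by
    rw [h.zero k k' α' α (Or.inl hk.symm), mul_zero]) (by simp),
    Finset.sum_eq_single α' (fun α _ hα => by rw [h.zero k' k' α' α (Or.inr hα.symm), mul_zero])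
    (fun hα => by rw [hv α' (not_lt.1 fun c => hα ((th_mem h.good).2 c)), map_zero, zero_mul]),
    h.one, mul_one]

theorem th_sum (hg : Good β μ) (c : (ι →₀ ℕ) → F) {T : ℕ} {v : V} (hv : v ∈ Vs β μ T) :
    ∑ᶠ α, c α • mono β α v = ∑ α ∈ (th_fin hg T).toFinset, c α • mono β α v :=
  finsum_eq_sum_of_support_subset _ fun α hα => by
    rw [Finset.mem_coe, th_mem hg]
    exact not_le.1 fun k => hα (by simp only [hv α k, smul_zero])

/-- the operator with coefficients `c` -/
noncomputable def th_op (h : CF β μ lam f) (c : (ι →₀ ℕ) → F) : Module.End F V where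
  toFun v := ∑ᶠ α, c α • mono β α v
  map_add' v w := by
    obtain ⟨s, hs⟩ := h.exh v
    obtain ⟨t, ht⟩ := h.exh w
    have a := Vs_mono β μ (le_max_left s t) hs
    have b := Vs_mono β μ (le_max_right s t) ht
    rw [th_sum h.good c a, th_sum h.good c b, th_sum h.good c (add_mem a b),
      ← Finset.sum_add_distrib]
    simp only [map_add, smul_add]
  map_smul' r v := by
    obtain ⟨s, hs⟩ := h.exh v
    rw [th_sum h.good c hs, th_sum h.good c (Submodule.smul_mem _ r hs), Finset.smul_sum]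
    simp only [map_smul, RingHom.id_apply, smul_comm r]

theorem th_op_apply (h : CF β μ lam f) (c : (ι →₀ ℕ) → F) {T : ℕ} {v : V} (hv : v ∈ Vs β μ T) :
    th_op h c v = ∑ α ∈ (th_fin h.good T).toFinset, c α • mono β α v := th_sum h.good c hv

theorem th_apx (h : CF β μ lam f) (c : (ι →₀ ℕ) → F) : Apx β μ (th_op h c) := fun T =>
  ⟨∑ α ∈ (th_fin h.good T).toFinset, MvPolynomial.monomial α (c α), fun v hv => by
    rw [th_op_apply h c hv, map_sum, LinearMap.sum_apply]
    simp only [ev_monomial, LinearMap.smul_apply]⟩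

theorem th_coeff (h : CF β μ lam f) (P : Fin m → MvPolynomial ι F) (k : Fin m) (γ : ι →₀ ℕ) :
    ∑ k', lam k' (ev F β (P k') (f k γ)) = (P k).coeff γ := by
  simp only [ev_eq_sum, LinearMap.sum_apply, LinearMap.smul_apply, map_sum, map_smul, smul_eq_mul]
  rw [Finset.sum_eq_single k (fun k' _ hk => Finset.sum_eq_zero fun α _ => by
    rw [h.zero k k' α γ (Or.inl hk), mul_zero]) (by simp),
    Finset.sum_eq_single γ (fun α _ hα => by rw [h.zero k k α γ (Or.inr hα), mul_zero])
    (fun hγ => by rw [MvPolynomial.notMem_support_iff.1 hγ, zero_mul]), h.one, mul_one]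

end

theorem p_TH :
    S_TH := by
  intro ι F V _ _ _ _ β μ m lam f h
  refine ⟨fun l => ⟨fun k => ⟨th_op h fun α => l (f k α), th_apx h _⟩, fun v => ?_⟩,
    fun s a => ⟨fun H k v hv => ?_, fun H v hv => Finset.sum_eq_zero fun k _ => by
      rw [H k v hv, map_zero]⟩, fun s => ?_⟩
  · obtain ⟨T, hT⟩ := h.exh v
    conv_lhs => rw [th_exp h hT]
    simp only [th_op_apply h _ hT, map_sum, map_smul, smul_eq_mul, mul_comm]
  · choose P hP using fun k => (mem_Alg.1 (a k).2) s
    rw [hP k v hv, ev_eq_sum, LinearMap.sum_apply]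
    refine Finset.sum_eq_zero fun α _ => ?_
    rw [LinearMap.smul_apply]
    rcases lt_or_ge (wt μ α) s with c | c
    · have u := Vs_mono β μ (Nat.succ_le_of_lt c) (h.mem k α)
      have w := H _ u
      simp only [hP _ _ u] at w
      rw [← th_coeff h P k α, w, zero_smul]
    · rw [hv α c, smul_zero]
  · have : FiniteDimensional F (Submodule.span F
        (Set.range fun x : Fin m × (th_fin h.good s).toFinset => f x.1 x.2)) :=
      FiniteDimensional.span_of_finite F (Set.finite_range _)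
    refine Submodule.finiteDimensional_of_le (S₂ := Submodule.span F
      (Set.range fun x : Fin m × (th_fin h.good s).toFinset => f x.1 x.2)) fun v hv => ?_
    rw [th_exp h hv]
    exact Submodule.sum_mem _ fun k _ => Submodule.sum_mem _ fun α hα =>
      Submodule.smul_mem _ _ (Submodule.subset_span ⟨(k, ⟨α, hα⟩), rfl⟩)

end

/-! Step COREG. -/

section

open Pool.Agent.P.MP_7cb106_nt.GK

theorem coreg_comm {ι F V : Type} [Fintype ι] [Field F] [AddCommGroup V] [Module F V]
    {β : ι → Module.End F V} {μ : ι → ℕ} (hex : ∀ v, ∃ T, v ∈ Vs β μ T) {x a : Module.End F V}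
    (hx : ∀ i, Commute x (β i)) (ha : Apx β μ a) (v : V) : a (x v) = x (a v) := by
  obtain ⟨T, hT⟩ := hex v
  obtain ⟨T', hT'⟩ := hex (x v)
  obtain ⟨P, hP⟩ := ha (max T T')
  have h1 : Commute x (ev F β P) := by
    rw [ev_eq_sum]
    refine Commute.sum_right _ _ _ fun α _ => Commute.smul_right ?_ _
    refine Commute.list_prod_right _ _ fun y hy => ?_
    obtain ⟨i, -, rfl⟩ := List.mem_map.1 hy
    exact (hx i).pow_right _
  rw [hP v (Vs_mono β μ (le_max_left _ _) hT), hP _ (Vs_mono β μ (le_max_right _ _) hT')]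
  exact (LinearMap.congr_fun h1.eq v).symm

theorem coreg_nil {F V : Type} [Field F] [AddCommGroup V] [Module F V] {g : ℕ}
    (x : Fin g → Module.End F V) (hn : ∀ j v, ∃ a, (x j ^ a) v = 0) (W : Submodule F V)
    (hW : Module.Finite F W) : ∃ a : ℕ, ∀ j, ∀ v ∈ W, (x j ^ a) v = 0 := by
  obtain ⟨s, rfl⟩ := Module.Finite.iff_fg.1 hW
  choose a ha using hn
  refine ⟨(Finset.univ ×ˢ s).sup fun q => a q.1 q.2, fun j v hv => ?_⟩
  refine (Submodule.span_le (p := LinearMap.ker (x j ^ _))).2 (fun w hw => ?_) hv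
  obtain ⟨c, hc⟩ := Nat.exists_eq_add_of_le' (Finset.le_sup (f := fun q : Fin g × V => a q.1 q.2)
    (Finset.mem_product.2 ⟨Finset.mem_univ j, hw⟩ : (j, w) ∈ Finset.univ ×ˢ s))
  rw [SetLike.mem_coe, LinearMap.mem_ker, hc, pow_add, Module.End.mul_apply, ha, map_zero]

theorem coreg_K {F V Λ M : Type} [Field F] [AddCommGroup V] [Module F V] [Ring Λ] [Algebra F Λ]
    [AddCommGroup M] [Module Λ M] [Module F M] [IsScalarTower F Λ M] {g : ℕ}
    (θ : M ≃ₗ[F] Module.Dual F V) (x : Fin g → Module.End F V) (y : Fin g → Module.End Λ M)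
    (hy : ∀ j a v, θ (y j a) v = θ a (x j v)) (k : ℕ) (a : M) :
    a ∈ PF.Kx y k ↔
      θ a ∈ (⨅ j : {j : Fin g // j.val < k}, LinearMap.ker (x j.1)).dualAnnihilator := by
  constructor
  · intro ha
    rw [Submodule.mem_dualAnnihilator]
    intro w hw
    rw [Submodule.mem_iInf] at hw
    rw [PF.Kx, iSup_subtype'] at ha
    induction ha using Submodule.iSup_induction' with
    | mem j a ha =>
      obtain ⟨b, rfl⟩ := ha
      rw [hy, LinearMap.mem_ker.1 (hw j), map_zero]
    | zero => simp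
    | add a b _ _ h1 h2 => rw [map_add, LinearMap.add_apply, h1, h2, add_zero]
  · intro ha
    rw [Subspace.dualAnnihilator_iInf_eq] at ha
    obtain ⟨l, rfl⟩ := θ.symm.surjective a
    rw [LinearEquiv.apply_symm_apply] at ha
    induction ha using Submodule.iSup_induction' with
    | mem j l hl =>
      rw [← LinearMap.range_dualMap_eq_dualAnnihilator_ker] at hl
      obtain ⟨l', rfl⟩ := hl
      refine Submodule.mem_iSup_of_mem j.1 (Submodule.mem_iSup_of_mem j.2 ⟨θ.symm l', ?_⟩)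
      rw [LinearEquiv.eq_symm_apply]
      ext v
      rw [hy, LinearEquiv.apply_symm_apply, LinearMap.dualMap_apply]
    | zero => simp
    | add l l' _ _ h1 h2 => rw [map_add]; exact add_mem h1 h2

theorem coreg_rank {F V M : Type} [Field F] [AddCommGroup V] [Module F V] [AddCommGroup M]
    [Module F M] (θ : M ≃ₗ[F] Module.Dual F V) (W W' : Submodule F V) (A A' : Submodule F M)
    (hA : ∀ a, a ∈ A ↔ θ a ∈ W.dualAnnihilator) (hA' : ∀ a, a ∈ A' ↔ θ a ∈ W'.dualAnnihilator) :
    Module.finrank F (M ⧸ (A ⊔ A')) = Module.finrank F ↥(W ⊓ W') := by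
  have h1 : (A ⊔ A').map θ.toLinearMap = (W ⊓ W').dualAnnihilator := by
    have h2 : ∀ (W : Submodule F V) (A : Submodule F M),
        (∀ a, a ∈ A ↔ θ a ∈ W.dualAnnihilator) → A.map θ.toLinearMap = W.dualAnnihilator := by
      intro W A hA
      ext l
      rw [Submodule.mem_map_equiv, hA, LinearEquiv.apply_symm_apply]
    rw [Submodule.map_sup, h2 W A hA, h2 W' A' hA', Subspace.dualAnnihilator_inf_eq]
  rw [(Submodule.Quotient.equiv _ _ θ h1).finrank_eq,
    (Subspace.quotAnnihilatorEquiv (W ⊓ W')).finrank_eq, Subspace.dual_finrank_eq]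

theorem p_COREG (hABS : S_ABS) (hFRA : S_FRA) (hOP : S_OP) (hTH : S_TH) :
    S_COREG := by
  intro ι F V _ _ _ _ β μ m lam f h g C e x xx xb xn hdim he
  obtain ⟨hsurj, hstr, hfin⟩ := hTH ι F V β μ m lam f h
  have hFR := hOP ι F _ μ _ _ (hFRA ι F V β μ m lam f h)
  set Fl : ℕ → Submodule F (Alg h.good h.cl)ᵐᵒᵖ := fun t => (FlA h.good h.cl t).comap
    (MulOpposite.opLinearEquiv F (M := Alg h.good h.cl)).symm.toLinearMap with hFl
  let θ₀ : (Fin m → (Alg h.good h.cl)ᵐᵒᵖ) →ₗ[F] Module.Dual F V :=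
    { toFun := fun a => ∑ k, lam k ∘ₗ (a k).unop.1
      map_add' := fun a b => by
        ext v
        simp [Finset.sum_add_distrib]
      map_smul' := fun c a => by
        ext v
        simp [Finset.mul_sum] }
  have hθ₀ : ∀ a v, θ₀ a v = ∑ k, lam k ((a k).unop.1 v) := fun a v => by
    simp [θ₀]
  have hF₀ : ∀ s a, a ∈ PF.FlM Fl m s ↔ θ₀ a ∈ (Vs β μ s).dualAnnihilator := fun s a => by
    rw [PF.mem_FlM, Submodule.mem_dualAnnihilator]
    simp only [hθ₀]
    exact (hstr s fun k => (a k).unop).symm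
  have hbij : Function.Bijective θ₀ := by
    refine ⟨(injective_iff_map_eq_zero _).2 fun a ha => funext fun k => hFR.sep _ fun t => ?_,
      fun l => ?_⟩
    · exact PF.mem_FlM.1 ((hF₀ t a).2 (ha ▸ zero_mem _)) k
    · obtain ⟨a, ha⟩ := hsurj l
      exact ⟨fun k => MulOpposite.op (a k), LinearMap.ext fun v => by rw [hθ₀, ha]; rfl⟩
  let θ := LinearEquiv.ofBijective θ₀ hbij
  have hθ : ∀ a, θ a = θ₀ a := fun _ => rfl
  have hsm : ∀ (c : (Alg h.good h.cl)ᵐᵒᵖ) a v, θ (c • a) v = θ a (c.unop.1 v) := fun c a v => by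
    rw [hθ, hθ, hθ₀, hθ₀]
    rfl
  let y : Fin g → Module.End (Alg h.good h.cl)ᵐᵒᵖ (Fin m → (Alg h.good h.cl)ᵐᵒᵖ) := fun j =>
    { toFun := fun a => θ.symm ((x j).dualMap (θ a))
      map_add' := fun a b => by rw [map_add, map_add, map_add]
      map_smul' := fun c a => by
        rw [LinearEquiv.symm_apply_eq]
        ext v
        rw [RingHom.id_apply, hsm, LinearEquiv.apply_symm_apply, LinearMap.dualMap_apply,
          LinearMap.dualMap_apply, hsm, coreg_comm h.exh (xb j) c.unop.2] }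
  have hy : ∀ j a v, θ (y j a) v = θ a (x j v) := fun j a v => by
    change θ (θ.symm _) v = _
    rw [LinearEquiv.apply_symm_apply, LinearMap.dualMap_apply]
  have hyp : ∀ j (n : ℕ) a v, θ ((y j ^ n) a) v = θ a ((x j ^ n) v) := by
    intro j n
    induction n with
    | zero => exact fun _ _ => rfl
    | succ n ih =>
      intro a v
      rw [pow_succ, Module.End.mul_apply, ih, hy, pow_succ', Module.End.mul_apply]
  obtain ⟨n, hn⟩ := coreg_nil x xn _ (hfin 1)
  have key := hABS F ι _ μ _ Fl hFR m g y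
    (fun i j => LinearMap.ext fun a => θ.injective (LinearMap.ext fun v => by
      rw [Module.End.mul_apply, Module.End.mul_apply, hy, hy, hy, hy]
      exact congrArg _ (LinearMap.congr_fun (xx j i).eq v))) n
    (fun j a => (hF₀ 1 _).2 ((Submodule.mem_dualAnnihilator _).2 fun v hv => by
      rw [← hθ, hyp, hn j v hv, map_zero])) C e
    (fun s => by
      rw [coreg_rank θ (Vs β μ s) _ _ _ (hF₀ s) (coreg_K θ x y hy g)]
      refine le_of_eq_of_le ?_ (hdim s)
      have h1 : (⨅ j : {j : Fin g // j.val < g}, LinearMap.ker (x j.1)) =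
          ⨅ j, LinearMap.ker (x j) := by
        ext v
        simp only [Submodule.mem_iInf]
        exact ⟨fun hv j => hv ⟨j, j.2⟩, fun hv j => hv j.1⟩
      rw [h1]) he
  intro k v hv
  by_contra hc
  have h1 : v ∉ (⨅ j : {j : Fin g // j.val < k.val}, LinearMap.ker (x j.1)).map (x k) := by
    rintro ⟨w, hw, h2⟩
    exact hc ⟨w, fun j hj => (Submodule.mem_iInf _).1 hw ⟨j, hj⟩, h2⟩
  obtain ⟨l, hl, hl0⟩ := Submodule.exists_dual_map_eq_bot_of_notMem h1 inferInstance
  have h2 := (coreg_K θ x y hy k _).1 (key k (θ.symm l) ((coreg_K θ x y hy k _).2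
    ((Submodule.mem_dualAnnihilator _).2 fun w hw => by
      rw [hy, LinearEquiv.apply_symm_apply, ← Submodule.mem_bot F, ← hl0]
      exact Submodule.mem_map_of_mem (Submodule.mem_map_of_mem hw))))
  rw [LinearEquiv.apply_symm_apply, Submodule.mem_dualAnnihilator] at h2
  exact hl (h2 v ((Submodule.mem_iInf _).2 fun j => hv j.1 j.2))

end

end Pool.Agent.P.MP_7cb106_nt.PG
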