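import Pool.Agent.P.MP_7cb106_nt.GK.BaseA

/-! Translation of the variables of a power series ring over the ring of integers. -/

set_option autoImplicit false

namespace Pool.Agent.P.MP_7cb106_nt.PG

open Pool.Agent.P.MP_7cb106_nt.GK MvPowerSeries Filter Topology
open scoped MvPowerSeries.WithPiTopology

variable {L : Type} [NormedField L] [IsUltrametricDist L]

/-- the open ball of radius `ε` as an ideal -/
def ballIdeal (L : Type) [NormedField L] [IsUltrametricDist L] (ε : ℝ) (hε : 0 < ε) :
    Ideal (Ob L) where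
  carrier := {c | ‖(c : L)‖ < ε}
  add_mem' := fun {a b} ha hb => by
    have h : ‖((a + b : Ob L) : L)‖ ≤ max ‖(a : L)‖ ‖(b : L)‖ :=
      IsUltrametricDist.norm_add_le_max _ _
    exact h.trans_lt (max_lt ha hb)
  zero_mem' := by simpa using hε
  smul_mem' := fun c a ha => by
    have h : ‖((c • a : Ob L) : L)‖ = ‖(c : L)‖ * ‖(a : L)‖ := norm_mul _ _
    have ha' : ‖(a : L)‖ < ε := ha
    change ‖((c • a : Ob L) : L)‖ < ε
    rw [h]
    exact (mul_le_of_le_one_left (norm_nonneg _) (Ob.norm_le c)).trans_lt ha'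

theorem linTop : IsLinearTopology (Ob L) (Ob L) := by
  have hb : (𝓝 (0 : Ob L)).HasBasis (fun _ : {ε : ℝ // 0 < ε} => True)
      fun ε => (ballIdeal L ε.1 ε.2 : Set (Ob L)) := by
    refine (Metric.nhds_basis_ball (x := (0 : Ob L))).to_hasBasis ?_ ?_
    · intro ε hε
      refine ⟨⟨ε, hε⟩, trivial, fun c hc => ?_⟩
      rw [Metric.mem_ball, dist_zero_right]
      exact hc
    · intro ε _
      refine ⟨ε.1, ε.2, fun c hc => ?_⟩
      rw [Metric.mem_ball, dist_zero_right] at hc
      exact hc
  exact IsLinearTopology.mk_of_hasBasis (Ob L) hb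

theorem complOb [CompleteSpace L] : CompleteSpace (Ob L) := by
  have h : IsClosed ((Ob L : Subring L) : Set L) := isClosed_le continuous_norm continuous_const
  exact h.completeSpace_coe

theorem hasEval_shift {g : ℕ} (c : Fin g → Ob L) (hc : ∀ j, ‖(c j : L)‖ < 1) :
    HasEval fun j => (X j - C (c j) : MvPowerSeries (Fin g) (Ob L)) := by
  haveI := linTop (L := L)
  refine ⟨fun j => ?_, ?_⟩
  · refine LinearTopology.isTopologicallyNilpotent_of_constantCoeff ?_
    have h : constantCoeff (X j - C (c j) : MvPowerSeries (Fin g) (Ob L)) = - c j := by simp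
    rw [h]
    exact tendsto_pow_atTop_nhds_zero_of_norm_lt_one (by rw [norm_neg]; exact hc j)
  · rw [Filter.cofinite_eq_bot]
    exact tendsto_bot

/-- translation of the variables -/
theorem exists_translate [CompleteSpace L] {g : ℕ} (c : Fin g → Ob L) (hc : ∀ j, ‖(c j : L)‖ < 1) :
    ∃ θ : MvPowerSeries (Fin g) (Ob L) →ₐ[Ob L] MvPowerSeries (Fin g) (Ob L),
      Function.Surjective θ ∧ ∀ j, θ (X j) = X j - C (c j) := by
  haveI := linTop (L := L)
  haveI := complOb (L := L)
  have h1 := hasEval_shift c hc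
  have h2 := hasEval_shift (-c) (fun j => by simpa using hc j)
  have hX : ∀ {a : Fin g → MvPowerSeries (Fin g) (Ob L)} (ha : HasEval a) (j : Fin g),
      aeval (R := Ob L) ha (X j) = a j := fun ha j => by rw [coe_aeval, eval₂_X]
  refine ⟨aeval h1, fun f => ⟨aeval (R := Ob L) h2 f, ?_⟩, hX h1⟩
  have h3 := comp_aeval (R := Ob L) h2 (ε := aeval h1) (continuous_aeval h1)
  have h4 := aeval_unique (ε := AlgHom.id (Ob L) (MvPowerSeries (Fin g) (Ob L))) continuous_id
  have h5 : (fun j => aeval (R := Ob L) h1 (X j - C ((-c) j))) =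
      fun j => (AlgHom.id (Ob L) (MvPowerSeries (Fin g) (Ob L))) (X j) := by
    funext j
    have h7 : aeval (R := Ob L) h1 (C ((-c) j)) = C ((-c) j) := (aeval h1).commutes ((-c) j)
    rw [map_sub, hX h1, h7]
    simp
  have h6 : (aeval h1).comp (aeval (R := Ob L) h2) = AlgHom.id _ _ := by
    rw [h3, ← h4]
    congr 1
  exact DFunLike.congr_fun h6 f

end Pool.Agent.P.MP_7cb106_nt.PG
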