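import Pool.Agent.P.MP_7cb106_nt.PG.IfaceU
import Pool.Agent.P.MP_7cb106_nt.PG.D67a

/-! The support. -/

set_option autoImplicit false

namespace Pool.Agent.P.MP_7cb106_nt.PG

/-! Step ALG. -/

section

open Pool.Agent.P.MP_7cb106_nt.GK MvPowerSeries Filter Topology

theorem alg_lift {L E : Type} [NormedField L] [IsUltrametricDist L] [Field E] [Algebra L E]
    [FiniteDimensional L E] (y : E) (hy : spectralNorm L E y ≤ 1) :
    ∃ P : Polynomial (Ob L), P.Monic ∧ 0 < P.natDegree ∧
      P.eval₂ ((algebraMap L E).comp (Ob L).subtype) y = 0 ∧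
      P.map (Ob L).subtype = minpoly L y := by
  have hi : IsIntegral L y := IsIntegral.of_finite L y
  have hm := minpoly.monic hi
  have hc := (spectralValue_le_one_iff hm).1 hy
  have hl : minpoly L y ∈ Polynomial.lifts (Ob L).subtype :=
    (Polynomial.lifts_iff_coeff_lifts _).2 fun n => ⟨⟨_, mem_Ob.2 (hc n)⟩, rfl⟩
  obtain ⟨P, h1, h2, h3⟩ := Polynomial.lifts_and_natDegree_eq_and_monic hl hm
  refine ⟨P, h3, h2 ▸ minpoly.natDegree_pos hi, ?_, h1⟩
  rw [← Polynomial.eval₂_map, h1, ← Polynomial.aeval_def]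
  exact minpoly.aeval L y

theorem alg_or {L E : Type} [NormedField L] [IsUltrametricDist L] [CompleteSpace L] [Field E]
    [Algebra L E] [FiniteDimensional L E] (ϖ : L) (h0 : 0 < ‖ϖ‖) (h1 : ‖ϖ‖ < 1) (x : E) :
    spectralNorm L E x ≤ 1 ∨ (x ≠ 0 ∧ spectralNorm L E x⁻¹ ≤ 1) := by
  let _ : NontriviallyNormedField L :=
    NontriviallyNormedField.ofNormNeOne ⟨ϖ, norm_pos_iff.1 h0, h1.ne⟩
  by_cases hx : x = 0
  · left
    rw [hx, spectralNorm_zero]
    exact zero_le_one
  have h := spectralAlgNorm_mul (K := L) (L := E) x x⁻¹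
  rw [mul_inv_cancel₀ hx, spectralAlgNorm_one, spectralAlgNorm_def, spectralAlgNorm_def] at h
  by_cases h2 : spectralNorm L E x ≤ 1
  · exact Or.inl h2
  · refine Or.inr ⟨hx, ?_⟩
    have h3 := spectralNorm_nonneg (K := L) x⁻¹
    push Not at h2
    nlinarith

theorem alg_unit {L : Type} [NormedField L] [IsUltrametricDist L] (c : Ob L)
    (h : ¬ ‖(c : L)‖ < 1) : IsUnit c := by
  have h1 : ‖(c : L)‖ ≤ 1 := mem_Ob.1 c.2
  have h2 : ‖(c : L)‖ = 1 := le_antisymm h1 (not_lt.1 h)
  have h3 : (c : L) ≠ 0 := by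
    intro h0
    rw [h0, norm_zero] at h2
    exact zero_ne_one h2
  refine IsUnit.of_mul_eq_one ⟨(c : L)⁻¹, mem_Ob.2 (by rw [norm_inv, h2, inv_one])⟩ ?_
  exact Subtype.ext (mul_inv_cancel₀ h3)

theorem p_ALG :
    S_ALG := by
  intro L E _ _ _ _ _ _ ϖ x h0 h1 hQ
  rcases alg_or ϖ h0 h1 x with h | ⟨hx, h⟩
  · obtain ⟨P, hP, hd, he, hm⟩ := alg_lift x h
    refine ⟨P, hP, hd, ?_, he, hm⟩
    by_contra hc
    exact hQ P (alg_unit _ hc) he
  · obtain ⟨P, hP, -, he, -⟩ := alg_lift x⁻¹ h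
    exfalso
    refine hQ P.reverse ?_ ?_
    · rw [Polynomial.coeff_zero_reverse, hP.leadingCoeff]
      exact isUnit_one
    · let _ : Invertible x⁻¹ := invertibleOfNonzero (inv_ne_zero hx)
      have := (Polynomial.eval₂_reverse_eq_zero_iff
        ((algebraMap L E).comp (Ob L).subtype) x⁻¹ P).2 he
      rwa [invOf_eq_inv, inv_inv] at this

end

/-! Step TR2. -/

section

open Pool.Agent.P.MP_7cb106_nt.GK MvPowerSeries Filter Topology
open scoped MvPowerSeries.WithPiTopology

theorem tr2_fin {A A' : Type} [CommRing A] [CommRing A'] [Algebra A A'] [TopologicalSpace A]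
    [TopologicalSpace A'] [IsTopologicalRing A'] [CompactSpace A] [T2Space A']
    (hc : Continuous (algebraMap A A')) (s : Set A') (hs : s.Finite)
    (hi : ∀ x ∈ s, IsIntegral A x) (hd : Dense (Algebra.adjoin A s : Set A')) :
    Module.Finite A A' := by
  have hfg := fg_adjoin_of_finite hs hi
  obtain ⟨n, e, he⟩ := Submodule.fg_iff_exists_fin_generating_family.1 hfg
  have hcl : IsClosed (Set.range fun b : Fin n → A => ∑ i, algebraMap A A' (b i) * e i) :=
    (isCompact_range (continuous_finset_sum _ fun i _ =>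
      (hc.comp (continuous_apply i)).mul continuous_const)).isClosed
  have hset : (Set.range fun b : Fin n → A => ∑ i, algebraMap A A' (b i) * e i) =
      (Algebra.adjoin A s : Set A') := by
    ext x
    have h1 : x ∈ (Algebra.adjoin A s : Set A') ↔ x ∈ Submodule.span A (Set.range e) := by
      rw [he]
      rfl
    rw [h1, Submodule.mem_span_range_iff_exists_fun]
    simp only [Set.mem_range, Algebra.smul_def]
  rw [hset] at hcl
  have htop : Subalgebra.toSubmodule (Algebra.adjoin A s) = ⊤ := by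
    rw [eq_top_iff]
    intro x _
    have h1 : x ∈ closure (Algebra.adjoin A s : Set A') := hd x
    rwa [hcl.closure_eq] at h1
  exact ⟨htop ▸ hfg⟩

theorem p_TR2 :
    S_TR2 := by
  intro L _ _ _ g P hm hd h0
  haveI := linTop (L := L)
  haveI := complOb (L := L)
  haveI : CompactSpace (Ob L) := by
    have h : IsCompact ((Ob L : Subring L) : Set L) := by
      have h1 : ((Ob L : Subring L) : Set L) = Metric.closedBall 0 1 := by
        ext x
        rw [mem_closedBall_zero_iff]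
        rfl
      rw [h1]
      exact isCompact_closedBall _ _
    exact isCompact_iff_compactSpace.1 h
  haveI : CompactSpace (MvPowerSeries (Fin g) (Ob L)) :=
    inferInstanceAs (CompactSpace ((Fin g →₀ ℕ) → Ob L))
  have h1 : HasEval fun j => ((P j).eval₂ C (X j) : MvPowerSeries (Fin g) (Ob L)) := by
    refine ⟨fun j => ?_, ?_⟩
    · refine LinearTopology.isTopologicallyNilpotent_of_constantCoeff ?_
      have h : constantCoeff ((P j).eval₂ C (X j) : MvPowerSeries (Fin g) (Ob L)) =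
          (P j).coeff 0 := by
        rw [Polynomial.hom_eval₂, constantCoeff_X, Polynomial.eval₂_at_zero]
        simp
      rw [h]
      exact tendsto_pow_atTop_nhds_zero_of_norm_lt_one (h0 j)
    · rw [Filter.cofinite_eq_bot]
      exact tendsto_bot
  have hX : ∀ j, aeval (R := Ob L) h1 (X j) = (P j).eval₂ C (X j) := fun j => by
    rw [coe_aeval, eval₂_X]
  have hC : ∀ a : Ob L, aeval (R := Ob L) h1 (C a) = C a := (aeval h1).commutes
  refine ⟨(aeval (R := Ob L) h1).toRingHom, ?_, hC, hX⟩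
  refine @tr2_fin _ _ _ _ (aeval (R := Ob L) h1).toRingHom.toAlgebra _ _ _ _ _
    (continuous_aeval h1) (Set.range X) (Set.finite_range _) ?_ ?_
  · rintro _ ⟨j, rfl⟩
    refine ⟨(P j).map C - Polynomial.C (X j), ?_, ?_⟩
    · refine ((hm j).map C).sub_of_left ?_
      rw [(hm j).degree_map]
      exact Polynomial.degree_C_le.trans_lt (Polynomial.natDegree_pos_iff_degree_pos.1 (hd j))
    · rw [Polynomial.eval₂_sub, Polynomial.eval₂_C, Polynomial.eval₂_map, sub_eq_zero]
      refine Eq.trans ?_ (hX j).symm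
      congr 1
      exact RingHom.ext hC
  · refine (WithPiTopology.denseRange_toMvPowerSeries (R := Ob L) (σ := Fin g)).mono ?_
    rintro _ ⟨Q, rfl⟩
    induction Q using MvPolynomial.induction_on with
    | C a =>
      rw [MvPolynomial.coe_C, ← hC]
      exact @Subalgebra.algebraMap_mem _ _ _ _ (aeval (R := Ob L) h1).toRingHom.toAlgebra _ _
    | add p q hp hq =>
      rw [MvPolynomial.coe_add]
      exact add_mem hp hq
    | mul_X p j hp =>
      rw [MvPolynomial.coe_mul, MvPolynomial.coe_X]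
      exact mul_mem hp
        (@Algebra.subset_adjoin _ _ _ _ (aeval (R := Ob L) h1).toRingHom.toAlgebra _ _ ⟨j, rfl⟩)

end

/-! Step DENS. -/

section

open Pool.Agent.P.MP_7cb106_nt.GK MvPowerSeries Filter Topology

theorem dens_mono {M : Type} [Monoid M] {g : ℕ} (x : Fin g → M)
    (hc : ∀ i j, Commute (x i) (x j)) :
    ∃ m : (Fin g →₀ ℕ) → M, m 0 = 1 ∧ (∀ β γ, m (β + γ) = m β * m γ) ∧
      ∀ j k, m (Finsupp.single j k) = x j ^ k := by
  let ϕ : ∀ _ : Fin g, Multiplicative ℕ →* M := fun i => powersHom M (x i)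
  have hϕ : Pairwise fun i j => ∀ a b, Commute (ϕ i a) (ϕ j b) := fun i j _ a b =>
    (hc i j).pow_pow _ _
  let P := MonoidHom.noncommPiCoprod ϕ hϕ
  refine ⟨fun β => P fun j => Multiplicative.ofAdd (β j), map_one P, fun β γ => ?_,
    fun j k => ?_⟩
  · rw [← map_mul]
    rfl
  · have h : (fun i => Multiplicative.ofAdd (Finsupp.single j k i)) =
        Pi.mulSingle j (Multiplicative.ofAdd k) := by
      funext i
      by_cases hi : i = j
      · subst hi
        simp
      · simp [hi]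
    show P (fun i => Multiplicative.ofAdd (Finsupp.single j k i)) = _
    rw [h]
    exact MonoidHom.noncommPiCoprod_mulSingle ϕ j _

theorem dens_ind {g : ℕ} (P : (Fin g →₀ ℕ) → Prop) (h0 : P 0)
    (hs : ∀ β j, P β → P (β + Finsupp.single j 1)) (β : Fin g →₀ ℕ) : P β := by
  induction β using Finsupp.induction with
  | zero => exact h0
  | single_add a b f h1 h2 ih =>
    clear h1 h2
    induction b with
    | zero => simpa using ih
    | succ b ihb =>
      rw [Finsupp.single_add, add_right_comm]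
      exact hs _ _ ihb

theorem dens_split {g : ℕ} (γ : Fin g →₀ ℕ) (j : Fin g) (k : ℕ) (h : k ≤ γ j) :
    ∃ δ, γ = δ + Finsupp.single j k :=
  ⟨γ - Finsupp.single j k, (tsub_add_cancel_of_le (Finsupp.single_le_iff.2 h)).symm⟩

theorem dens_fam {L B : Type} [NormedField L] [NormedAddCommGroup B] [NormedSpace L B] {g : ℕ}
    {x : Fin g → Module.End L B} {m : (Fin g →₀ ℕ) → Module.End L B} (m0 : m 0 = 1)
    (ms : ∀ β j w, m (β + Finsupp.single j 1) w = m β (x j w)) {v : (Fin g →₀ ℕ) → B}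
    (hv : Fam x v) (β γ : Fin g →₀ ℕ) (hd : β.degree = γ.degree) :
    m β (v γ) = if β = γ then v 0 else 0 := by
  have h1 : ∀ β δ, m β (v (β + δ)) = v δ := by
    intro β
    induction β using dens_ind with
    | h0 => intro δ; rw [m0, zero_add]; rfl
    | hs β j ih => intro δ; rw [ms, add_right_comm, hv.step, ih]
  have h2 : ∀ β γ, ¬ β ≤ γ → m β (v γ) = 0 := by
    intro β
    induction β using dens_ind with
    | h0 => intro γ h; exact absurd zero_le h
    | hs β j ih =>
      intro γ h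
      rw [ms]
      rcases Nat.eq_zero_or_pos (γ j) with h0 | h0
      · rw [hv.zero j γ h0, map_zero]
      · obtain ⟨δ, rfl⟩ := dens_split γ j 1 h0
        rw [hv.step]
        exact ih δ fun h' => h (add_le_add h' le_rfl)
  split_ifs with h
  · subst h
    simpa using h1 β 0
  · refine h2 β γ fun hle => h ?_
    obtain ⟨δ, rfl⟩ := exists_add_of_le hle
    rw [map_add] at hd
    have h3 : δ = 0 := (Finsupp.degree_eq_zero_iff δ).1 (by omega)
    rw [h3, add_zero]

theorem p_DENS (hLFT : S_LFT) (hFAM : S_FAM) :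
    S_DENS := by
  intro L B _ _ _ _ _ ϖ g x hU hx hc hM hlim a ha hfam
  obtain ⟨hreg, hlift⟩ := hLFT L B ϖ g x hU hx hc hM
  obtain ⟨m, m0, madd, msin⟩ := dens_mono x hc
  have ms : ∀ β j w, m (β + Finsupp.single j 1) w = m β (x j w) := by
    intro β j w
    rw [madd, msin, pow_one]
    rfl
  have ms' : ∀ β j w, m (β + Finsupp.single j 1) w = x j (m β w) := by
    intro β j w
    rw [add_comm, madd, msin, pow_one]
    rfl
  have mle : ∀ β w, ‖m β w‖ ≤ ‖w‖ := by
    intro β
    induction β using dens_ind with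
    | h0 => intro w; rw [m0]; exact le_rfl
    | hs β j ih => intro w; rw [ms']; exact (hx _ _).trans (ih w)
  have hsub : ∀ u w : B, ‖u‖ ≤ 1 → ‖w‖ ≤ 1 → ‖u - w‖ ≤ 1 := by
    intro u w hu hw
    rw [sub_eq_add_neg]
    exact (IsUltrametricDist.norm_add_le_max _ _).trans (max_le hu (by rwa [norm_neg]))
  have key : ∀ (n : ℕ) (w : B), ‖w‖ ≤ 1 → (∀ β : Fin g →₀ ℕ, β.degree = n → ‖m β w‖ < 1) →
      ∃ u, a u = 0 ∧ ‖w - u‖ < 1 := by
    intro n
    induction n with
    | zero =>
      intro w _ h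
      have h1 := h 0 (map_zero _)
      rw [m0] at h1
      exact ⟨0, map_zero _, by rw [sub_zero]; exact h1⟩
    | succ n ih =>
      intro w hw h
      have h1 : ∀ β : Fin g →₀ ℕ, ∃ v : (Fin g →₀ ℕ) → B, Fam x v ∧
          (β.degree = n → ‖v 0 - m β w‖ < 1) := by
        intro β
        by_cases hβ : β.degree = n
        · obtain ⟨y, y1, y2, y3⟩ := hlift (m β w) ((mle β w).trans hw) fun j => by
            rw [← ms']
            exact h _ (by rw [map_add, Finsupp.degree_single, hβ])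
          obtain ⟨v, v0, v1, v2, v3⟩ := hFAM L B g x hx hc hreg y y1 y2
          exact ⟨v, ⟨v1, v2, v3⟩, fun _ => by rw [v0]; exact y3⟩
        · exact ⟨fun _ => 0, ⟨fun _ => by simp, fun _ _ => map_zero _, fun _ _ _ => map_zero _⟩,
            fun h' => absurd h' hβ⟩
      choose v hv hv' using h1
      let S := (Finsupp.finite_of_degree_eq (σ := Fin g) n).toFinset
      have hS : ∀ β, β ∈ S ↔ β.degree = n := fun β => Set.Finite.mem_toFinset _
      have hu1 : ‖∑ γ ∈ S, v γ γ‖ ≤ 1 :=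
        IsUltrametricDist.norm_sum_le_of_forall_le_of_nonneg zero_le_one fun γ _ => (hv γ).le γ
      obtain ⟨u, u1, u2⟩ := ih (w - ∑ γ ∈ S, v γ γ) (hsub _ _ hw hu1) fun β hβ => by
        rw [map_sub, map_sum, Finset.sum_eq_single β, dens_fam m0 ms (hv β) β β rfl, if_pos rfl,
          norm_sub_rev]
        · exact hv' β hβ
        · intro γ hγ hne
          rw [dens_fam m0 ms (hv γ) β γ (hβ.trans ((hS γ).1 hγ).symm), if_neg hne.symm]
        · intro h'
          exact absurd ((hS β).2 hβ) h'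
      refine ⟨∑ γ ∈ S, v γ γ + u, ?_, by rw [← sub_sub]; exact u2⟩
      rw [map_add, u1, add_zero, map_sum]
      exact Finset.sum_eq_zero fun γ _ => hfam _ (hv γ) γ
  have key2 : ∀ w : B, ‖w‖ ≤ 1 → ∃ u, a u = 0 ∧ ‖w - u‖ < 1 := by
    intro w hw
    have h1 : ∀ᶠ k : ℕ in atTop, ∀ j, ‖(x j ^ k) w‖ < 1 := by
      refine eventually_all.2 fun j => ?_
      have h2 := (hlim j w).norm
      rw [norm_zero] at h2
      exact h2.eventually (gt_mem_nhds one_pos)
    obtain ⟨K, hK⟩ := h1.exists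
    refine key (g * K + 1) w hw fun β hβ => ?_
    have h2 : ∃ j, K ≤ β j := by
      by_contra h3
      have h4 : ∑ j, β j ≤ ∑ _j : Fin g, K :=
        Finset.sum_le_sum fun j _ => (not_le.1 fun h5 => h3 ⟨j, h5⟩).le
      rw [← Finsupp.degree_eq_sum, hβ, Finset.sum_const, Finset.card_univ, Fintype.card_fin,
        smul_eq_mul] at h4
      omega
    obtain ⟨j, hj⟩ := h2
    obtain ⟨δ, rfl⟩ := dens_split β j K hj
    rw [madd, msin]
    exact (mle δ _).trans_lt (hK j)
  have hϖ : ϖ ≠ 0 := norm_pos_iff.1 hU.pos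
  have key3 : ∀ (k : ℕ) (w : B), ‖w‖ ≤ 1 → ‖a w‖ ≤ ‖ϖ‖ ^ k := by
    intro k
    induction k with
    | zero => intro w hw; rw [pow_zero]; exact (ha w).trans hw
    | succ k ih =>
      intro w hw
      obtain ⟨u, u1, u2⟩ := key2 w hw
      have h1 : ‖ϖ⁻¹ • (w - u)‖ ≤ 1 := by
        rw [norm_smul, norm_inv, inv_mul_le_one₀ hU.pos]
        exact hU.le _ u2
      have h2 : a w = ϖ • a (ϖ⁻¹ • (w - u)) := by
        rw [← map_smul, smul_inv_smul₀ hϖ, map_sub, u1, sub_zero]
      rw [h2, norm_smul, pow_succ']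
      exact mul_le_mul_of_nonneg_left (ih _ h1) (norm_nonneg _)
  have hpow : Tendsto (fun k : ℕ => ‖ϖ‖ ^ k) atTop (𝓝 0) :=
    tendsto_pow_atTop_nhds_zero_of_lt_one (norm_nonneg _) hU.lt
  ext w
  have h1 : Tendsto (fun k : ℕ => ‖ϖ‖ ^ k * ‖w‖) atTop (𝓝 0) := by
    simpa using hpow.mul_const ‖w‖
  obtain ⟨k, hk⟩ := (h1.eventually (gt_mem_nhds one_pos)).exists
  have h2 : ‖a (ϖ ^ k • w)‖ ≤ 0 :=
    ge_of_tendsto' hpow fun n => key3 n _ (by rw [norm_smul, norm_pow]; exact hk.le)
  rw [norm_le_zero_iff, map_smul] at h2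
  exact (smul_eq_zero.1 h2).resolve_left (pow_ne_zero _ hϖ)

end

/-! Step ARD2. -/

section

open Pool.Agent.P.MP_7cb106_nt.GK MvPowerSeries Filter Topology

theorem ard2_pi (A ι : Type) [CommRing A] [Fintype ι] (J : Ideal A) (x : ι → A)
    (hx : ∀ i, x i ∈ J) : x ∈ J • (⊤ : Submodule A (ι → A)) := by
  classical
  have h : x = ∑ i, x i • (Pi.single i (1 : A) : ι → A) := by
    funext j
    simp [Finset.sum_apply, Pi.single_apply]
  rw [h]
  exact Submodule.sum_mem _ fun i _ => Submodule.smul_mem_smul (hx i) Submodule.mem_top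

theorem p_ARD2 :
    S_ARD2 := by
  refine ⟨?_, ?_⟩
  · intro A R _ _ _ κ I Φ hfin hΦ a ha
    let : Algebra A R := κ.toAlgebra
    have hκ : ∀ a : A, algebraMap A R a = κ a := fun _ => rfl
    have : Module.Finite A R := hfin
    let D : Φ → Module.Dual A R := fun φ =>
      { toFun := φ.1
        map_add' := φ.1.map_add
        map_smul' := fun c x => by
          rw [Algebra.smul_def, hκ, hΦ _ φ.2]
          rfl }
    have hfg : (Submodule.span A (Set.range D)).FG := IsNoetherian.noetherian _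
    obtain ⟨t, ht1, ht2⟩ := (Submodule.fg_span_iff_fg_span_finset_subset _).1 hfg
    let Ψ : R →ₗ[A] (t → A) := LinearMap.pi fun i => i.1
    obtain ⟨k, hk⟩ := I.exists_pow_inf_eq_pow_smul (LinearMap.range Ψ)
    have h3 := hk (k + 1) (Nat.le_succ k)
    have h4 : Ψ (a ^ (k + 1)) ∈ I ^ (k + 1) • (⊤ : Submodule A (t → A)) ⊓ LinearMap.range Ψ :=
      ⟨ard2_pi A _ _ _ fun i => by
        obtain ⟨φ, hφ⟩ := ht1 i.2
        change i.1 _ ∈ _
        rw [← hφ]
        exact ha _ φ.2 _, LinearMap.mem_range_self _ _⟩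
    rw [h3, Nat.add_sub_cancel_left, pow_one] at h4
    have h5 : Ψ (a ^ (k + 1)) ∈ I • LinearMap.range Ψ :=
      Submodule.smul_mono le_rfl inf_le_right h4
    rw [LinearMap.range_eq_map, ← Submodule.map_smul''] at h5
    obtain ⟨y, hy, hyy⟩ := h5
    have h7 : y ∈ I • (⊤ : Submodule A R) := hy
    rw [Ideal.smul_top_eq_map] at h7
    refine ⟨k + 1, y, h7, fun φ hφ => ?_⟩
    have h8 : ∀ ψ ∈ Submodule.span A (t : Set (Module.Dual A R)), ψ (a ^ (k + 1) - y) = 0 := by
      intro ψ hψ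
      induction hψ using Submodule.span_induction with
      | mem x hx =>
        have h9 := congrFun hyy ⟨x, hx⟩
        rw [map_sub, sub_eq_zero]
        exact h9.symm
      | zero => rfl
      | add x y _ _ hx hy => rw [LinearMap.add_apply, hx, hy, add_zero]
      | smul c x _ hx => rw [LinearMap.smul_apply, hx, smul_zero]
    exact h8 (D ⟨φ, hφ⟩) (ht2 ▸ Submodule.subset_span ⟨_, rfl⟩)
  · intro A R _ _ _ κ hfin r hne
    let : Algebra A R := κ.toAlgebra
    have : Module.Finite A R := hfin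
    have : Nontrivial A := κ.domain_nontrivial
    have hint : IsIntegral A r := IsIntegral.of_finite A r
    obtain ⟨a, ha, t, ht⟩ :=
      hint.isAlgebraic.exists_nonzero_dvd (mem_nonZeroDivisors_of_ne_zero hne)
    exact ⟨a, t, ha, ht⟩

end

/-! Step EIG2. -/

section

open Pool.Agent.P.MP_7cb106_nt.GK MvPowerSeries Filter Topology

theorem eig2_comm {L B R : Type} [Field L] [AddCommGroup B] [Module L B] [CommRing R]
    (act : R →+* Module.End L B) (a b : R) (w : B) : act (a * b) w = act b (act a w) := by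
  rw [mul_comm, map_mul, Module.End.mul_apply]

theorem eig2_pow {L B R : Type} [Field L] [AddCommGroup B] [Module L B] [CommRing R]
    (act : R →+* Module.End L B) (W : Set B) (hW : ∀ w ∈ W, ∀ r, act r w ∈ W) (t a : R)
    (ha : ∀ w ∈ W, act t w = 0 → act a w = 0) (k : ℕ) :
    ∀ w ∈ W, act (t ^ k) w = 0 → act (a ^ k) w = 0 := by
  induction k with
  | zero => intro w _ h; simpa using h
  | succ k ih =>
    intro w hw h
    have h1 : act (t ^ k) (act t w) = 0 := by rw [← eig2_comm, ← pow_succ']; exact h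
    have h2 := ih _ (hW w hw t) h1
    have h3 : act t (act (a ^ k) w) = 0 := by
      rw [← eig2_comm, mul_comm, eig2_comm]; exact h2
    have h4 := ha _ (hW w hw (a ^ k)) h3
    rw [pow_succ, eig2_comm]; exact h4

theorem p_EIG2 (hDIV : S_DIV) :
    S_EIG2 := by
  intro L B E _ _ _ _ _ g R _ κ act χ hN hfin hC hχC hann
  -- action of `κ a` on vectors killed by the variables
  have hA : ∀ (a : MvPowerSeries (Fin g) (Ob L)) (w : B), (∀ j, act (κ (X j)) w = 0) →
      act (κ a) w = act (κ (C (constantCoeff a))) w := by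
    intro a w hw
    obtain ⟨b, hb⟩ := (hDIV (Ob L) g).1 a
    conv_lhs => rw [hb]
    rw [map_add, map_add, LinearMap.add_apply, map_sum, map_sum, LinearMap.sum_apply]
    rw [Finset.sum_eq_zero, add_zero]
    intro j _
    rw [map_mul, eig2_comm, hw j, map_zero]
  have hP : ∀ (t : R) (f : Polynomial (MvPowerSeries (Fin g) (Ob L))) (w : B),
      (∀ j, act (κ (X j)) w = 0) →
      act (f.eval₂ κ t) w = act ((f.map constantCoeff).eval₂ (κ.comp C) t) w := by
    intro t f w hw
    induction f using Polynomial.induction_on' with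
    | add p q hp hq =>
      rw [Polynomial.map_add, Polynomial.eval₂_add, Polynomial.eval₂_add, map_add, map_add,
        LinearMap.add_apply, LinearMap.add_apply, hp, hq]
    | monomial n a =>
      rw [Polynomial.map_monomial, Polynomial.eval₂_monomial, Polynomial.eval₂_monomial,
        eig2_comm, eig2_comm, hA a w hw]
      rfl
  have hS : ∀ t : R, χ t = 0 → ∃ (k : ℕ) (s : R), χ s ≠ 0 ∧
      ∀ w, (∀ j, act (κ (X j)) w = 0) → act (s * t ^ k) w = 0 := by
    intro t ht
    obtain ⟨f, hfm, hf⟩ := hfin.to_isIntegral t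
    have hm : (f.map (constantCoeff : MvPowerSeries (Fin g) (Ob L) →+* Ob L)).Monic := hfm.map _
    obtain ⟨q, hq, hnd⟩ :=
      Polynomial.exists_eq_pow_rootMultiplicity_mul_and_not_dvd _ hm.ne_zero (0 : Ob L)
    refine ⟨(f.map (constantCoeff : MvPowerSeries (Fin g) (Ob L) →+* Ob L)).rootMultiplicity 0,
      q.eval₂ (κ.comp C) t, ?_, fun w hw => ?_⟩
    · rw [Polynomial.hom_eval₂, ht, Polynomial.eval₂_at_zero]
      rw [map_zero, sub_zero, Polynomial.X_dvd_iff] at hnd
      exact fun h => hnd (hχC _ h)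
    · have h1 := hP t f w hw
      rw [hf, map_zero, LinearMap.zero_apply, hq, Polynomial.eval₂_mul, Polynomial.eval₂_pow,
        map_zero, sub_zero, Polynomial.eval₂_X, mul_comm] at h1
      exact h1.symm
  have hI : ∀ s : Finset R, (∀ e ∈ s, χ e = 0) → ∃ W : Set B, (∀ w ∈ W, ∀ r, act r w ∈ W) ∧
      (∀ w ∈ W, ∀ j, act (κ (X j)) w = 0) ∧ (∀ a, (∀ w ∈ W, act a w = 0) → χ a = 0) ∧
      ∀ e ∈ s, ∀ w ∈ W, act e w = 0 := by
    classical
    intro s
    induction s using Finset.induction_on with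
    | empty =>
      intro _
      refine ⟨{w | ∀ j, act (κ (X j)) w = 0}, fun w hw r j => ?_, fun w hw => hw,
        fun a ha => hann a ha, by simp⟩
      rw [← eig2_comm, mul_comm, eig2_comm, hw j, map_zero]
    | insert t s _ ih =>
      intro hs
      obtain ⟨W, h1, h2, h3, h4⟩ := ih fun e he => hs e (Finset.mem_insert_of_mem he)
      have ht : χ t = 0 := hs t (Finset.mem_insert_self _ _)
      obtain ⟨k, u, hu, hk⟩ := hS t ht
      refine ⟨{w | w ∈ W ∧ act t w = 0}, fun w hw r => ⟨h1 w hw.1 r, ?_⟩,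
        fun w hw => h2 w hw.1, fun a ha => ?_, fun x hx w hw => ?_⟩
      · rw [← eig2_comm, mul_comm, eig2_comm, hw.2, map_zero]
      · have h5 : χ (u * a ^ k) = 0 := by
          refine h3 _ fun w hw => ?_
          rw [eig2_comm]
          refine eig2_pow act W h1 t a (fun w hw h => ha w ⟨hw, h⟩) k _ (h1 w hw u) ?_
          rw [← eig2_comm]
          exact hk w (h2 w hw)
        rw [map_mul, map_pow] at h5
        exact eq_zero_of_pow_eq_zero ((mul_eq_zero.1 h5).resolve_left hu)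
      · rcases Finset.mem_insert.1 hx with rfl | hx
        · exact hw.2
        · exact h4 x hx w hw.1
  let _ := κ.toAlgebra
  have hfin' : Module.Finite (MvPowerSeries (Fin g) (Ob L)) R := hfin
  have hR : IsNoetherianRing R := IsNoetherianRing.of_finite (MvPowerSeries (Fin g) (Ob L)) R
  obtain ⟨s, hs⟩ := (isNoetherianRing_iff_ideal_fg R).1 hR (RingHom.ker χ)
  obtain ⟨W, -, -, h3, h4⟩ := hI s fun e he => by
    have : e ∈ RingHom.ker χ := by rw [← hs]; exact Ideal.subset_span he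
    exact this
  have hex : ∃ v ∈ W, v ≠ 0 := by
    by_contra hc
    push Not at hc
    have := h3 1 fun w hw => by rw [hc w hw, map_zero]
    rw [map_one] at this
    exact one_ne_zero this
  obtain ⟨v, hv, hv0⟩ := hex
  refine ⟨v, hv0, fun r hr0 => ?_⟩
  have hr : r ∈ Ideal.span (s : Set R) := by
    rw [hs]; exact hr0
  clear hr0
  induction hr using Submodule.span_induction with
  | mem x hx => exact h4 x hx v hv
  | zero => simp
  | add x y _ _ hx hy => rw [map_add, LinearMap.add_apply, hx, hy, add_zero]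
  | smul a x _ hx =>
    rw [smul_eq_mul, map_mul, Module.End.mul_apply, hx, map_zero]

end

/-! Step D3. -/

section

open Pool.Agent.P.MP_7cb106_nt.GK MvPowerSeries Filter Topology

theorem d3_noeth {L : Type} [NormedField L] [IsUltrametricDist L] {ϖ : L} (h0 : 0 < ‖ϖ‖)
    (h1 : ‖ϖ‖ < 1) (h : ∀ c : L, c ≠ 0 → ‖c‖ ≤ 1 → ∃ k : ℕ, ‖c‖ = ‖ϖ‖ ^ k) :
    IsNoetherianRing (Ob L) := by
  classical
  haveI : IsPrincipalIdealRing (Ob L) := ⟨fun I => ?_⟩
  · infer_instance
  by_cases hI : ∃ k : ℕ, ∃ c ∈ I, ‖(c : L)‖ = ‖ϖ‖ ^ k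
  · obtain ⟨c, hc, hck⟩ := Nat.find_spec hI
    have hc0 : (c : L) ≠ 0 := norm_pos_iff.1 (hck ▸ pow_pos h0 _)
    refine ⟨c, le_antisymm (fun d hd => ?_) ((Submodule.span_singleton_le_iff_mem _ _).2 hc)⟩
    have hle : ‖(d : L)‖ ≤ ‖(c : L)‖ := by
      by_cases hd0 : (d : L) = 0
      · simp [hd0]
      · obtain ⟨k, hk⟩ := h d hd0 d.2
        rw [hk, hck]
        exact pow_le_pow_of_le_one h0.le h1.le (Nat.find_min' hI ⟨d, hd, hk⟩)
    refine Submodule.mem_span_singleton.2 ⟨⟨d / c, ?_⟩, Subtype.ext ?_⟩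
    · rw [mem_Ob, norm_div]
      exact div_le_one_of_le₀ hle (norm_nonneg _)
    · exact div_mul_cancel₀ _ hc0
  · refine ⟨0, le_antisymm (fun d hd => ?_) (by simp)⟩
    by_cases hd0 : (d : L) = 0
    · rw [show d = 0 from Subtype.ext hd0]
      exact Submodule.zero_mem _
    · obtain ⟨k, hk⟩ := h d hd0 d.2
      exact absurd ⟨k, d, hd, hk⟩ hI

theorem p_D3 (hDIV : S_DIV) (hFORM : S_FORM) (hDENS : S_DENS) (hARD2 : S_ARD2) (hEIG2 : S_EIG2) :
    S_D3 := by
  intro L B _ _ _ _ _ _ ϖ g R _ κ act hκ hU hval hact hC hco hnil hev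
  haveI hN : IsNoetherianRing (Ob L) := d3_noeth hU.pos hU.lt hval
  let Φ : Set (R →+ MvPowerSeries (Fin g) (Ob L)) := {φ | (∀ a r, φ (κ a * r) = a * φ r) ∧
    (∀ r, act r = 0 → φ r = 0) ∧
    ∀ a : R, (∀ w, (∀ j, act (κ (X j)) w = 0) → act a w = 0) →
      ∀ (n : ℕ) (r : R) (β : Fin g →₀ ℕ), β.degree < n → coeff β (φ (a ^ n * r)) = 0}
  have key : ∀ r, (∀ φ ∈ Φ, φ r = 0) → act r = 0 := fun r hr => by
    refine hDENS L B ϖ g (fun j => act (κ (X j))) hU (fun j v => hact _ v)
      (fun i j => (Commute.all _ _).map act) hco hnil (act r) (hact r) fun v hv β => ?_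
    by_contra h0
    obtain ⟨ℓ, hℓ, hℓ0⟩ := hev _ h0
    obtain ⟨φ, h1, h2, h3⟩ := hFORM L B g R κ act ℓ v hact hC hℓ hv.le hv.step hv.zero
    have h4 : φ ∈ Φ := ⟨h1, fun s hs => MvPowerSeries.ext fun γ => Subtype.ext (by
      rw [h2, hs]; simp), h3⟩
    refine hℓ0 ?_
    rw [← h2, hr φ h4]
    simp
  refine ⟨fun a r ha h => key r fun φ hφ => ?_, fun E _ χ h1 h2 h3 => ?_⟩
  · have h1 := hφ.2.1 _ h
    rw [hφ.1] at h1
    exact (mul_eq_zero.1 h1).resolve_left ha
  · refine hEIG2 L B E g R κ act χ hN hκ hC h1 fun a ha => ?_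
    obtain ⟨n, b, hb, hn⟩ := hARD2.1 _ R κ
      (Ideal.span (Set.range (X : Fin g → MvPowerSeries (Fin g) (Ob L)))) Φ hκ
      (fun φ hφ => hφ.1) a fun φ hφ n => (hDIV (Ob L) g).2 n _ fun β hβ => by
        simpa using hφ.2.2 a ha n 1 β hβ
    have h7 : (Ideal.span (Set.range (X : Fin g → MvPowerSeries (Fin g) (Ob L)))).map κ ≤
        RingHom.ker χ := by
      rw [Ideal.map_le_iff_le_comap, Ideal.span_le]
      rintro _ ⟨j, rfl⟩
      exact h2 j
    have h8 := h3 _ (key _ hn)
    rw [map_sub, RingHom.mem_ker.1 (h7 hb), sub_zero, map_pow] at h8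
    by_contra h0
    exact pow_ne_zero n h0 h8

end

end Pool.Agent.P.MP_7cb106_nt.PG
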