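import Pool.Agent.P.MP_7cb106_nt.PG.BaseP

/-! The variables act nilpotently. -/

set_option autoImplicit false

namespace Pool.Agent.P.MP_7cb106_nt.PG

open Pool.Agent.P.MP_7cb106_nt.GK MvPowerSeries Filter Topology

/-- Hint: a nonzero polynomial `T ^ k q`, `q 0 ≠ 0`, in `ψ (X j)` kills `v`; a lift of `q`
evaluated at `X j` is a unit. -/
-- deps:
def S_XNIL : Prop := ∀ (O F V : Type) [CommRing O] [Field F] [AddCommGroup V] [Module F V]
  (res : O →+* F) (g : ℕ) (ψ : MvPowerSeries (Fin g) O →+* Module.End F V),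
  Function.Surjective res → (∀ c, res c ≠ 0 → IsUnit c) → (∀ c v, ψ (C c) v = res c • v) →
  ∀ (W : Submodule F V), Module.Finite F W → ∀ j, (∀ v ∈ W, ψ (X j) v ∈ W) →
    ∀ v ∈ W, ∃ a, (ψ (X j) ^ a) v = 0

/-- locally nilpotent reduction gives topological nilpotency -/
-- deps:
def S_TN : Prop := ∀ (L B : Type) [NormedField L] [NormedAddCommGroup B] [NormedSpace L B]
  (ϖ : L) (x : Module.End L B), Unif ϖ B → (∀ v, ‖x v‖ ≤ ‖v‖) →
  (∀ v, ‖v‖ ≤ 1 → ∃ a, ‖(x ^ a) v‖ < 1) → ∀ v, Tendsto (fun k : ℕ => (x ^ k) v) atTop (𝓝 0)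

end Pool.Agent.P.MP_7cb106_nt.PG
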