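import Pool.Agent.P.MP_7cb106_nt.PG.IfaceV
import Pool.Agent.P.MP_7cb106_nt.PG.IfaceW

/-! The reduction of a free module and its growth. -/

set_option autoImplicit false

namespace Pool.Agent.P.MP_7cb106_nt.PG

/-! Step APX. -/

section

open Pool.Agent.P.MP_7cb106_nt.GK

theorem p_APX (hKILL : S_KILL) :
    S_APX := by
  intro L B ι F V _ _ _ _ _ _ _ _ _ R ϖ b μ N Fil hϖ fs
  obtain ⟨k1, -, k3, -⟩ := hKILL L B ι F V R ϖ b μ N Fil hϖ fs
  have hm : ∀ α v, ‖mono b α v‖ ≤ ‖v‖ := fun α => fs.norm (fs.mono_mem α)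
  have hc : ∀ (c : Ob L) (v : B), ‖(c : L) • v‖ ≤ ‖v‖ := fun c v => by
    rw [norm_smul]
    exact mul_le_of_le_one_left (norm_nonneg _) c.2
  have hs : ∀ s ∈ Submodule.span (Ob L) {a : Module.End L B | ∃ (k : ℕ) (α : ι →₀ ℕ),
      0 ≤ k * N + wt μ α ∧ a = ϖ ^ k • mono b α}, (∀ v, ‖s v‖ ≤ ‖v‖) ∧
      ∃ P : MvPolynomial ι F, ∀ v, ‖v‖ ≤ 1 →
        R.red (s v) = ev F (fun i => R.bar (b i)) P (R.red v) := by
    intro s hs
    induction hs using Submodule.span_induction with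
    | mem a ha =>
      obtain ⟨k, α, -, rfl⟩ := ha
      have hk : ϖ ^ k ∈ Ob L := by
        rw [mem_Ob, norm_pow]
        exact pow_le_one₀ (norm_nonneg _) hϖ.le
      refine ⟨fun v => (hc ⟨_, hk⟩ _).trans (hm α v),
        MvPolynomial.monomial α (R.res ⟨_, hk⟩), fun v hv => ?_⟩
      rw [ev_monomial, LinearMap.smul_apply, LinearMap.smul_apply, k1 α v hv]
      exact R.red_smul ⟨_, hk⟩ _ ((hm α v).trans hv)
    | zero => exact ⟨fun v => by simp, 0, fun v _ => by simp [red_zero' R]⟩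
    | add a a' _ _ h h' =>
      obtain ⟨h1, P, hP⟩ := h
      obtain ⟨h2, Q, hQ⟩ := h'
      refine ⟨con_add h1 h2, P + Q, fun v hv => ?_⟩
      rw [LinearMap.add_apply, R.red_add _ _ ((h1 v).trans hv) ((h2 v).trans hv), hP v hv,
        hQ v hv, map_add, LinearMap.add_apply]
    | smul c a _ h =>
      obtain ⟨h1, P, hP⟩ := h
      refine ⟨fun v => (hc c _).trans (h1 v), R.res c • P, fun v hv => ?_⟩
      rw [map_smul, LinearMap.smul_apply, LinearMap.smul_apply, ← hP v hv]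
      exact R.red_smul c _ ((h1 v).trans hv)
  have h1 : ∀ a ∈ Fil 0, Apx (fun i => R.bar (b i)) μ (R.bar a) := by
    intro a ha T
    obtain ⟨s, hs1, r, hr, rfl⟩ := Submodule.mem_sup.1 (fs.span_mono 0 T ha)
    obtain ⟨h2, P, hP⟩ := hs s hs1
    refine ⟨P, fun u hu => ?_⟩
    obtain ⟨v, hv, rfl⟩ := R.red_surj u
    have h3 := (fs.norm hr v).trans hv
    rw [R.bar_red _ (fs.norm ha) v hv, LinearMap.add_apply, R.red_add _ _ ((h2 v).trans hv) h3,
      (R.red_zero _ h3).2 (k3 T r hr v hv hu), add_zero, hP v hv]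
  have h2 : ∀ α, mono (fun i => R.bar (b i)) α = R.bar (mono b α) := fun α => by
    ext u
    obtain ⟨v, hv, rfl⟩ := R.red_surj u
    rw [k1 α v hv, R.bar_red _ (hm α) v hv]
  refine ⟨h1, fun α α' => ?_, fun u => ?_⟩
  · rw [h2, h2, ← bar_mul R (hm α) (hm α')]
    exact h1 _ (fs.anti (Nat.zero_le _) (fs.mul (fs.mono_mem α) (fs.mono_mem α')))
  · obtain ⟨v, hv, rfl⟩ := R.red_surj u
    obtain ⟨T, hT⟩ := fs.cont v (1 / 2) (by norm_num)
    refine ⟨T, fun α hα => ?_⟩
    rw [k1 α v hv, R.red_zero _ ((hm α v).trans hv)]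
    exact (hT _ (fs.anti hα (fs.mono_mem α))).trans_lt (by norm_num)

end

/-! Step PT. -/

section

open Pool.Agent.P.MP_7cb106_nt.GK

theorem p_PT :
    S_PT := by
  refine ⟨fun L B F V _ _ _ _ _ _ _ _ R ℓ hℓ => ?_, fun L B X _ _ ϖ fn h1 h2 h3 v hv => ?_⟩
  · choose s hs1 hs2 using R.red_surj
    let o : ∀ v : B, ‖v‖ ≤ 1 → Ob L := fun v hv => ⟨ℓ v, mem_Ob.2 ((hℓ v).trans hv)⟩
    let f : V → F := fun u => R.res (o (s u) (hs1 u))
    have key : ∀ (v : B) (c : Ob L), ‖v‖ ≤ 1 → (c : L) = ℓ v → f (R.red v) = R.res c := by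
      intro v c hv hc
      have h1 := (red_eq R (hs1 (R.red v)) hv).1 (hs2 _)
      rw [← sub_eq_zero, ← map_sub, R.res_zero]
      change ‖ℓ (s (R.red v)) - (c : L)‖ < 1
      rw [hc, ← map_sub]
      exact (hℓ _).trans_lt h1
    refine ⟨⟨⟨f, fun u u' => ?_⟩, fun a u => ?_⟩, key⟩
    · have h1 : u + u' = R.red (s u + s u') := by rw [R.red_add _ _ (hs1 u) (hs1 u'), hs2, hs2]
      rw [h1, key _ (o (s u) (hs1 u) + o (s u') (hs1 u'))
        ((IsUltrametricDist.norm_add_le_max _ _).trans (max_le (hs1 u) (hs1 u')))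
        (map_add ℓ _ _).symm, map_add]
    · obtain ⟨c, rfl⟩ := R.res_surj a
      have h1 : R.res c • u = R.red ((c : L) • s u) := by rw [R.red_smul c _ (hs1 u), hs2]
      have h2 : ‖(c : L) • s u‖ ≤ 1 := by
        rw [norm_smul]
        exact mul_le_one₀ (Ob.norm_le c) (norm_nonneg _) (hs1 u)
      change f (R.res c • u) = R.res c * f u
      rw [h1, key _ (c * o (s u) (hs1 u)) h2 (map_smul ℓ _ _).symm, map_mul]
  · have h0 : 0 < ‖v‖ := norm_pos_iff.2 hv
    have hle := (h3 v ‖v‖ h0.le).1 le_rfl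
    have h4 : ¬ ∀ ξ, ‖fn v ξ‖ ≤ ‖ϖ‖ * ‖v‖ := fun h =>
      ((h3 v _ (by positivity)).2 h).not_gt (mul_lt_of_lt_one_left h0 h1)
    obtain ⟨ξ, hξ⟩ := not_forall.1 h4
    refine ⟨ξ, le_antisymm ((h3 v _ (norm_nonneg _)).2 fun ξ' => not_lt.1 fun h => hξ ?_) (hle ξ)⟩
    have h5 : 0 < ‖fn v ξ'‖ := (norm_nonneg _).trans_lt h
    have h6 := h2 (fn v ξ / fn v ξ') (by rw [norm_div]; exact (div_lt_one h5).2 h)
    rw [norm_div, div_le_iff₀ h5] at h6
    exact h6.trans (mul_le_mul_of_nonneg_left (hle ξ') (norm_nonneg _))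

end

/-! Step DB. -/

section

open Pool.Agent.P.MP_7cb106_nt.GK

theorem db_list {ι F V : Type} [Field F] [AddCommGroup V] [Module F V]
    (β : ι → Module.End F V) (W : Submodule F V) (q : ℕ) (h1 : ∀ i, ∀ v ∈ W, β i v ∈ W)
    (h2 : ∀ i, ∀ v ∈ W, (β i ^ q) v = 0) (α : ι →₀ ℕ) (l : List ι) (v : V) (hv : v ∈ W) :
    (l.map fun i => β i ^ α i).prod v ∈ W ∧
      ∀ i ∈ l, q ≤ α i → (l.map fun i => β i ^ α i).prod v = 0 := by
  have hp : ∀ i (n : ℕ), ∀ v ∈ W, (β i ^ n) v ∈ W := by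
    intro i n
    induction n with
    | zero => exact fun _ h => h
    | succ n ih =>
      intro v hv
      rw [pow_succ, Module.End.mul_apply]
      exact ih _ (h1 i v hv)
  induction l with
  | nil => exact ⟨hv, fun i hi => absurd hi List.not_mem_nil⟩
  | cons a l ih =>
    rw [List.map_cons, List.prod_cons, Module.End.mul_apply]
    refine ⟨hp _ _ _ ih.1, fun i hi hq => ?_⟩
    rcases List.mem_cons.1 hi with rfl | hi
    · obtain ⟨c, hc⟩ := Nat.exists_eq_add_of_le' hq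
      rw [hc, pow_add, Module.End.mul_apply, h2 i _ ih.1, map_zero]
    · rw [ih.2 i hi hq, map_zero]

theorem p_DB :
    S_DB := by
  classical
  intro ι F V X _ _ _ _ β μ m lam e hm hg hex hcl he hlam hcnt
  have hsep : ∀ v, (∀ k α, lam k (mono β α v) = 0) → v = 0 := fun v hv => he v fun ξ => by
    obtain ⟨k, a, ha, h1⟩ := hlam ξ
    obtain ⟨T, hT⟩ := hex v
    obtain ⟨P, hP⟩ := ha T
    rw [h1, hP v hT, ev_eq_sum, LinearMap.sum_apply, map_sum]
    exact Finset.sum_eq_zero fun α _ => by rw [LinearMap.smul_apply, map_smul, hv, smul_zero]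
  have hf : ∀ (k : Fin m) (γ : ι →₀ ℕ), ∃ v, lam k (mono β γ v) = 1 ∧
      ∀ k' α, (k' ≠ k ∨ α ≠ γ) → lam k' (mono β α v) = 0 := by
    intro k γ
    obtain ⟨q, W, J, _, w, hq, h1, h2, h3, h4, h5⟩ := hcnt (wt μ γ)
    have hout : ∀ (α : ι →₀ ℕ), ∀ v ∈ W, (¬ ∀ i, α i < q) → mono β α v = 0 := by
      intro α v hv hα
      obtain ⟨i, hi⟩ := not_forall.1 hα
      exact (db_list β W q h1 h2 α _ v hv).2 i (Finset.mem_toList.2 (Finset.mem_univ i))
        (not_lt.1 hi)
    let bx : (ι → Fin q) → (ι →₀ ℕ) := fun c => Finsupp.equivFunOnFinite.symm fun i => (c i : ℕ)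
    have hbx : ∀ (α : ι →₀ ℕ) (h : ∀ i, α i < q), bx (fun i => ⟨α i, h i⟩) = α :=
      fun α h => Finsupp.ext fun i => rfl
    let Φ : W →ₗ[F] (Fin m × (ι → Fin q) → F) :=
      LinearMap.pi fun c => lam c.1 ∘ₗ mono β (bx c.2) ∘ₗ W.subtype
    have hΦ : ∀ v c, Φ v c = lam c.1 (mono β (bx c.2) v) := fun _ _ => rfl
    have hinj : Function.Injective Φ := (injective_iff_map_eq_zero _).2 fun v hv =>
      Subtype.ext (hsep _ fun k α => by
        by_cases hα : ∀ i, α i < q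
        · rw [← hbx α hα]
          exact congrFun hv (k, fun i => ⟨α i, hα i⟩)
        · rw [hout α _ v.2 hα, map_zero])
    have hfin : Module.Finite F W := Module.Finite.of_injective Φ hinj
    have h6 : LinearIndependent F fun j => (⟨w j, h3 j⟩ : W) :=
      LinearIndependent.of_comp W.subtype h4
    have h7 : Module.finrank F (Fin m × (ι → Fin q) → F) = m * q ^ Fintype.card ι := by simp
    have hsurj := (LinearMap.injective_iff_surjective_of_finrank_eq_finrank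
      (le_antisymm (LinearMap.finrank_le_finrank_of_injective hinj)
        (h7 ▸ h5.trans h6.fintype_card_le_finrank))).1 hinj
    have hγ : ∀ i, γ i < q := fun i => (Finsupp.le_weight μ (hg.pos i).ne' γ).trans_lt hq
    obtain ⟨v, hv⟩ := hsurj (Pi.single (k, fun i => ⟨γ i, hγ i⟩) 1)
    refine ⟨v, ?_, fun k' α h => ?_⟩
    · have h8 := hΦ v (k, fun i => ⟨γ i, hγ i⟩)
      rw [hv, Pi.single_eq_same, hbx γ hγ] at h8
      exact h8.symm
    · by_cases hα : ∀ i, α i < q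
      · have h8 := hΦ v (k', fun i => ⟨α i, hα i⟩)
        rw [hv, Pi.single_eq_of_ne, hbx α hα] at h8
        · exact h8.symm
        · intro h9
          rw [Prod.mk.injEq] at h9
          rcases h with h | h
          · exact h h9.1
          · exact h (by rw [← hbx α hα, h9.2, hbx γ hγ])
      · rw [hout α _ v.2 hα, map_zero]
  choose f hf1 hf0 using hf
  refine ⟨f, hg, hex, hcl, hm, hf1, fun k k' α γ h => hf0 k γ k' α h, hsep, fun k γ => ?_⟩
  have key : ∀ t, f k γ ∈ Vs β μ (wt μ γ + 1 + t) → f k γ ∈ Vs β μ (wt μ γ + 1) := by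
    intro t
    induction t with
    | zero => exact id
    | succ t ih =>
      intro hv
      refine ih fun α hα => ?_
      refine hsep _ fun k' α' => ?_
      by_cases h0 : α' = 0
      · rw [h0, mono_zero, Module.End.one_apply]
        refine hf0 k γ k' α (Or.inr ?_)
        rintro rfl
        omega
      · obtain ⟨i, hi⟩ := Finsupp.ne_iff.1 h0
        have h1 : α' i ≤ wt μ α' := Finsupp.le_weight μ (hg.pos i).ne' α'
        have h2 : α' i ≠ 0 := hi
        rw [hg.zero α' α _ _ hv (by omega), map_zero]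
  obtain ⟨T, hT⟩ := hex (f k γ)
  exact key T (Vs_mono β μ (Nat.le_add_left _ _) hT)

end

/-! Step CNT. -/

section

open Pool.Agent.P.MP_7cb106_nt.GK

theorem cnt_dvd (p : ℕ) [Fact p.Prime] {r : ℝ} {e j J l : ℕ} (h0 : 0 < r) (h1 : r < 1)
    (hp : r ^ e = (p : ℝ)⁻¹) (hj : j < e) (k : ℤ)
    (h : ‖(k : ℚ_[p])‖ * r ^ (J + j) ≤ r ^ (J + e * l)) : (p ^ l : ℤ) ∣ k := by
  rw [← Padic.norm_int_le_pow_iff_dvd, Padic.norm_le_pow_iff_norm_lt_pow_add_one]
  have hp0 : (0 : ℝ) < p := by exact_mod_cast (Fact.out : p.Prime).pos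
  have h2 : ‖(k : ℚ_[p])‖ * r ^ j ≤ r ^ (e * l) := by
    refine le_of_mul_le_mul_left ?_ (pow_pos h0 J)
    rw [← pow_add, mul_left_comm, ← pow_add]
    exact h
  have h3 : r ^ e < r ^ j := pow_lt_pow_right_of_lt_one₀ h0 h1 hj
  have h4 : (p : ℝ) ^ (-(l : ℤ) + 1) * r ^ e = r ^ (e * l) := by
    rw [pow_mul, hp, zpow_add_one₀ hp0.ne', mul_assoc, mul_inv_cancel₀ hp0.ne', mul_one,
      zpow_neg, zpow_natCast, inv_pow]
  refine lt_of_mul_lt_mul_right (h2.trans_lt ?_) (pow_pos h0 j).le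
  rw [← h4]
  exact mul_lt_mul_of_pos_left h3 (zpow_pos hp0 _)

theorem p_CNT (hGM : S_GM) (hOB1 : S_OB1) :
    S_CNT := by
  intro p _ K L _ _ _ _ _ σ ϖ n e f₀ a J₀ u τ U Γ hK hJ hU hΓ l
  have h0 := hK.u_pos
  have h1 := hK.u_lt
  have hc1 : ‖σ u‖ ^ J₀ < 1 := pow_lt_one₀ h0.le h1 (by omega)
  let y : Fin e × Fin f₀ → K := fun i => u ^ (J₀ + i.1.val) * τ i.2
  let X : (Fin n × Fin n × Fin e × Fin f₀ → Fin (p ^ l)) → Mat n K := fun c =>
    Matrix.of fun s t => ∑ i, ((c (s, t, i) : ℕ) : ℚ_[p]) • y i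
  have hXa : ∀ c s t, X c s t = ∑ i, ((c (s, t, i) : ℕ) : ℚ_[p]) • y i := fun _ _ _ => rfl
  have hX : ∀ c, Sm σ (‖σ u‖ ^ J₀) (X c) := fun c s t => by
    rw [hXa, map_sum]
    refine IsUltrametricDist.norm_sum_le_of_forall_le_of_nonneg (pow_nonneg h0.le _) fun i _ => ?_
    rw [map_smul, norm_smul, map_mul, map_pow, norm_mul, norm_pow]
    refine (mul_le_of_le_one_left (by positivity) (IsUltrametricDist.norm_natCast_le_one _ _)).trans
      ((mul_le_of_le_one_right (by positivity) (hK.tau_le _)).trans ?_)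
    exact pow_le_pow_of_le_one h0.le h1.le (Nat.le_add_right _ _)
  choose x hx using fun c => (hGM p K L σ n _ (pow_nonneg h0.le J₀) hc1).1 (X c) (hX c)
  have hx' : ∀ c, Sm σ (‖σ u‖ ^ J₀) ((x c).val - 1) := fun c => by
    rw [hx, add_sub_cancel_left]
    exact hX c
  refine ⟨fun c => ⟨x c, hU _ (hx' c)⟩, fun c c' h => ?_⟩
  rw [hΓ] at h
  have h2 : Sm σ 1 (x c).val := by
    rw [hx]
    exact (sm_one σ).add ((hX c).mono hc1.le)
  have h3 := h2.mul h zero_le_one (pow_nonneg h0.le _)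
  have h4 : (x c).val * ((((⟨x c, hU _ (hx' c)⟩ : U)⁻¹ * ⟨x c', hU _ (hx' c')⟩ : U) :
      GL (Fin n) K).val - 1) = X c' - X c := by
    rw [Subgroup.coe_mul, Subgroup.coe_inv, mul_sub, mul_one, ← Units.val_mul, mul_inv_cancel_left,
      hx, hx, add_sub_add_left_eq_sub]
  rw [h4, one_mul] at h3
  funext ⟨s, t, i⟩
  have h5 := hOB1 p K L σ ϖ e f₀ a J₀ u τ y hK (fun i => by
    rw [sub_self, map_zero, norm_zero]
    positivity) (fun i => ((((c' (s, t, i) : ℕ) : ℤ) - ((c (s, t, i) : ℕ) : ℤ) : ℤ) : ℚ_[p])) i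
  have h6 : ∑ i', ((((c' (s, t, i') : ℕ) : ℤ) - ((c (s, t, i') : ℕ) : ℤ) : ℤ) : ℚ_[p]) • y i' =
      (X c' - X c) s t := by
    rw [Matrix.sub_apply, hXa, hXa, ← Finset.sum_sub_distrib]
    refine Finset.sum_congr rfl fun i' _ => ?_
    rw [← sub_smul]
    push_cast
    rfl
  rw [h6] at h5
  have h7 := cnt_dvd p h0 h1 hK.norm_p i.1.2 _ (h5.trans (h3 s t))
  have h8 : (c (s, t, i) : ℕ) ≡ (c' (s, t, i) : ℕ) [MOD p ^ l] :=
    (Nat.modEq_iff_dvd).2 (by exact_mod_cast h7)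
  exact Fin.ext (h8.eq_of_lt_of_lt (c _).2 (c' _).2)

end

/-! Step WL. -/

section

open Pool.Agent.P.MP_7cb106_nt.GK

section
variable {L B F V : Type} [NormedField L] [IsUltrametricDist L] [NormedAddCommGroup B]
  [NormedSpace L B] [IsUltrametricDist B] [Field F] [AddCommGroup V] [Module F V]

theorem wl_sub (R : Red L B F V) {a : Module.End L B} (ha : ∀ v, ‖a v‖ ≤ ‖v‖) :
    R.bar (a - 1) = R.bar a - 1 := by
  have hc : ∀ v, ‖(a - 1) v‖ ≤ ‖v‖ := fun v => by
    rw [LinearMap.sub_apply, Module.End.one_apply, sub_eq_add_neg]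
    exact (IsUltrametricDist.norm_add_le_max _ _).trans (max_le (ha v) (norm_neg v).le)
  rw [eq_sub_iff_add_eq, ← bar_one R, ← bar_add R hc fun _ => le_rfl, sub_add_cancel]

theorem wl_comm (R : Red L B F V) {a b : Module.End L B} (ha : ∀ v, ‖a v‖ ≤ ‖v‖)
    (hb : ∀ v, ‖b v‖ ≤ ‖v‖) (h : Commute a b) : Commute (R.bar a) (R.bar b) := by
  change R.bar a * R.bar b = R.bar b * R.bar a
  rw [← bar_mul R ha hb, ← bar_mul R hb ha, h.eq]

omit [IsUltrametricDist B] in
theorem wl_red (R : Red L B F V) {a : Module.End L B} (ha : ∀ v, ‖a v‖ ≤ ‖v‖) (n : ℕ) (v : B)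
    (hv : ‖v‖ ≤ 1) : (R.bar a ^ n) (R.red v) = R.red ((a ^ n) v) := by
  induction n generalizing v with
  | zero => rfl
  | succ n ih =>
    rw [pow_succ, pow_succ, Module.End.mul_apply, Module.End.mul_apply, R.bar_red a ha v hv,
      ih _ ((ha v).trans hv)]

end

theorem wl_pow {p e : ℕ} {G ι : Type} [Group G] {Γ : ℕ → Subgroup G} {γ : ι → G} {lev : ι → ℕ}
    (hG : GD p e Γ γ lev) {h : G} (hh : h ∈ Γ 0) (l : ℕ) : h ^ p ^ l ∈ Γ (e * l) := by
  induction l with
  | zero => simpa using hh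
  | succ l ih =>
    rw [pow_succ, pow_mul, Nat.mul_succ]
    exact hG.pow _ _ ih

theorem p_WL :
    S_WL := by
  intro p e _ L B G ι F V _ _ _ _ _ _ _ _ _ _ R g Γ γ lev ρ x hG hR l
  have hρ : ∀ h v, ‖ρ h v‖ ≤ ‖v‖ := fun h v => (hR.iso h v).le
  let P : G →* Module.End F V :=
    { toFun := fun h => R.bar (ρ h)
      map_one' := by rw [map_one, bar_one]
      map_mul' := fun a b => by rw [map_mul, bar_mul R (hρ a) (hρ b)] }
  have hP : ∀ h, P h = R.bar (ρ h) := fun _ => rfl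
  have hl : ∀ i, R.bar (bG ρ γ x (Sum.inl i)) = P (γ i) - 1 := fun i => wl_sub R (hρ _)
  have hr : ∀ j, R.bar (bG ρ γ x (Sum.inr j)) = R.bar (x j) := fun _ => rfl
  have hc : ∀ j h, Commute (R.bar (x j) ^ p ^ l) (P h) := fun j h =>
    (wl_comm R (hR.x_le j) (hρ h) (hR.x_rho j h)).pow_left _
  have h0 : ∀ i, γ i ∈ Γ 0 := fun i => hG.anti (Nat.zero_le _) (hG.mem i)
  let W : Submodule F V :=
    { carrier := {u | (∀ j, (R.bar (x j) ^ p ^ l) u = 0) ∧ ∀ h ∈ Γ (e * l), P h u = u}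
      add_mem' := fun {a b} ha hb => ⟨fun j => by rw [map_add, ha.1 j, hb.1 j, add_zero],
        fun h hh => by rw [map_add, ha.2 h hh, hb.2 h hh]⟩
      zero_mem' := ⟨fun _ => map_zero _, fun _ _ => map_zero _⟩
      smul_mem' := fun c u hu => ⟨fun j => by rw [map_smul, hu.1 j, smul_zero],
        fun h hh => by rw [map_smul, hu.2 h hh]⟩ }
  have hW : ∀ u, u ∈ W ↔ (∀ j, (R.bar (x j) ^ p ^ l) u = 0) ∧ ∀ h ∈ Γ (e * l), P h u = u :=
    fun _ => Iff.rfl
  refine ⟨W, fun i u hu => ?_, fun i u hu => ?_, fun v hv hf hx => (hW _).2 ⟨fun j => ?_,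
    fun h hh => ?_⟩⟩
  · obtain ⟨h1, h2⟩ := (hW u).1 hu
    rcases i with i | i
    · rw [hl, LinearMap.sub_apply, Module.End.one_apply]
      refine W.sub_mem ((hW _).2 ⟨fun j => ?_, fun h hh => ?_⟩) hu
      · rw [← Module.End.mul_apply, (hc j _).eq, Module.End.mul_apply, h1 j, map_zero]
      · have h3 := h2 _ (hG.conj _ h hh _ (inv_mem (h0 i)))
        have e1 : h * γ i = γ i * ((γ i)⁻¹ * h * (γ i)⁻¹⁻¹) := by group
        rw [← Module.End.mul_apply, ← map_mul, e1, map_mul, Module.End.mul_apply, h3]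
    · rw [hr]
      refine (hW _).2 ⟨fun j => ?_, fun h hh => ?_⟩
      · rw [← Module.End.mul_apply,
          ((wl_comm R (hR.x_le j) (hR.x_le i) (hR.x_x j i)).pow_left _).eq, Module.End.mul_apply,
          h1 j, map_zero]
      · rw [← Module.End.mul_apply, hP, ← (wl_comm R (hR.x_le i) (hρ h) (hR.x_rho i h)).eq,
          Module.End.mul_apply, ← hP, h2 h hh]
  · obtain ⟨h1, h2⟩ := (hW u).1 hu
    rcases i with i | i
    · rcases subsingleton_or_nontrivial V with hV | hV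
      · exact Subsingleton.elim _ _
      have : CharP (Module.End F V) p :=
        charP_of_injective_algebraMap (algebraMap F (Module.End F V)).injective p
      rw [hl, sub_pow_char_pow_of_commute p l (Commute.one_right _), one_pow, ← map_pow,
        LinearMap.sub_apply, Module.End.one_apply, h2 _ (wl_pow hG (h0 i) l), sub_self]
    · exact h1 i
  · rw [wl_red R (hR.x_le j) _ v hv, hx j, red_zero']
  · rw [hP, R.bar_red _ (hρ h) v hv, hf h hh]

end

/-! Step COF. -/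

section

open Pool.Agent.P.MP_7cb106_nt.GK

theorem cof_xp {L B G : Type} [NormedField L] [NormedAddCommGroup B] [NormedSpace L B] {h m : ℕ}
    (y : Fin h → Module.End L B) (fn : B →ₗ[L] (Fin m × (Fin h → ℕ) × G → L))
    (hy : ∀ i v k β x, fn (y i v) (k, β, x) = fn v (k, β + Pi.single i 1, x)) :
    (∀ i (n : ℕ) v k β x, fn ((y i ^ n) v) (k, β, x) = fn v (k, β + Pi.single i n, x)) ∧
    ∀ β v k x, fn (xp y β v) (k, 0, x) = fn v (k, β, x) := by
  have h1 : ∀ i (n : ℕ) v k β x, fn ((y i ^ n) v) (k, β, x) = fn v (k, β + Pi.single i n, x) := by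
    intro i n
    induction n with
    | zero => intro v k β x; simp
    | succ n ih =>
      intro v k β x
      rw [pow_succ, Module.End.mul_apply, ih, hy, add_assoc, ← Pi.single_add]
  refine ⟨h1, fun β v k x => ?_⟩
  have h2 : ∀ (l : List (Fin h)) v β', fn ((l.map fun j => y j ^ β j).prod v) (k, β', x) =
      fn v (k, β' + (l.map fun j => (Pi.single j (β j) : Fin h → ℕ)).sum, x) := by
    intro l
    induction l with
    | nil => intro v β'; simp
    | cons a l ih =>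
      intro v β'
      rw [List.map_cons, List.prod_cons, Module.End.mul_apply, h1, ih, List.map_cons,
        List.sum_cons, add_assoc]
  rw [xp, List.ofFn_eq_map, h2, ← List.ofFn_eq_map, List.sum_ofFn, Finset.univ_sum_single,
    zero_add]

theorem p_COF (hKILL : S_KILL) (hAPX : S_APX) (hPT : S_PT) (hDB : S_DB) (hWL : S_WL) :
    S_COF := by
  intro p e _ L B G ι F V _ _ _ _ _ _ _ _ _ _ _ R h m Γ γ lev ρ y ϖ μ N Fil fn hm hGD hRp hϖ hle
    hFS hρ hn hfρ hfy hex hcnt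
  classical
  obtain ⟨-, -, -, hGood⟩ := hKILL L B _ F V R ϖ _ μ N Fil hϖ hFS
  obtain ⟨hA1, hA2, hA3⟩ := hAPX L B _ F V R ϖ _ μ N Fil hϖ hFS
  obtain ⟨hy1, hy2⟩ := cof_xp y fn hfy
  have hb : ∀ v ξ, ‖fn v ξ‖ ≤ ‖v‖ := fun v => (hn v _ (norm_nonneg v)).1 le_rfl
  have hinj : ∀ v, fn v = 0 → v = 0 := fun v hv =>
    norm_le_zero_iff.1 ((hn v 0 le_rfl).2 fun ξ => by simp [hv])
  choose ee he using fun ξ => hPT.1 L B F V R ((LinearMap.proj ξ) ∘ₗ fn) fun v => hb v ξ
  have he' : ∀ ξ (v : B) (hv : ‖v‖ ≤ 1), ee ξ (R.red v) = R.res ⟨fn v ξ, (hb v ξ).trans hv⟩ :=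
    fun ξ v hv => he ξ v _ hv rfl
  have hxp : ∀ β, xp y β ∈ Fil 0 := by
    intro β
    refine List.prod_induction (fun a => a ∈ Fil 0) (fun a b ha hb => hFS.mul ha hb) hFS.one ?_
    intro a ha
    obtain ⟨j, rfl⟩ := List.mem_ofFn.1 ha
    have h0 : y j ∈ Fil 0 := hFS.anti (Nat.zero_le _) (hFS.gen (Sum.inr j))
    induction β j with
    | zero => simpa using hFS.one
    | succ n ih => rw [pow_succ]; exact hFS.mul ih h0
  refine ⟨fun k => ee (k, 0, 1), hDB _ F V _ _ μ m _ ee hm hGood hA3 hA2 ?_ ?_ ?_⟩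
  · intro u hu
    obtain ⟨v, hv, rfl⟩ := R.red_surj u
    refine (R.red_zero v hv).2 (lt_of_le_of_lt ((hn v _ (norm_nonneg ϖ)).2 fun ξ => hle _ ?_) hϖ)
    have := hu ξ
    rw [he' ξ v hv] at this
    exact (R.res_zero _).1 this
  · rintro ⟨k, β, x⟩
    have ha : xp y β * ρ x ∈ Fil 0 := hFS.mul (hxp β) (hρ x)
    refine ⟨k, _, hA1 _ ha, fun u => ?_⟩
    obtain ⟨v, hv, rfl⟩ := R.red_surj u
    rw [R.bar_red _ (hFS.norm ha) v hv, he' _ v hv, he' _ _ ((hFS.norm ha v).trans hv)]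
    congr 2
    rw [Module.End.mul_apply, hy2, hfρ, one_mul]
  · intro T
    obtain ⟨W, hW1, hW2, hW3⟩ := hWL p e L B G ι F V R h Γ γ lev ρ y hGD hRp T
    obtain ⟨xs, hxs⟩ := hcnt T
    let ψ : Fin m × (Fin h → Fin (p ^ T)) × (ι → Fin (p ^ T)) → Fin m × (Fin h → ℕ) × G → L :=
      fun j ξ => if ξ.1 = j.1 ∧ (ξ.2.1 = fun i => (j.2.1 i : ℕ)) ∧
        (xs j.2.2)⁻¹ * ξ.2.2 ∈ Γ (e * T) then 1 else 0
    have hψ1 : ∀ j k β x i, p ^ T ≤ β i → ψ j (k, β, x) = 0 := fun j k β x i hi =>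
      if_neg fun hc => by
        have h1 : β i = (j.2.1 i : ℕ) := congrFun hc.2.1 i
        have := (j.2.1 i).2
        omega
    have hψ2 : ∀ j k β x, ∀ u ∈ Γ (e * T), ψ j (k, β, x * u) = ψ j (k, β, x) :=
      fun j k β x u hu => by
        simp only [ψ, ← mul_assoc, (Γ (e * T)).mul_mem_cancel_right hu]
    choose v hv using fun j => hex T (p ^ T) (ψ j) (hψ1 j) (hψ2 j)
    have hv1 : ∀ j, ‖v j‖ ≤ 1 := fun j => (hn _ 1 zero_le_one).2 fun ξ => by
      rw [hv]
      simp only [ψ]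
      split_ifs <;> simp
    refine ⟨p ^ T, W, _, inferInstance, fun j => R.red (v j),
      Nat.lt_pow_self (Fact.out : p.Prime).one_lt, hW1, hW2, fun j => hW3 _ (hv1 j) ?_ ?_, ?_, ?_⟩
    · intro u hu
      refine sub_eq_zero.1 (hinj _ ?_)
      ext ⟨k, β, x⟩
      rw [map_sub, Pi.sub_apply, hfρ, hv, hψ2 j k β x u hu, sub_self, Pi.zero_apply]
    · intro i
      refine hinj _ ?_
      ext ⟨k, β, x⟩
      rw [hy1, hv, hψ1 j k _ x i (by simp), Pi.zero_apply]
    · rw [Fintype.linearIndependent_iff]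
      intro c hc j
      have h1 := congrArg (ee (j.1, fun i => (j.2.1 i : ℕ), xs j.2.2)) hc
      rw [map_sum, map_zero, Finset.sum_eq_single j] at h1
      · rw [map_smul, he _ (v j) 1 (hv1 j), map_one, smul_eq_mul, mul_one] at h1
        · exact h1
        · change (1 : L) = fn (v j) _
          rw [hv]
          simp [ψ]
      · intro j' _ hne
        rw [map_smul, he _ (v j') 0 (hv1 j'), map_zero, smul_zero]
        change (0 : L) = fn (v j') _
        rw [hv]
        refine (if_neg fun hc => hne ?_).symm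
        refine Prod.ext hc.1.symm (Prod.ext ?_ (hxs _ _ hc.2.2))
        ext i
        exact (congrFun hc.2.1 i).symm
      · simp
    · simp only [Fintype.card_prod, Fintype.card_fun, Fintype.card_fin, Fintype.card_sum]
      rw [pow_add, mul_comm ((p ^ T) ^ h)]

end

/-! Step DIM. -/

section

open Pool.Agent.P.MP_7cb106_nt.GK

section
variable {F V : Type} [Field F] [AddCommGroup V] [Module F V]

theorem dim_one (z : Module.End F V) (d : ℕ) : ∀ W : Submodule F V, Module.Finite F W →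
    (∀ v ∈ W, z v ∈ W) → (∀ v ∈ W, (z ^ d) v = 0) →
    Module.finrank F W ≤ d * Module.finrank F ↥(W ⊓ LinearMap.ker z) := by
  induction d with
  | zero =>
    intro W _ _ h0
    have : W = ⊥ := (Submodule.eq_bot_iff W).2 fun v hv => by simpa using h0 v hv
    subst this
    simp
  | succ d ih =>
    intro W hW hs h0
    have e1 := LinearMap.finrank_range_add_finrank_ker (z.domRestrict W)
    rw [LinearMap.range_domRestrict] at e1
    have e2 : LinearMap.ker (z.domRestrict W) = (W ⊓ LinearMap.ker z).comap W.subtype := by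
      ext v
      simp
    have e3 := (Submodule.comapSubtypeEquivOfLe
      (inf_le_left : W ⊓ LinearMap.ker z ≤ W)).finrank_eq
    rw [← e2] at e3
    have hle : W.map z ≤ W := by
      rintro _ ⟨v, hv, rfl⟩
      exact hs v hv
    have e4 := ih (W.map z) inferInstance (fun v hv => ⟨v, hle hv, rfl⟩) (by
      rintro _ ⟨v, hv, rfl⟩
      have := h0 v hv
      rwa [pow_succ, Module.End.mul_apply] at this)
    have hf : Module.Finite F ↥(W ⊓ LinearMap.ker z) :=
      Submodule.finiteDimensional_of_le inf_le_left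
    have e5 : Module.finrank F ↥(W.map z ⊓ LinearMap.ker z) ≤
        Module.finrank F ↥(W ⊓ LinearMap.ker z) :=
      Submodule.finrank_mono (inf_le_inf_right _ hle)
    have e6 := Nat.mul_le_mul_left d e5
    rw [Nat.succ_mul]
    omega

theorem dim_all (d s : ℕ) : ∀ z : Fin s → Module.End F V, (∀ i j, Commute (z i) (z j)) →
    ∀ W : Submodule F V, Module.Finite F W → (∀ j, ∀ v ∈ W, z j v ∈ W) →
    (∀ j, ∀ v ∈ W, (z j ^ d) v = 0) →
    Module.finrank F W ≤ d ^ s * Module.finrank F ↥(W ⊓ ⨅ j, LinearMap.ker (z j)) := by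
  induction s with
  | zero =>
    intro z _ W _ _ _
    rw [iInf_of_empty, inf_top_eq, pow_zero, one_mul]
  | succ s ih =>
    intro z hc W hW hs h0
    have e1 := dim_one (z 0) d W hW (hs 0) (h0 0)
    have e2 := ih (fun j => z j.succ) (fun i j => hc _ _) (W ⊓ LinearMap.ker (z 0))
      (Submodule.finiteDimensional_of_le inf_le_left)
      (fun j v hv => ⟨hs _ v hv.1, by
        have h1 : z 0 v = 0 := hv.2
        have h2 := LinearMap.congr_fun (hc 0 j.succ).eq v
        rw [Module.End.mul_apply, Module.End.mul_apply, h1, map_zero] at h2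
        exact h2⟩)
      (fun j v hv => h0 _ v hv.1)
    have e3 : (W ⊓ LinearMap.ker (z 0)) ⊓ ⨅ j : Fin s, LinearMap.ker (z j.succ) =
        W ⊓ ⨅ j, LinearMap.ker (z j) := by
      ext v
      simp [Fin.forall_fin_succ, and_assoc]
    rw [e3] at e2
    calc Module.finrank F W ≤ d * _ := e1
      _ ≤ d * (d ^ s * _) := Nat.mul_le_mul_left d e2
      _ = _ := by rw [← mul_assoc, ← pow_succ']

theorem dim_ker (s : ℕ) : ∀ z : Fin s → Module.End F V, (∀ i j, Commute (z i) (z j)) →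
    (∀ j v, ∃ a, (z j ^ a) v = 0) → ∀ v : V, v ≠ 0 → ∃ u : V, u ≠ 0 ∧ ∀ j, z j u = 0 := by
  classical
  induction s with
  | zero => exact fun z _ _ v hv => ⟨v, hv, fun j => j.elim0⟩
  | succ s ih =>
    intro z hc hn v hv
    obtain ⟨u, hu, hz⟩ := ih (fun j => z j.succ) (fun i j => hc _ _) (fun j => hn _) v hv
    have h1 := Nat.find_spec (hn 0 u)
    obtain ⟨k, hk⟩ : ∃ k, Nat.find (hn 0 u) = k + 1 :=
      Nat.exists_eq_succ_of_ne_zero fun h => hu (by simpa [h] using h1)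
    refine ⟨(z 0 ^ k) u, Nat.find_min (hn 0 u) (by omega), fun j => ?_⟩
    refine Fin.cases ?_ (fun j => ?_) j
    · rwa [hk, pow_succ', Module.End.mul_apply] at h1
    · have h2 := LinearMap.congr_fun ((hc j.succ 0).pow_right k).eq u
      rw [Module.End.mul_apply, Module.End.mul_apply, hz j, map_zero] at h2
      exact h2

end

theorem p_DIM :
    S_DIM := fun _ _ _ _ _ s z hc => ⟨fun d => dim_all d s z hc, dim_ker s z hc⟩

end

/-! Step INTG. -/

section

open Pool.Agent.P.MP_7cb106_nt.GK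

open Polynomial in
theorem intg_kill {F V : Type} [Field F] [AddCommGroup V] [Module F V] (t : Module.End F V)
    (q : F[X]) (hq : ¬ X ∣ q) (u : V) (a : ℕ) (h1 : aeval t q u = 0) (h2 : (t ^ a) u = 0) :
    u = 0 := by
  have hc : IsCoprime ((X : F[X]) ^ a) q :=
    ((irreducible_X.coprime_iff_not_dvd).2 hq).pow_left
  obtain ⟨b, c, e⟩ := hc
  have h3 := congrArg (fun P : F[X] => aeval t P u) e
  simpa [Module.End.mul_apply, h1, h2] using h3.symm

open Polynomial in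
theorem p_INTG (hDIV : S_DIV) :
    S_INTG := by
  intro O F V _ _ _ _ res g R _ κ ψ hκ hC r hr
  obtain ⟨P, hP, hP0⟩ : κ.IsIntegralElem r := hκ.to_isIntegral r
  have hcomm : ∀ (a b : R) (v : V), ψ a (ψ b v) = ψ b (ψ a v) := fun a b v => by
    rw [← Module.End.mul_apply, ← map_mul, mul_comm, map_mul, Module.End.mul_apply]
  have hsc : ∀ (a : MvPowerSeries (Fin g) O) (v : V),
      (∀ j, ψ (κ (MvPowerSeries.X j)) v = 0) →
      ψ (κ a) v = res (MvPowerSeries.constantCoeff a) • v := fun a v hv => by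
    obtain ⟨b, hb⟩ := (hDIV O g).1 a
    conv_lhs => rw [hb]
    rw [map_add, map_add, LinearMap.add_apply, hC, map_sum, map_sum, LinearMap.sum_apply,
      Finset.sum_eq_zero fun j _ => ?_, add_zero]
    rw [map_mul, map_mul, Module.End.mul_apply, hcomm, hv, map_zero]
  set Q : F[X] := P.map (res.comp MvPowerSeries.constantCoeff) with hQ
  have hQm : Q.Monic := hP.map _
  obtain ⟨q, hq, hq'⟩ := exists_eq_pow_rootMultiplicity_mul_and_not_dvd Q hQm.ne_zero 0
  rw [C_0, sub_zero] at hq hq'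
  refine ⟨Q.rootMultiplicity 0, fun v hv d' hd' => ?_⟩
  have h1 : aeval (ψ r) Q v = 0 := by
    have h2 := congrArg (fun s => ψ s v) hP0
    simp only [eval₂_eq_sum_range, map_sum, map_zero, LinearMap.sum_apply,
      LinearMap.zero_apply] at h2
    rw [aeval_eq_sum_range' (n := P.natDegree + 1)
      (Nat.lt_succ_of_le natDegree_map_le), LinearMap.sum_apply, ← h2]
    refine Finset.sum_congr rfl fun i _ => ?_
    rw [map_mul, Module.End.mul_apply, hsc _ _ fun j => by rw [hcomm, hv, map_zero], map_pow,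
      LinearMap.smul_apply, coeff_map, RingHom.comp_apply]
  obtain ⟨a, ha⟩ := hr ((ψ r ^ Q.rootMultiplicity 0) v)
  have h3 : (ψ r ^ Q.rootMultiplicity 0) v = 0 := by
    refine intg_kill (ψ r) q hq' _ a ?_ ha
    rw [← h1]
    conv_rhs => rw [hq, mul_comm, map_mul, map_pow, aeval_X, Module.End.mul_apply]
  obtain ⟨c, rfl⟩ := Nat.exists_eq_add_of_le' hd'
  rw [pow_add, Module.End.mul_apply, h3, map_zero]

end

/-! Step INV. -/

section

open Pool.Agent.P.MP_7cb106_nt.GK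

theorem inv_low {p e N' l : ℕ} {w lam : ℕ → ℕ} (hp : 1 ≤ p) (h : Lam p e N' w lam)
    (hN : p ^ l ≤ N') : ∀ i ≤ l, p ^ i ≤ lam (e * i) := by
  intro i
  induction i with
  | zero => exact fun _ => by simpa using Nat.succ_le_of_lt h.pos
  | succ i ih =>
    intro hi
    have h1 := ih (Nat.le_of_succ_le hi)
    rw [Nat.mul_succ, h.step]
    refine le_min ?_ (((Nat.pow_le_pow_right hp hi).trans hN).trans (Nat.le_add_left _ _))
    rw [pow_succ']
    exact Nat.mul_le_mul_left p h1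

theorem p_INV (hKILL : S_KILL) :
    S_INV := by
  intro p e a L B G ι F V _ _ _ _ _ _ _ _ _ _ R h Γ γ ρ y ϖ μ w hp he ha hϖ _ hF l v hv hs u hu
  have hN : ∀ N, N ≤ e * a * N := fun N => Nat.le_mul_of_pos_left N (Nat.mul_pos he ha)
  obtain ⟨lam, hl, hf⟩ := hF (∑ j ∈ Finset.range e, w j + 1 + p ^ l) fun j hj => by
    refine lt_of_lt_of_le ?_ (hN _)
    have := Finset.single_le_sum (f := w) (fun _ _ => Nat.zero_le _) (Finset.mem_range.2 hj)
    exact Nat.lt_of_lt_of_le (Nat.lt_succ_of_le this) (Nat.le_add_right _ _)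
  have h1 := inv_low hp hl ((Nat.le_add_left _ _).trans (hN _)) l le_rfl
  have h2 := (hKILL L B _ F V R ϖ _ μ _ _ hϖ hf).2.2.1 _ _
    (hf.anti h1 (rho_mem ϖ ρ y lam _ 1 hu)) v hv hs
  simpa using h2

end

/-! Step GRO. -/

section

open Pool.Agent.P.MP_7cb106_nt.GK

theorem gro_commute_mono {ι A : Type} [Fintype ι] [Monoid A] (a : A) (β : ι → A)
    (h : ∀ j, Commute a (β j)) (α : ι →₀ ℕ) : Commute a (mono β α) := by
  refine Commute.list_prod_right _ _ fun b hb => ?_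
  obtain ⟨i, -, rfl⟩ := List.mem_map.1 hb
  exact (h i).pow_right _

theorem p_GRO (hDIM : S_DIM) :
    S_GRO := by
  intro p ι F V _ _ _ _ β μ g s d C e x z hp hfin hzz hzx hzβ hnil hC
  refine ⟨d ^ s * (C * p ^ e), fun t => ?_⟩
  set W : Submodule F V := Vs β μ t ⊓ ⨅ j, LinearMap.ker (x j) with hW
  haveI := hfin t
  haveI hWf : Module.Finite F W := Submodule.finiteDimensional_of_le inf_le_left
  have hmem : ∀ v, v ∈ W ↔ v ∈ Vs β μ t ∧ ∀ j, x j v = 0 := fun v => by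
    simp [hW, Submodule.mem_iInf]
  have hstab : ∀ j, ∀ v ∈ W, z j v ∈ W := fun j v hv => by
    rw [hmem] at hv ⊢
    refine ⟨fun α hα => ?_, fun i => ?_⟩
    · have h1 := LinearMap.congr_fun (gro_commute_mono _ β (hzβ j) α).eq v
      rw [Module.End.mul_apply, Module.End.mul_apply, hv.1 α hα, map_zero] at h1
      exact h1.symm
    · have h1 := LinearMap.congr_fun (hzx j i).eq v
      rw [Module.End.mul_apply, Module.End.mul_apply, hv.2 i, map_zero] at h1
      exact h1.symm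
  have h1 := (hDIM F V s z hzz).1 d W hWf hstab fun j v hv => hnil j v ((hmem v).1 hv).2
  set W' : Submodule F V := W ⊓ ⨅ j, LinearMap.ker (z j) with hW'
  haveI : Module.Finite F W' := Submodule.finiteDimensional_of_le inf_le_left
  have hl1 : t + 1 < p ^ (Nat.log p (t + 1) + 1) := Nat.lt_pow_succ_log_self (by omega) _
  have hl2 : p ^ Nat.log p (t + 1) ≤ t + 1 := Nat.pow_log_le_self p (by omega)
  have h2 := hC (Nat.log p (t + 1) + 1) (Module.finrank F W')
    (fun i => (Module.finBasis F W' i : V))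
    ((Module.finBasis F W').linearIndependent.map' W'.subtype (Submodule.ker_subtype _))
    fun i => by
      have h3 := (Module.finBasis F W' i).2
      refine ⟨Vs_mono β μ (by omega) ((hmem _).1 h3.1).1, fun j => ?_⟩
      exact (Submodule.mem_iInf _).1 h3.2 j
  have h3 : p ^ (e * (Nat.log p (t + 1) + 1)) ≤ p ^ e * (t + 1) ^ e := by
    rw [mul_comm e, pow_mul, pow_succ, mul_pow, mul_comm]
    exact Nat.mul_le_mul_left _ (Nat.pow_le_pow_left hl2 e)
  calc Module.finrank F W ≤ d ^ s * Module.finrank F W' := h1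
    _ ≤ d ^ s * (C * (p ^ e * (t + 1) ^ e)) :=
      Nat.mul_le_mul_left _ (h2.trans (Nat.mul_le_mul_left _ h3))
    _ = d ^ s * (C * p ^ e) * (t + 1) ^ e := by ring

end

/-! Step XNIL. -/

section

open Pool.Agent.P.MP_7cb106_nt.GK MvPowerSeries Filter Topology

theorem p_XNIL :
    S_XNIL := by
  intro O F V _ _ _ _ res g ψ hs hu hC W hW j hx v hv
  let Φ : Polynomial F →ₗ[F] W := LinearMap.codRestrict W
    (LinearMap.applyₗ v ∘ₗ (Polynomial.aeval (ψ (X j))).toLinearMap)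
    fun P => Polynomial.aeval_apply_smul_mem_of_le_comap hv P _ hx
  have h1 : ¬ Function.Injective Φ := fun h =>
    Polynomial.not_finite (Module.Finite.of_injective Φ h)
  rw [injective_iff_map_eq_zero] at h1
  push Not at h1
  obtain ⟨P, hP, hP0⟩ := h1
  obtain ⟨q, hq, hq0⟩ := Polynomial.exists_eq_pow_rootMultiplicity_mul_and_not_dvd P hP0 0
  rw [map_zero, sub_zero] at hq hq0
  obtain ⟨q', rfl⟩ := Polynomial.map_surjective res hs q
  have h2 : IsUnit (q'.eval₂ C (X j : MvPowerSeries (Fin g) O)) := by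
    rw [isUnit_iff_constantCoeff, Polynomial.hom_eval₂, constantCoeff_X, Polynomial.eval₂_at_zero]
    refine hu _ ?_
    rwa [Polynomial.X_dvd_iff, Polynomial.coeff_map] at hq0
  have h3 : ψ (q'.eval₂ C (X j)) = Polynomial.aeval (ψ (X j)) (q'.map res) := by
    rw [Polynomial.hom_eval₂, Polynomial.aeval_def, Polynomial.eval₂_map]
    congr 1
    ext c w
    simp [hC]
  have h4 : Polynomial.aeval (ψ (X j)) P v = 0 := congrArg Subtype.val hP
  rw [hq, mul_comm, map_mul, ← h3, map_pow, Polynomial.aeval_X, Module.End.mul_apply] at h4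
  exact ⟨_, ((Module.End.isUnit_iff _).1 (h2.map ψ)).1 (h4.trans (map_zero _).symm)⟩

end

/-! Step TN. -/

section

open Pool.Agent.P.MP_7cb106_nt.GK MvPowerSeries Filter Topology

theorem p_TN :
    S_TN := by
  intro L B _ _ _ ϖ x hϖ hx h v
  have h0 : ϖ ≠ 0 := norm_pos_iff.1 hϖ.pos
  have hp : ∀ (c : ℕ) w, ‖(x ^ c) w‖ ≤ ‖w‖ := fun c => by
    induction c with
    | zero => intro w; simp
    | succ c ih => intro w; rw [pow_succ, Module.End.mul_apply]; exact (ih _).trans (hx w)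
  have step : ∀ (c : L) (w : B), c ≠ 0 → ‖w‖ ≤ ‖c‖ → ∃ a, ‖(x ^ a) w‖ ≤ ‖c‖ * ‖ϖ‖ := by
    intro c w hc hw
    have hc' : 0 < ‖c‖ := norm_pos_iff.2 hc
    obtain ⟨a, ha⟩ := h (c⁻¹ • w) (by
      rw [norm_smul, norm_inv, inv_mul_le_iff₀ hc', mul_one]; exact hw)
    have := hϖ.le _ ha
    rw [map_smul, norm_smul, norm_inv, inv_mul_le_iff₀ hc'] at this
    exact ⟨a, this⟩
  obtain ⟨m, hm⟩ := pow_unbounded_of_one_lt ‖v‖ ((one_lt_inv₀ hϖ.pos).2 hϖ.lt)
  have key : ∀ k : ℕ, ∃ a, ‖(x ^ a) v‖ ≤ ‖ϖ⁻¹ ^ m * ϖ ^ k‖ := by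
    intro k
    induction k with
    | zero => exact ⟨0, by simpa using hm.le⟩
    | succ k ih =>
      obtain ⟨a, ha⟩ := ih
      obtain ⟨b, hb⟩ := step _ _ (mul_ne_zero (pow_ne_zero _ (inv_ne_zero h0)) (pow_ne_zero _ h0)) ha
      refine ⟨b + a, ?_⟩
      rw [pow_add, Module.End.mul_apply, pow_succ, ← mul_assoc, norm_mul]
      exact hb
  rw [NormedAddGroup.tendsto_nhds_zero]
  intro ε hε
  have hc : 0 < ‖ϖ⁻¹ ^ m‖ := norm_pos_iff.2 (pow_ne_zero _ (inv_ne_zero h0))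
  obtain ⟨k, hk⟩ := exists_pow_lt_of_lt_one (div_pos hε hc) hϖ.lt
  obtain ⟨a, ha⟩ := key k
  refine eventually_atTop.2 ⟨a, fun b hb => ?_⟩
  obtain ⟨c, rfl⟩ := Nat.exists_eq_add_of_le' hb
  rw [pow_add, Module.End.mul_apply]
  refine ((hp c _).trans ha).trans_lt ?_
  rw [norm_mul, norm_pow ϖ, mul_comm, ← lt_div_iff₀ hc]
  exact hk

end

end Pool.Agent.P.MP_7cb106_nt.PG
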