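import Pool.Agent.P.MP_7cb106_nt.PG.IfaceY

/-! The main steps. -/

set_option autoImplicit false

namespace Pool.Agent.P.MP_7cb106_nt.PG

/-! Step CORE. -/

section

open Pool.Agent.P.MP_7cb106_nt.GK Filter Topology MvPowerSeries

theorem pf_choose (n : ℕ) : n.choose 2 + (n + 1).choose 2 = n * n := by
  induction n with
  | zero => simp
  | succ n ih =>
    have h1 : (n + 1).choose 2 = n + n.choose 2 := by
      rw [Nat.choose_succ_succ, Nat.choose_one_right]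
    have h2 : (n + 1 + 1).choose 2 = n + 1 + (n + 1).choose 2 := by
      rw [Nat.choose_succ_succ, Nat.choose_one_right]
    rw [h2]
    nlinarith

theorem pf_card {F V : Type} [Field F] [AddCommGroup V] [Module F V] (W : Submodule F V)
    [Module.Finite F W] {k : ℕ} (v : Fin k → V) (hv : LinearIndependent F v) (hW : ∀ i, v i ∈ W) :
    k ≤ Module.finrank F W := by
  have h : LinearIndependent F fun i => (⟨v i, hW i⟩ : W) :=
    LinearIndependent.of_comp W.subtype hv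
  simpa using h.fintype_card_le_finrank

theorem pf_com {L B F V : Type} [NormedField L] [IsUltrametricDist L] [NormedAddCommGroup B]
    [NormedSpace L B] [IsUltrametricDist B] [Field F] [AddCommGroup V] [Module F V]
    (R : Red L B F V) {g : ℕ} (x : Fin g → Module.End L B) (hx : ∀ j v, ‖x j v‖ ≤ ‖v‖)
    (h : CoV fun j => R.bar (x j)) : CoM x := by
  intro k v hv h0
  have key : ∀ j w, ‖w‖ ≤ 1 → (R.bar (x j) (R.red w) = 0 ↔ ‖x j w‖ < 1) := fun j w hw => by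
    rw [R.bar_red _ (hx j) w hw, R.red_zero _ ((hx j w).trans hw)]
  obtain ⟨u, hu1, hu2⟩ := h k (R.red v) fun j hj => (key j v hv).2 (h0 j hj)
  obtain ⟨w, hw, rfl⟩ := R.red_surj u
  refine ⟨w, hw, fun j hj => (key j w hw).1 (hu1 j hj), ?_⟩
  rw [← red_eq R ((hx k w).trans hw) hv, ← R.bar_red _ (hx k) w hw]
  exact hu2

theorem p_CORE (hUNI : S_UNI) (hRES : S_RES) (hRED : S_RED) (hORT : S_ORT) (hMUL : S_MUL) (hW : S_W) (hFS1 : S_FS1) (hFS2 : S_FS2) (hFS3 : S_FS3) (hKD : S_KD) (hGD0 : S_GD0) (hGD2 : S_GD2) (hXB : S_XB) (hFIN : S_FIN) (hMAIN2 : S_MAIN2) (hPT : S_PT) (hCNT : S_CNT) (hCOF : S_COF) (hTH : S_TH) (hINTG : S_INTG) (hINV : S_INV) (hGRO : S_GRO) (hCOREG : S_COREG) (hXNIL : S_XNIL) (hTN : S_TN) :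
    S_CORE := by
  intro p _ K L B A _ _ _ _ _ _ _ _ _ _ _ _ σ n l₀ m h g s U ρ fn κ act z idx φ hl hU hm hno hro
    hsh hon cont hfin hC hle hcom hzn conv inf hg
  have : CompleteSpace L := FiniteDimensional.complete ℚ_[p] L
  have hp : p.Prime := Fact.out
  have hp1 : (1 : ℝ) < p := by exact_mod_cast hp.one_lt
  obtain ⟨hnp, ϖ, hϖ0, hϖ1, hϖm, hϖk⟩ := hUNI p L
  have hsup := hPT.2 L B _ ϖ (fun v => fn v) hϖ1 hϖm hno
  have hval : ∀ v : B, ∃ c : L, ‖v‖ = ‖c‖ := fun v => by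
    by_cases hv : v = 0
    · exact ⟨0, by simp [hv]⟩
    · obtain ⟨ξ, hξ⟩ := hsup v hv
      exact ⟨_, hξ⟩
  have hfle : ∀ v ξ, ‖fn v ξ‖ ≤ ‖v‖ := fun v => (hno v _ (norm_nonneg _)).1 le_rfl
  have hρle : ∀ u v, ‖ρ u v‖ ≤ ‖v‖ := fun u v => (hno _ _ (norm_nonneg _)).2 fun ξ => by
    obtain ⟨k, β, x⟩ := ξ
    rw [hro]
    exact hfle _ _
  have iso : ∀ u v, ‖ρ u v‖ = ‖v‖ := fun u v => le_antisymm (hρle u v) (by
    have h1 := hρle u⁻¹ (ρ u v)
    rwa [← Module.End.mul_apply, ← map_mul, inv_mul_cancel, map_one, Module.End.one_apply] at h1)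
  have hun : Unif ϖ B := ⟨hϖ0, hϖ1, fun v hv => by
    obtain ⟨c, hc⟩ := hval v
    rw [hc] at hv ⊢
    exact hϖm c hv⟩
  obtain ⟨F, _, _, _, res, hres1, hres2⟩ := hRES p L
  obtain ⟨V, _, _, R, hR⟩ := hRED L B F res hres1 hres2
  obtain ⟨e, f₀, a, u, τ, kd⟩ := hKD p K L F σ ϖ res hϖ0 hϖ1 hϖk hres2
  have hr0 := kd.u_pos
  have hr1 := kd.u_lt
  have he := kd.he
  have hre : ∀ l, ‖σ u‖ ^ (e * l) = ((p : ℝ) ^ l)⁻¹ := fun l => by
    rw [pow_mul, kd.norm_p, inv_pow]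
  have hJ1 : e + 1 ≤ e * l₀ := by nlinarith
  have hU' : ∀ x : GL (Fin n) K, Sm σ (‖σ u‖ ^ (e * l₀)) (x.val - 1) → x ∈ U := fun x hx =>
    (hU x).2 (by rw [cong_iff, ← hre]; exact hx)
  obtain ⟨Γ, γ, hΓ, hγ⟩ := hGD0 p K L σ ϖ n e f₀ a (e * l₀) u τ U kd (by omega) hU'
  have gd := hGD2 p K L σ ϖ n e f₀ a (e * l₀) u τ U Γ γ kd hJ1 hΓ hγ
  have hΓi : ∀ l (x : U), x ∈ Γ (e * l) ↔ Cong σ (l₀ + l) x.val := fun l x => by
    rw [hΓ, cong_iff, ← hre, mul_add]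
  have hΓc : ∀ l, ∀ x ∈ Γ (e * l), Cong σ l x.val := fun l x hx =>
    ((hΓ _ x).1 hx).mono (by rw [← hre]; exact pow_le_pow_of_le_one hr0.le hr1.le (by omega))
  have hac : ∀ r r', Commute (act r) (act r') := fun r r' => (Commute.all r r').map act
  set y : Fin h → Module.End L B := fun i => act (z (idx i)) with hy
  have rp : Rp Γ ρ y := ⟨iso, fun v ε hε => by
    obtain ⟨l, hl⟩ := cont v ε hε
    exact ⟨e * l, fun x hx => hl x (hΓc l x hx)⟩, fun j => hle _, fun j => hzn _,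
    fun i j => hac _ _, fun j x => hcom _ x⟩
  have hfr := (hXB p K L σ ϖ n e f₀ a (e * l₀) u τ U γ kd hJ1 hγ).1
  obtain ⟨hW1, hW2⟩ := hW p e hp.two_le kd.he
  obtain ⟨w, hw⟩ := hW1 a kd.ha
  have hra : (‖ϖ‖ ^ a) ^ e = (p : ℝ)⁻¹ := by rw [← kd.norm_u, kd.norm_p]
  set lev : Fin n × Fin n × Fin e × Fin f₀ → ℕ := fun i => i.2.2.1.val with hlev
  set b := bG ρ γ y with hb
  set μ := muG h w lev 1 with hμ
  have hpϖ : ‖(p : L)‖ = ‖ϖ‖ ^ (e * a) := by rw [hnp, mul_comm, pow_mul, hra]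
  have mk : ∀ N, (∀ j < e, w j < e * a * N) → ∃ lam, Lam p e (e * a * N) w lam ∧
      FS2 ϖ b μ N (FilG ϖ Γ ρ y lam N 1) := by
    intro N hN
    obtain ⟨lam, hlam⟩ := hW2 a _ w hw hN
    obtain ⟨h1, h2, h3, h4, h5, h6, h7, h8⟩ := hFS1 p e a L B U _ h Γ γ lev ρ y ϖ w lam N _ 1
      hp.two_le gd rp hw hlam hN one_pos hϖ1
    refine ⟨lam, hlam, hMUL L B _ ϖ b _ N _ ⟨h1, h2, h3, fun ha ha' => h4 _ _ _ _ ha ha', h5,
      fun ha => h6 _ _ ha, fun ha => h7 _ _ ha, h8, ?_, ?_⟩⟩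
    · exact hFS2 p e a L B U _ h Γ γ lev ρ y ϖ w lam N 1 hp gd rp hw hlam hN one_pos hϖ0 hϖ1 hpϖ
    · refine hFS3 p e L B U _ h Γ γ lev ρ y ϖ lam N 1 hp kd.he gd rp hlam.mono.monotone hun ?_
      rw [hpϖ]
      exact pow_le_of_le_one hϖ0.le hϖ1.le (Nat.mul_pos kd.he kd.ha).ne'
  obtain ⟨lam₀, hlam₀, fs⟩ := mk (∑ j ∈ Finset.range e, w j + 1) fun j hj => by
    have h1 : w j ≤ ∑ j ∈ Finset.range e, w j :=
      Finset.single_le_sum (f := w) (fun _ _ => Nat.zero_le _) (Finset.mem_range.2 hj)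
    have h2 := Nat.mul_pos kd.he kd.ha
    nlinarith
  obtain ⟨lam, f, cf⟩ := hCOF p e L B U _ F V R h m Γ γ lev ρ y ϖ μ _ _ fn hm gd rp hϖ1 hϖm fs
    (fun x => by
      have h0 : x ∈ Γ (e * 0) := (hΓi 0 x).2 ((hU x.val).1 x.2)
      have h1 := add_mem (fs.anti (Nat.zero_le _) (rho_mem ϖ ρ y lam₀ _ 1 h0)) fs.one
      rwa [sub_add_cancel] at h1) hno hro hsh
    (fun l T ψ h1 h2 => hon (l₀ + l) T ψ h1 fun k β x u' hu' => h2 k β x u' ((hΓi l u').2 hu'))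
    (hCNT p K L σ ϖ n e f₀ a (e * l₀) u τ U Γ kd (by omega) hU' hΓ)
  have hfd := (hTH _ F V _ μ m lam f cf).2.2
  obtain ⟨-, hbox⟩ := hFIN p e L B U _ F V R h Γ γ lev ρ y μ gd rp
  obtain ⟨C₁, hC₁⟩ := hMAIN2 p K L B σ n s U ρ (fun i => act (z i)) φ hval
    ⟨l₀, fun x hx => (hU x).2 hx⟩ iso cont (fun j => hle _) hzn (fun i j => hac _ _)
    (fun j x => hcom _ x) (fun l => ⟨_, fun k v hv ho => by
      have := hfd (p ^ l * ∑ i, μ i + 1)
      exact pf_card (Vs (fun i => R.bar (b i)) μ (p ^ l * ∑ i, μ i + 1)) (fun i => R.red (v i))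
        ((hORT L B F V R k v fun i => (hv i).1).1 ho) fun i => (hbox l (v i) (hv i).1
          (fun j => (hv i).2.1 _) fun x hx => (hv i).2.2 x (hΓc l x hx)).1⟩) conv inf
  set ψ := barHom R act hle with hψ
  have hψr : ∀ r v, ‖v‖ ≤ 1 → ψ r (R.red v) = R.red (act r v) := fun r v hv =>
    R.bar_red _ (hle r) v hv
  have hnil : ∀ r, (∀ v, Tendsto (fun k : ℕ => (act r ^ k) v) atTop (𝓝 0)) →
      ∀ v, ∃ k, (ψ r ^ k) v = 0 := by
    intro r hr v
    obtain ⟨v', hv', rfl⟩ := R.red_surj v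
    obtain ⟨k, hk⟩ := ((hr v').norm.eventually (gt_mem_nhds (by simp : ‖(0 : B)‖ < 1))).exists
    refine ⟨k, ?_⟩
    rw [← map_pow, hψr _ _ hv', R.red_zero _ ((hle _ _).trans hv'), map_pow]
    exact hk
  have hψc : ∀ r r', Commute (ψ r) (ψ r') := fun r r' => (Commute.all r r').map ψ
  have hψb : ∀ r i, Commute (ψ r) (R.bar (b i)) := by
    intro r i
    have h1 : Commute (act r) (b i) := by
      rcases i with i | i
      · exact (hcom r _).sub_right (Commute.one_right _)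
      · exact hac _ _
    have h2 := fs.norm (fs.gen i)
    change R.bar (act r) * R.bar (b i) = R.bar (b i) * R.bar (act r)
    rw [← bar_mul R (hle r) h2, ← bar_mul R h2 (hle r), h1.eq]
  have hψC : ∀ c v, ψ (κ (C c)) v = R.res c • v := fun c v => by
    obtain ⟨v', hv', rfl⟩ := R.red_surj v
    rw [hψr _ _ hv', hC, R.red_smul c v' hv']
  have hXn : ∀ j v, ∃ k, (ψ (κ (X j)) ^ k) v = 0 := fun j v => by
    obtain ⟨T, hT⟩ := cf.exh v
    refine hXNIL (Ob L) F V R.res g (ψ.comp κ) R.res_surj (fun c hc => ?_) hψC _ (hfd T) j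
      (fun v hv α hα => ?_) v hT
    · have h1 : ‖(c : L)‖ = 1 := le_antisymm c.2 (not_lt.1 fun h0 => hc ((R.res_zero c).2 h0))
      have h2 : (c : L) ≠ 0 := norm_pos_iff.1 (by rw [h1]; exact one_pos)
      exact IsUnit.of_mul_eq_one ⟨(c : L)⁻¹, by rw [mem_Ob, norm_inv, h1, inv_one]⟩
        (Subtype.ext (mul_inv_cancel₀ h2))
    · have h1 : Commute (ψ (κ (X j))) (mono (fun i => R.bar (b i)) α) :=
        Commute.list_prod_right _ _ fun c hc => by
          obtain ⟨i, -, rfl⟩ := List.mem_map.1 hc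
          exact (hψb _ i).pow_right _
      rw [RingHom.comp_apply, ← Module.End.mul_apply, ← h1.eq, Module.End.mul_apply, hv α hα,
        map_zero]
  choose d hd using fun i => hINTG (Ob L) F V R.res g A κ ψ hfin hψC (z i) (hnil _ (hzn i))
  have hinv := hINV p e a L B U _ F V R h Γ γ ρ y ϖ μ w hp.one_le kd.he kd.ha hϖ1 hw.pos mk
  obtain ⟨C₂, hC₂⟩ := hGRO p _ F V (fun i => R.bar (b i)) μ g s (∑ i, d i)
    (C₁ * p ^ (Module.finrank ℚ_[p] K * n.choose 2 * l₀)) (Module.finrank ℚ_[p] K * n.choose 2)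
    (fun j => ψ (κ (X j))) (fun i => ψ (z i)) hp.two_le hfd (fun _ _ => hψc _ _)
    (fun _ _ => hψc _ _) (fun _ _ => hψb _ _)
    (fun i v hv => hd i v hv _
      (Finset.single_le_sum (f := d) (fun _ _ => Nat.zero_le _) (Finset.mem_univ i)))
    (fun l k v hli hv => by
      choose v' hv1 hv2 using fun i => R.red_surj (v i)
      have h1 := hC₁ (l₀ + l) k v' (fun i => ⟨hv1 i, fun j => by
        rw [← R.red_zero _ ((hle _ _).trans (hv1 i)), ← hψr _ _ (hv1 i), hv2]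
        exact (hv i).2 j, fun x hx => hinv l _ (hv1 i) (by rw [hv2]; exact (hv i).1) x
          ((hΓi l x).2 hx)⟩) ((hORT L B F V R k v' hv1).2 (by simpa only [hv2] using hli))
      rwa [mul_add, pow_add, ← mul_assoc] at h1)
  have hcov := hCOREG _ F V _ μ m lam f cf g C₂ _ (fun j => ψ (κ (X j))) (fun _ _ => hψc _ _)
    (fun _ _ => hψb _ _) hXn hC₂ (by
      have h1 := pf_choose n
      simp only [Fintype.card_sum, Fintype.card_prod, Fintype.card_fin]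
      rw [hfr] at hg ⊢
      have h2 : e * f₀ * n.choose 2 + e * f₀ * (n + 1).choose 2 = n * (n * (e * f₀)) := by
        rw [← mul_add, h1]
        ring
      omega)
  refine ⟨pf_com R _ (fun j => hle _) hcov, fun j => hTN L B ϖ _ hun (hle _) fun v hv => ?_⟩
  obtain ⟨k, hk⟩ := hXn j (R.red v)
  refine ⟨k, ?_⟩
  rwa [← map_pow, hψr _ _ hv, R.red_zero _ ((hle _ _).trans hv), map_pow] at hk

end

/-! Step PF2. -/

section

open Pool.Agent.P.MP_7cb106_nt.GK Filter Topology MvPowerSeries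

theorem p_PF2 (hUNI : S_UNI) (hPT : S_PT) (hCORE : S_CORE) (hLFT : S_LFT) (hALG : S_ALG) (hTR2 : S_TR2) (hARD2 : S_ARD2) (hD3 : S_D3) :
    S_PF2 := by
  intro p _ K L B A _ _ _ _ _ _ _ _ _ _ _ _ σ n l₀ m h g s U ρ fn κ act z idx φ hl hU hm hno hro
    hsh hon cont hfin hC hle hcom hzn conv inf hg E _ _ _ χ hχ hsupp
  have : CompleteSpace L := FiniteDimensional.complete ℚ_[p] L
  have : ProperSpace L := FiniteDimensional.proper ℚ_[p] L
  obtain ⟨hnp, ϖ, hϖ0, hϖ1, hϖm, hϖk⟩ := hUNI p L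
  have hsup := hPT.2 L B _ ϖ (fun v => fn v) hϖ1 hϖm hno
  have hfle : ∀ v ξ, ‖fn v ξ‖ ≤ ‖v‖ := fun v => (hno v _ (norm_nonneg _)).1 le_rfl
  have hun : Unif ϖ B := ⟨hϖ0, hϖ1, fun v hv => by
    by_cases h0 : v = 0
    · simp [h0]
    · obtain ⟨ξ, hξ⟩ := hsup v h0
      rw [hξ] at hv ⊢
      exact hϖm _ hv⟩
  have hac : ∀ r r', Commute (act r) (act r') := fun r r' => (Commute.all r r').map act
  have hχ' : (χ.comp κ).comp C = (algebraMap L E).comp (Ob L).subtype := RingHom.ext hχ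
  have hC' : (act.comp κ).comp C = (algebraMap L (Module.End L B)).comp (Ob L).subtype :=
    RingHom.ext fun c => LinearMap.ext fun v => hC c v
  choose P hP1 hP2 hP3 hP4 hP5 using fun j => hALG L E ϖ (χ (κ (X j))) hϖ0 hϖ1 fun Q hQ => by
    have h1 : IsUnit (Q.eval₂ C (X j : MvPowerSeries (Fin g) (Ob L))) := by
      rw [isUnit_iff_constantCoeff, Polynomial.hom_eval₂]
      simpa using hQ
    have h2 := (h1.map (χ.comp κ)).ne_zero
    rwa [Polynomial.hom_eval₂, hχ'] at h2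
  obtain ⟨θ, hθ1, hθ2, hθ3⟩ := hTR2 L g P hP1 hP2 hP3
  have hfin' : (κ.comp θ).Finite := hfin.comp hθ1
  have hC2 : ∀ c v, act ((κ.comp θ) (C c)) v = (c : L) • v := fun c v => by
    rw [RingHom.comp_apply, hθ2, hC]
  obtain ⟨hcm, hXn'⟩ := hCORE p K L B A σ n l₀ m h g s U ρ fn (κ.comp θ) act z idx φ hl hU hm hno hro hsh
    hon cont hfin' hC2 hle hcom hzn conv inf hg
  obtain ⟨hD1, hD2⟩ := hD3 L B ϖ g A (κ.comp θ) act hfin' hun hϖk hle hC2 hcm hXn' fun v hv => by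
    obtain ⟨ξ, hξ⟩ := hsup v hv
    refine ⟨LinearMap.proj ξ ∘ₗ fn, fun w => hfle w ξ, fun h0 => hv ?_⟩
    have h1 : fn v ξ = 0 := h0
    rw [← norm_eq_zero, hξ]
    simp [h1]
  refine ⟨?_, hD2 E χ (fun c hc => ?_) (fun j => ?_) ?_⟩
  · have h1 := (hLFT L B ϖ g _ hun (fun j => hle _) (fun _ _ => hac _ _) hcm).1
    have h2 : ∀ j, act ((κ.comp θ) (X j)) =
        Polynomial.aeval (act (κ (X j))) (minpoly L (χ (κ (X j)))) := fun j => by
      rw [← hP5, Polynomial.aeval_def, Polynomial.eval₂_map, ← hC', RingHom.comp_apply, hθ3]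
      exact Polynomial.hom_eval₂ (P j) C (act.comp κ) (X j)
    simpa only [h2] using h1
  · rw [RingHom.comp_apply, hθ2, hχ, _root_.map_eq_zero] at hc
    exact Subtype.ext hc
  · rw [RingHom.comp_apply, hθ3, ← hP4 j, ← hχ']
    exact Polynomial.hom_eval₂ (P j) C (χ.comp κ) (X j)
  · rcases hsupp with hdom | hsupp
    · intro r hr
      by_cases h0 : r = 0
      · rw [h0, map_zero]
      · obtain ⟨a, r', ha, har⟩ := hARD2.2 _ A (κ.comp θ) hfin' r h0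
        have h1 := hD1 a 1 ha (by rw [mul_one, har, map_mul, hr, zero_mul])
        obtain ⟨v, hv⟩ := hon 0 1 (fun ξ => if ξ.2.1 = 0 then 1 else 0)
          (fun k β x i hi => if_neg fun h2 : β = 0 => by simp [h2] at hi) fun _ _ _ _ _ => rfl
        have h2 : v = 0 := by simpa using LinearMap.congr_fun h1 v
        have h3 := congrFun hv (⟨0, hm⟩, 0, 1)
        simp [h2] at h3
    · exact hsupp

end

end Pool.Agent.P.MP_7cb106_nt.PG
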