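import Pool.Agent.P.MP_7cb106_nt.GK.All2
import Pool.Agent.P.MP_7cb106_nt.PF.BunF
import Pool.Agent.P.MP_7cb106_nt.PG.BunN
import Pool.Agent.P.MP_7cb106_nt.PG.BunU
import Pool.Agent.P.MP_7cb106_nt.PG.BunR
import Pool.Agent.P.MP_7cb106_nt.PG.BunV
import Pool.Agent.P.MP_7cb106_nt.PG.BunY

/-! All steps assembled. -/

set_option autoImplicit false

namespace Pool.Agent.P.MP_7cb106_nt.PG

open Pool.Agent.P.MP_7cb106_nt.GK

theorem all_LFT : S_LFT := p_LFT
theorem all_DIV : S_DIV := p_DIV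
theorem all_FAM : S_FAM := p_FAM
theorem all_FORM : S_FORM := p_FORM all_DIV
theorem all_ALG : S_ALG := p_ALG
theorem all_TR2 : S_TR2 := p_TR2
theorem all_DENS : S_DENS := p_DENS all_LFT all_FAM
theorem all_ARD2 : S_ARD2 := p_ARD2
theorem all_EIG2 : S_EIG2 := p_EIG2 all_DIV
theorem all_D3 : S_D3 := p_D3 all_DIV all_FORM all_DENS all_ARD2 all_EIG2
theorem all_FRA : S_FRA := p_FRA
theorem all_OP : S_OP := p_OP
theorem all_TH : S_TH := p_TH
theorem all_COREG : S_COREG := p_COREG PF.all_ABS all_FRA all_OP all_TH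
theorem all_APX : S_APX := p_APX all_KILL
theorem all_PT : S_PT := p_PT
theorem all_DB : S_DB := p_DB
theorem all_CNT : S_CNT := p_CNT all_GM all_OB1
theorem all_WL : S_WL := p_WL
theorem all_COF : S_COF := p_COF all_KILL all_APX all_PT all_DB all_WL
theorem all_DIM : S_DIM := p_DIM
theorem all_INTG : S_INTG := p_INTG all_DIV
theorem all_INV : S_INV := p_INV all_KILL
theorem all_GRO : S_GRO := p_GRO all_DIM
theorem all_XNIL : S_XNIL := p_XNIL
theorem all_TN : S_TN := p_TN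
theorem all_CORE : S_CORE := p_CORE all_UNI all_RES all_RED all_ORT all_MUL all_W all_FS1 all_FS2 all_FS3 all_KD all_GD0 all_GD2 all_XB all_FIN all_MAIN2 all_PT all_CNT all_COF all_TH all_INTG all_INV all_GRO all_COREG all_XNIL all_TN
theorem all_PF2 : S_PF2 := p_PF2 all_UNI all_PT all_CORE all_LFT all_ALG all_TR2 all_ARD2 all_D3

end Pool.Agent.P.MP_7cb106_nt.PG
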