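import Pool.Agent.P.MP_7cb106_nt.GK.BaseD

/-! Definitions used in the statement on patched modules. -/

set_option autoImplicit false

namespace Pool.Agent.P.MP_7cb106_nt.PG

open Pool.Agent.P.MP_7cb106_nt.GK Filter Topology

variable {p : ℕ} [Fact p.Prime] {K L B : Type} [Field K] [Algebra ℚ_[p] K] [NormedField L]
  [NormedAlgebra ℚ_[p] L] [NormedAddCommGroup B] [NormedSpace L B] {n m h s : ℕ}
  {U : Subgroup (GL (Fin n) K)}

/-- `fn` embeds `B` isometrically into the functions on `Fin m × ℕ ^ h × U`, the group acts by right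
translation with continuous orbits, the `y i` act as the shifts, and all functions with bounded
support in `ℕ ^ h` which are invariant under a congruence subgroup occur -/
structure Cofree (σ : K →ₐ[ℚ_[p]] L) (ρ : U →* Module.End L B) (y : Fin h → Module.End L B)
    (fn : B →ₗ[L] (Fin m × (Fin h → ℕ) × U → L)) : Prop where
  sup : ∀ v (r : ℝ), 0 ≤ r → (‖v‖ ≤ r ↔ ∀ ξ, ‖fn v ξ‖ ≤ r)
  trans : ∀ u v k β x, fn (ρ u v) (k, β, x) = fn v (k, β, x * u)
  shift : ∀ i v k β x, fn (y i v) (k, β, x) = fn v (k, β + Pi.single i 1, x)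
  onto : ∀ (l T : ℕ) (ψ : Fin m × (Fin h → ℕ) × U → L), (∀ k β x i, T ≤ β i → ψ (k, β, x) = 0) →
    (∀ k β x (u : U), Cong σ l u.val → ψ (k, β, x * u) = ψ (k, β, x)) → ∃ v, fn v = ψ
  cont : ∀ (v : B) (ε : ℝ), 0 < ε → ∃ l, ∀ u : U, Cong σ l u.val → ‖ρ u v - v‖ ≤ ε

/-- the Capelli elements act on the analytic vectors by power series in the topologically nilpotent
operators `z i` which converge on the open unit polydisc -/
structure InfChar [FiniteDimensional ℚ_[p] K] (σ : K →ₐ[ℚ_[p]] L) (ρ : U →* Module.End L B)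
    (z : Fin s → Module.End L B) (φ : ℕ → (Fin s → ℕ) → L) : Prop where
  nil : ∀ i v, Tendsto (fun k : ℕ => (z i ^ k) v) atTop (𝓝 0)
  conv : ∀ (k : ℕ) (r : ℝ), 0 < r → r < 1 → ∃ c : ℝ, ∀ β, ‖φ k β‖ * r ^ (∑ j, β j) ≤ c
  inf : ∀ k, 1 ≤ k → k ≤ n → ∀ v, An σ ρ z v →
    HasSum (fun β => φ k β • xp z β v) (Cap (Eop σ ρ) k v)

/-- `x k` maps the unit ball of the common kernel of the `x j`, `j < k`, onto itself -/
def CoReg {g : ℕ} (x : Fin g → Module.End L B) : Prop :=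
  ∀ (k : Fin g) (v : B), ‖v‖ ≤ 1 → (∀ j < k, x j v = 0) →
    ∃ w, ‖w‖ ≤ 1 ∧ (∀ j < k, x j w = 0) ∧ x k w = v

end Pool.Agent.P.MP_7cb106_nt.PG
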