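import Pool.Agent.P.MP_7cb106_nt.GK.IfaceX
import Pool.Agent.P.MP_7cb106_nt.PG.Defs

/-! Co-regular sequences, reduction of operators, cofree modules. -/

set_option autoImplicit false

namespace Pool.Agent.P.MP_7cb106_nt.PG

open Pool.Agent.P.MP_7cb106_nt.GK

section
variable {L B : Type} [NormedField L] [NormedAddCommGroup B] [NormedSpace L B] {g : ℕ}

/-- co-regularity modulo the open unit ball -/
def CoM (x : Fin g → Module.End L B) : Prop :=
  ∀ (k : Fin g) (v : B), ‖v‖ ≤ 1 → (∀ j < k, ‖x j v‖ < 1) →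
    ∃ w, ‖w‖ ≤ 1 ∧ (∀ j < k, ‖x j w‖ < 1) ∧ ‖x k w - v‖ < 1

end

/-- the same for a vector space -/
def CoV {F V : Type} [Field F] [AddCommGroup V] [Module F V] {g : ℕ}
    (x : Fin g → Module.End F V) : Prop :=
  ∀ (k : Fin g) (v : V), (∀ j < k, x j v = 0) → ∃ w, (∀ j < k, x j w = 0) ∧ x k w = v

section
variable {L B F V : Type} [NormedField L] [IsUltrametricDist L] [NormedAddCommGroup B]
  [NormedSpace L B] [IsUltrametricDist B] [Field F] [AddCommGroup V] [Module F V]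

theorem bar_one (R : Red L B F V) : R.bar 1 = 1 := by
  ext u
  obtain ⟨v, hv, rfl⟩ := R.red_surj u
  rw [R.bar_red 1 (fun _ => le_rfl) v hv]
  rfl

theorem bar_mul (R : Red L B F V) {a b : Module.End L B} (ha : ∀ v, ‖a v‖ ≤ ‖v‖)
    (hb : ∀ v, ‖b v‖ ≤ ‖v‖) : R.bar (a * b) = R.bar a * R.bar b := by
  ext u
  obtain ⟨v, hv, rfl⟩ := R.red_surj u
  rw [R.bar_red (a * b) (fun v => (ha _).trans (hb v)) v hv, Module.End.mul_apply,
    Module.End.mul_apply, R.bar_red b hb v hv, R.bar_red a ha _ ((hb v).trans hv)]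

theorem con_add {a b : Module.End L B} (ha : ∀ v, ‖a v‖ ≤ ‖v‖) (hb : ∀ v, ‖b v‖ ≤ ‖v‖) (v : B) :
    ‖(a + b) v‖ ≤ ‖v‖ :=
  (IsUltrametricDist.norm_add_le_max _ _).trans (max_le (ha v) (hb v))

theorem bar_add (R : Red L B F V) {a b : Module.End L B} (ha : ∀ v, ‖a v‖ ≤ ‖v‖)
    (hb : ∀ v, ‖b v‖ ≤ ‖v‖) : R.bar (a + b) = R.bar a + R.bar b := by
  ext u
  obtain ⟨v, hv, rfl⟩ := R.red_surj u
  rw [R.bar_red (a + b) (con_add ha hb) v hv, LinearMap.add_apply, LinearMap.add_apply,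
    R.red_add _ _ ((ha v).trans hv) ((hb v).trans hv), R.bar_red a ha v hv, R.bar_red b hb v hv]

theorem red_zero' (R : Red L B F V) : R.red 0 = 0 := (R.red_zero 0 (by simp)).2 (by simp)

theorem red_neg (R : Red L B F V) {v : B} (hv : ‖v‖ ≤ 1) : R.red (-v) = -R.red v := by
  have h := R.red_smul (-1) v hv
  simpa using h

theorem red_sub (R : Red L B F V) {v w : B} (hv : ‖v‖ ≤ 1) (hw : ‖w‖ ≤ 1) :
    R.red (v - w) = R.red v - R.red w := by
  rw [sub_eq_add_neg, R.red_add _ _ hv (by simpa using hw), red_neg R hw, sub_eq_add_neg]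

theorem red_eq (R : Red L B F V) {v w : B} (hv : ‖v‖ ≤ 1) (hw : ‖w‖ ≤ 1) :
    R.red v = R.red w ↔ ‖v - w‖ < 1 := by
  rw [← sub_eq_zero, ← red_sub R hv hw, R.red_zero]
  rw [sub_eq_add_neg]
  exact (IsUltrametricDist.norm_add_le_max _ _).trans (max_le hv (by simpa using hw))

/-- reduction of an action by contractions -/
def barHom (R : Red L B F V) {A : Type} [Ring A] (act : A →+* Module.End L B)
    (h : ∀ r v, ‖act r v‖ ≤ ‖v‖) : A →+* Module.End F V :=
  RingHom.mk' ⟨⟨fun r => R.bar (act r), by simp only [map_one, bar_one]⟩,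
    fun r r' => by simp only [map_mul]; exact bar_mul R (h r) (h r')⟩
    fun r r' => by simp only [MonoidHom.coe_mk, OneHom.coe_mk, map_add]; exact bar_add R (h r) (h r')

theorem barHom_apply (R : Red L B F V) {A : Type} [Ring A] (act : A →+* Module.End L B)
    (h : ∀ r v, ‖act r v‖ ≤ ‖v‖) (r : A) : barHom R act h r = R.bar (act r) := rfl

end

section
variable {ι F V : Type} [Fintype ι] [Field F] [AddCommGroup V] [Module F V]

/-- `a` agrees on every step of the filtration with a combination of ordered monomials -/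
def Apx (β : ι → Module.End F V) (μ : ι → ℕ) (a : Module.End F V) : Prop :=
  ∀ T, ∃ P : MvPolynomial ι F, ∀ v ∈ Vs β μ T, a v = ev F β P v

/-- cofree modules: the functionals `lam k ∘ mono β α` are the coordinates in a basis `f` -/
structure CF (β : ι → Module.End F V) (μ : ι → ℕ) {m : ℕ} (lam : Fin m → Module.Dual F V)
    (f : Fin m → (ι →₀ ℕ) → V) : Prop where
  good : Good β μ
  exh : ∀ v, ∃ T, v ∈ Vs β μ T
  cl : ∀ α α', Apx β μ (mono β α * mono β α')
  pos : 0 < m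
  one : ∀ k γ, lam k (mono β γ (f k γ)) = 1
  zero : ∀ k k' α γ, (k' ≠ k ∨ α ≠ γ) → lam k' (mono β α (f k γ)) = 0
  sep : ∀ v, (∀ k α, lam k (mono β α v) = 0) → v = 0
  mem : ∀ k γ, f k γ ∈ Vs β μ (wt μ γ + 1)

theorem Vs_mono (β : ι → Module.End F V) (μ : ι → ℕ) {s t : ℕ} (h : s ≤ t) :
    Vs β μ s ≤ Vs β μ t := fun _ hv α hα => hv α (h.trans hα)

theorem ev_mem_Vs {β : ι → Module.End F V} {μ : ι → ℕ} (hg : Good β μ) (P : MvPolynomial ι F)
    {T : ℕ} {v : V} (hv : v ∈ Vs β μ T) : ev F β P v ∈ Vs β μ T := by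
  rw [ev_eq_sum, LinearMap.sum_apply]
  refine Submodule.sum_mem _ fun α _ => ?_
  rw [LinearMap.smul_apply]
  exact Submodule.smul_mem _ _ fun α' hα' => hg.zero α' α T v hv (by omega)

theorem Apx.mem {β : ι → Module.End F V} {μ : ι → ℕ} (hg : Good β μ) {a : Module.End F V}
    (ha : Apx β μ a) {T : ℕ} {v : V} (hv : v ∈ Vs β μ T) : a v ∈ Vs β μ T := by
  obtain ⟨P, hP⟩ := ha T
  rw [hP v hv]
  exact ev_mem_Vs hg P hv

theorem apx_ev (β : ι → Module.End F V) (μ : ι → ℕ) (P : MvPolynomial ι F) :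
    Apx β μ (ev F β P) := fun _ => ⟨P, fun _ _ => rfl⟩

theorem Apx.add {β : ι → Module.End F V} {μ : ι → ℕ} {a b : Module.End F V} (ha : Apx β μ a)
    (hb : Apx β μ b) : Apx β μ (a + b) := fun T => by
  obtain ⟨P, hP⟩ := ha T
  obtain ⟨Q, hQ⟩ := hb T
  exact ⟨P + Q, fun v hv => by simp [hP v hv, hQ v hv]⟩

theorem Apx.smul {β : ι → Module.End F V} {μ : ι → ℕ} {a : Module.End F V} (ha : Apx β μ a)
    (c : F) : Apx β μ (c • a) := fun T => by
  obtain ⟨P, hP⟩ := ha T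
  exact ⟨c • P, fun v hv => by simp [hP v hv]⟩

theorem apx_sum {β : ι → Module.End F V} {μ : ι → ℕ} {κ : Type} (s : Finset κ)
    (a : κ → Module.End F V) (h : ∀ i ∈ s, Apx β μ (a i)) : Apx β μ (∑ i ∈ s, a i) :=
  Finset.sum_induction a (Apx β μ) (fun _ _ => Apx.add) (by simpa using apx_ev β μ 0) h

/-- the completed algebra generated by the `β i` -/
def Alg {β : ι → Module.End F V} {μ : ι → ℕ} (hg : Good β μ)
    (hc : ∀ α α', Apx β μ (mono β α * mono β α')) : Subalgebra F (Module.End F V) where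
  carrier := {a | Apx β μ a}
  add_mem' := Apx.add
  algebraMap_mem' := fun c => by
    have h := apx_ev β μ (MvPolynomial.monomial 0 c)
    rwa [ev_monomial, mono_zero, ← Algebra.algebraMap_eq_smul_one] at h
  mul_mem' := fun {a b} ha hb T => by
    obtain ⟨P, hP⟩ := ha T
    obtain ⟨Q, hQ⟩ := hb T
    have h : Apx β μ (ev F β P * ev F β Q) := by
      rw [ev_eq_sum, ev_eq_sum, Finset.sum_mul_sum]
      refine apx_sum _ _ fun α _ => apx_sum _ _ fun α' _ => ?_
      rw [smul_mul_smul_comm]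
      exact (hc α α').smul _
    obtain ⟨S, hS⟩ := h T
    exact ⟨S, fun v hv => by
      rw [← hS v hv, Module.End.mul_apply, Module.End.mul_apply, hQ v hv,
        hP _ (ev_mem_Vs hg Q hv)]⟩

theorem mem_Alg {β : ι → Module.End F V} {μ : ι → ℕ} {hg : Good β μ}
    {hc : ∀ α α', Apx β μ (mono β α * mono β α')} {a : Module.End F V} :
    a ∈ Alg hg hc ↔ Apx β μ a := Iff.rfl

/-- ordered monomials in `Alg` -/
noncomputable def evA {β : ι → Module.End F V} {μ : ι → ℕ} (hg : Good β μ)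
    (hc : ∀ α α', Apx β μ (mono β α * mono β α')) : MvPolynomial ι F →ₗ[F] Alg hg hc :=
  (ev F β).codRestrict (Alg hg hc).toSubmodule (apx_ev β μ)

/-- the filtration of `Alg` -/
def FlA {β : ι → Module.End F V} {μ : ι → ℕ} (hg : Good β μ)
    (hc : ∀ α α', Apx β μ (mono β α * mono β α')) (t : ℕ) : Submodule F (Alg hg hc) where
  carrier := {a | ∀ v ∈ Vs β μ t, a.1 v = 0}
  add_mem' := fun {a b} ha hb v hv => by simp [ha v hv, hb v hv]
  zero_mem' := fun _ _ => rfl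
  smul_mem' := fun c a ha v hv => by simp [ha v hv]

theorem mem_FlA {β : ι → Module.End F V} {μ : ι → ℕ} {hg : Good β μ}
    {hc : ∀ α α', Apx β μ (mono β α * mono β α')} {t : ℕ} {a : Alg hg hc} :
    a ∈ FlA hg hc t ↔ ∀ v ∈ Vs β μ t, a.1 v = 0 := Iff.rfl

end

end Pool.Agent.P.MP_7cb106_nt.PG
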