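import Pool.Agent.P.MP_7cb106_nt.PG.BaseP

/-! Block D: lifting and full support. -/

set_option autoImplicit false

namespace Pool.Agent.P.MP_7cb106_nt.PG

open Pool.Agent.P.MP_7cb106_nt.GK MvPowerSeries

/-- lifting. Hint: prove by induction on `k ≤ g` the claim `P k`: every `v` in the ball with
`‖x j v‖ < 1` for `j < k` is within distance `< 1` of a `w` in the ball killed by the `x j`,
`j < k`. From `P k` and `CoM`: `x k` is onto on the ball of `W = ⋂ j < k, ker (x j)` modulo the open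
ball of `W`; iterate with `ϖ⁻¹ •` (`Unif.le`), sum the series (the `x j` are continuous). Step:
for `w ∈ W` with `‖x k w‖ < 1` write `x k w = ϖ • x k w'`, `w' ∈ W`, take `w - ϖ • w'`. -/
-- deps:
def S_LFT : Prop := ∀ (L B : Type) [NormedField L] [NormedAddCommGroup B] [NormedSpace L B]
  [IsUltrametricDist B] [CompleteSpace B] (ϖ : L) (g : ℕ) (x : Fin g → Module.End L B),
  Unif ϖ B → (∀ j v, ‖x j v‖ ≤ ‖v‖) → (∀ i j, Commute (x i) (x j)) → CoM x →
  CoReg x ∧ ∀ v, ‖v‖ ≤ 1 → (∀ j, ‖x j v‖ < 1) → ∃ w, ‖w‖ ≤ 1 ∧ (∀ j, x j w = 0) ∧ ‖w - v‖ < 1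

/-- power series of order at least `n` lie in the `n`-th power of the ideal of the variables.
Hint: for `n = 1` sort the monomials by the least variable they contain; induction. -/
-- deps:
def S_DIV : Prop := ∀ (O : Type) [CommRing O] (g : ℕ),
  (∀ a : MvPowerSeries (Fin g) O, ∃ b : Fin g → MvPowerSeries (Fin g) O,
    a = C (constantCoeff a) + ∑ j, X j * b j) ∧
  ∀ (n : ℕ) (a : MvPowerSeries (Fin g) O), (∀ β : Fin g →₀ ℕ, β.degree < n → coeff β a = 0) →
    a ∈ Ideal.span (Set.range (X : Fin g → MvPowerSeries (Fin g) O)) ^ n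

/-- a divisible family. Hint: Koszul `H ^ 1` by hand: if `x i (u j) = x j (u i)` for all `i, j`
then `u j = x j w`: by induction on `k` find `w` with `x j w = u j` for `j < k`; `u k - x k w` is
killed by the `x j`, `j < k`. Recursion on the degree of `β`. -/
-- deps:
def S_FAM : Prop := ∀ (L B : Type) [NormedField L] [NormedAddCommGroup B] [NormedSpace L B]
  [IsUltrametricDist B] (g : ℕ) (x : Fin g → Module.End L B), (∀ j v, ‖x j v‖ ≤ ‖v‖) →
  (∀ i j, Commute (x i) (x j)) → CoReg x → ∀ v₀ : B, ‖v₀‖ ≤ 1 → (∀ j, x j v₀ = 0) →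
  ∃ v : (Fin g →₀ ℕ) → B, v 0 = v₀ ∧ (∀ β, ‖v β‖ ≤ 1) ∧
    (∀ j β, x j (v (β + Finsupp.single j 1)) = v β) ∧ ∀ j β, β j = 0 → x j (v β) = 0

/-- the linear form. Hint: `coeff β (φ r) = ℓ (act r (v β))`; linearity by induction on the degree
of `β` with the first part of `DIV` (`coeff_X_mul`-type lemmas); `act a ^ (n + 1)` kills `v β` for
`β.degree ≤ n`. -/
-- deps: DIV
def S_FORM : Prop := ∀ (L B : Type) [NormedField L] [IsUltrametricDist L] [NormedAddCommGroup B]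
  [NormedSpace L B] (g : ℕ) (R : Type) [CommRing R] (κ : MvPowerSeries (Fin g) (Ob L) →+* R)
  (act : R →+* Module.End L B) (ℓ : B →ₗ[L] L) (v : (Fin g →₀ ℕ) → B),
  (∀ r w, ‖act r w‖ ≤ ‖w‖) → (∀ c w, act (κ (C c)) w = (c : L) • w) → (∀ w, ‖ℓ w‖ ≤ ‖w‖) →
  (∀ β, ‖v β‖ ≤ 1) → (∀ j β, act (κ (X j)) (v (β + Finsupp.single j 1)) = v β) →
  (∀ j β, β j = 0 → act (κ (X j)) (v β) = 0) →
  ∃ φ : R →+ MvPowerSeries (Fin g) (Ob L), (∀ a r, φ (κ a * r) = a * φ r) ∧
    (∀ r β, ((coeff β (φ r) : Ob L) : L) = ℓ (act r (v β))) ∧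
    ∀ a : R, (∀ w, (∀ j, act (κ (X j)) w = 0) → act a w = 0) →
      ∀ (n : ℕ) (r : R) (β : Fin g →₀ ℕ), β.degree < n → coeff β (φ (a ^ n * r)) = 0

end Pool.Agent.P.MP_7cb106_nt.PG
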