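import Pool.Agent.P.MP_7cb106_nt.PG.BaseP
import Pool.Agent.P.MP_7cb106_nt.PF.IfaceF

/-! Block R: from the abstract theorem to co-regularity modulo the uniformiser. -/

set_option autoImplicit false

namespace Pool.Agent.P.MP_7cb106_nt.PG

open Pool.Agent.P.MP_7cb106_nt.GK

/-- the abstract theorem -/
abbrev S_ABS : Prop := PF.S_ABS

/-- the completed algebra is a complete filtered ring. Hint: if `a` agrees with `ev P` on
`Vs T` and `wt γ < T` then `coeff γ P = lam k (a (f k γ))`; so an `a` killing `Vs t` agrees on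
`Vs T` with a combination of monomials of weight `≥ t`, which maps `Vs (s + t)` to `Vs s`
(`Good.zero`). `complete`: `b v = a T v` for any `T` with `v ∈ Vs T`. -/
-- deps:
def S_FRA : Prop := ∀ (ι F V : Type) [Fintype ι] [Field F] [AddCommGroup V] [Module F V]
  (β : ι → Module.End F V) (μ : ι → ℕ) (m : ℕ) (lam : Fin m → Module.Dual F V)
  (f : Fin m → (ι →₀ ℕ) → V) (h : CF β μ lam f),
  PF.FR μ (evA h.good h.cl) (FlA h.good h.cl)

/-- the opposite ring -/
-- deps:
def S_OP : Prop := ∀ (ι F Λ : Type) [Field F] [Ring Λ] [Algebra F Λ] (μ : ι → ℕ)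
  (e : MvPolynomial ι F →ₗ[F] Λ) (Fl : ℕ → Submodule F Λ), PF.FR μ e Fl →
  PF.FR μ ((MulOpposite.opLinearEquiv F).toLinearMap ∘ₗ e)
    fun t => (Fl t).comap (MulOpposite.opLinearEquiv F (M := Λ)).symm.toLinearMap

/-- the dual space is free over the completed algebra. Hint: every `v` is the finite sum of the
`lam k (mono β α v) • f k α` (`sep`); for a functional `ℓ` let `a k` be the sum, finite on each
`Vs T`, of the `ℓ (f k α) • mono β α`. -/
-- deps:
def S_TH : Prop := ∀ (ι F V : Type) [Fintype ι] [Field F] [AddCommGroup V] [Module F V]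
  (β : ι → Module.End F V) (μ : ι → ℕ) (m : ℕ) (lam : Fin m → Module.Dual F V)
  (f : Fin m → (ι →₀ ℕ) → V) (h : CF β μ lam f),
  (∀ ℓ : Module.Dual F V, ∃ a : Fin m → Alg h.good h.cl, ∀ v, ℓ v = ∑ k, lam k ((a k).1 v)) ∧
  (∀ (s : ℕ) (a : Fin m → Alg h.good h.cl), (∀ v ∈ Vs β μ s, ∑ k, lam k ((a k).1 v) = 0) ↔
    ∀ k, a k ∈ FlA h.good h.cl s) ∧
  ∀ s, Module.Finite F (Vs β μ s)

/-- co-regularity. Hint: `TH` gives a linear equivalence `θ` from `Fin m → (Alg _ _)ᵐᵒᵖ` to
`Dual F V` which maps `FlM _ m s` onto the annihilator of `Vs s`; transport the transposes of the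
`x j` (they commute with `Alg`); `LinearMap.range_dualMap_eq_dualAnnihilator_ker`,
`Subspace.dualAnnihilator_iInf_eq`, `Subspace.quotAnnihilatorEquiv`. -/
-- deps: ABS FRA OP TH
def S_COREG : Prop := ∀ (ι F V : Type) [Fintype ι] [Field F] [AddCommGroup V] [Module F V]
  (β : ι → Module.End F V) (μ : ι → ℕ) (m : ℕ) (lam : Fin m → Module.Dual F V)
  (f : Fin m → (ι →₀ ℕ) → V), CF β μ lam f → ∀ (g C e : ℕ) (x : Fin g → Module.End F V),
  (∀ i j, Commute (x i) (x j)) → (∀ j i, Commute (x j) (β i)) → (∀ j v, ∃ a, (x j ^ a) v = 0) →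
  (∀ s, Module.finrank F ↥(Vs β μ s ⊓ ⨅ j, LinearMap.ker (x j)) ≤ C * (s + 1) ^ e) →
  e + g ≤ Fintype.card ι → CoV x

end Pool.Agent.P.MP_7cb106_nt.PG
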