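import Pool.Agent.P.MP_7cb106_nt.PG.IfaceN

/-! Block U: the support, points with values in finite extensions. -/

set_option autoImplicit false

namespace Pool.Agent.P.MP_7cb106_nt.PG

open Pool.Agent.P.MP_7cb106_nt.GK MvPowerSeries Filter Topology

/-- a divisible family of vectors -/
structure Fam {L B : Type} [NormedField L] [NormedAddCommGroup B] [NormedSpace L B] {g : ℕ}
    (x : Fin g → Module.End L B) (v : (Fin g →₀ ℕ) → B) : Prop where
  le : ∀ β, ‖v β‖ ≤ 1
  step : ∀ j β, x j (v (β + Finsupp.single j 1)) = v β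
  zero : ∀ j β, β j = 0 → x j (v β) = 0

/-- integrality. Hint: make `L` a `NontriviallyNormedField`; `spectralNorm L E` is multiplicative,
so `x` or `x⁻¹` has spectral norm `≤ 1`, and then its minimal polynomial has coefficients in
`Ob L` (`spectralValue_le_one_iff`, `Polynomial.lifts`/`toSubring`); in the second case the
reversed polynomial has constant term `1` and kills `x`. -/
-- deps:
def S_ALG : Prop := ∀ (L E : Type) [NormedField L] [IsUltrametricDist L] [CompleteSpace L] [Field E]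
  [Algebra L E] [FiniteDimensional L E] (ϖ : L) (x : E), 0 < ‖ϖ‖ → ‖ϖ‖ < 1 →
  (∀ Q : Polynomial (Ob L), IsUnit (Q.coeff 0) →
    Q.eval₂ ((algebraMap L E).comp (Ob L).subtype) x ≠ 0) →
  ∃ P : Polynomial (Ob L), P.Monic ∧ 0 < P.natDegree ∧ ‖((P.coeff 0 : Ob L) : L)‖ < 1 ∧
    P.eval₂ ((algebraMap L E).comp (Ob L).subtype) x = 0 ∧ P.map (Ob L).subtype = minpoly L x

/-- a finite substitution. Hint: `θ` as in `TTR.lean` (`pf49.py pull`), `MvPowerSeries.aeval`; it
is continuous; the ring is compact for the product topology, so the set of the sums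
`∑ θ (b α) * monomial α 1`, `α j < natDegree (P j)`, is closed; it contains the polynomials
(`X j` is a root of the monic polynomial `P j - θ (X j)`), which are dense. -/
-- deps:
def S_TR2 : Prop := ∀ (L : Type) [NormedField L] [IsUltrametricDist L] [ProperSpace L] (g : ℕ)
  (P : Fin g → Polynomial (Ob L)), (∀ j, (P j).Monic) → (∀ j, 0 < (P j).natDegree) →
  (∀ j, ‖(((P j).coeff 0 : Ob L) : L)‖ < 1) →
  ∃ θ : MvPowerSeries (Fin g) (Ob L) →+* MvPowerSeries (Fin g) (Ob L), θ.Finite ∧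
    (∀ a, θ (C a) = C a) ∧ ∀ j, θ (X j) = (P j).eval₂ C (X j)

/-- the divisible families span a dense subspace. Hint: claim by induction on `n`: if `‖w‖ ≤ 1`
and `‖xp x β w‖ < 1` for all `β` of degree `n` then `‖a w‖ < 1`. Step: for `β` of degree `n` lift
`xp x β w` to a vector killed by all `x j` (`LFT`), extend it to a family `v` (`FAM`), and subtract
the sum of the `v β`. Every `w` satisfies the hypothesis for large `n`. Then
`‖a w‖ ≤ ‖ϖ‖ ^ k` for all `k`: improve the claim to: `w` is within distance `< 1` of a vector of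
the ball killed by `a`; iterate. -/
-- deps: LFT FAM
def S_DENS : Prop := ∀ (L B : Type) [NormedField L] [NormedAddCommGroup B] [NormedSpace L B]
  [IsUltrametricDist B] [CompleteSpace B] (ϖ : L) (g : ℕ) (x : Fin g → Module.End L B),
  Unif ϖ B → (∀ j v, ‖x j v‖ ≤ ‖v‖) → (∀ i j, Commute (x i) (x j)) → CoM x →
  (∀ j v, Tendsto (fun k : ℕ => (x j ^ k) v) atTop (𝓝 0)) →
  ∀ a : Module.End L B, (∀ v, ‖a v‖ ≤ ‖v‖) → (∀ v, Fam x v → ∀ β, a (v β) = 0) → a = 0

/-- Artin-Rees for a set of linear forms. Hint: `R` is an `A`-module through `κ`; `Dual A R` is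
a finite module over a noetherian ring, so finitely many `φ` span the others; apply
`Ideal.exists_pow_inf_eq_pow_smul` to the range of `R → (Fin t → A)`. Second part: constant term
of an integral equation of least degree. -/
-- deps:
def S_ARD2 : Prop :=
  (∀ (A R : Type) [CommRing A] [IsNoetherianRing A] [CommRing R] (κ : A →+* R) (I : Ideal A)
    (Φ : Set (R →+ A)), κ.Finite → (∀ φ ∈ Φ, ∀ a r, φ (κ a * r) = a * φ r) →
    ∀ a : R, (∀ φ ∈ Φ, ∀ n, φ (a ^ n) ∈ I ^ n) →
      ∃ n, ∃ b ∈ I.map κ, ∀ φ ∈ Φ, φ (a ^ n - b) = 0) ∧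
  ∀ (A R : Type) [CommRing A] [CommRing R] [IsDomain R] (κ : A →+* R), κ.Finite →
    ∀ r : R, r ≠ 0 → ∃ a r', a ≠ 0 ∧ κ a = r * r'

/-- vectors killed by a prime. Hint: `R` is noetherian, let `t i` generate the kernel of `χ`;
invariant: `W` is stable and every `a` killing `W` has `χ a = 0`; a monic polynomial over `Ob L`
in `t` kills the common kernel of the `X j` (`DIV`); write it `T ^ k q`, `q 0 ≠ 0`; if `a` kills
`W ⊓ ker t` then `a ^ k q(t)` kills `W`, and `χ (q(t)) = χ (κ (C (q 0))) ≠ 0`. -/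
-- deps: DIV
def S_EIG2 : Prop := ∀ (L B E : Type) [NormedField L] [IsUltrametricDist L] [AddCommGroup B]
  [Module L B] [Field E] (g : ℕ) (R : Type) [CommRing R] (κ : MvPowerSeries (Fin g) (Ob L) →+* R)
  (act : R →+* Module.End L B) (χ : R →+* E), IsNoetherianRing (Ob L) → κ.Finite →
  (∀ c w, act (κ (C c)) w = (c : L) • w) → (∀ c, χ (κ (C c)) = 0 → c = 0) →
  (∀ a : R, (∀ w, (∀ j, act (κ (X j)) w = 0) → act a w = 0) → χ a = 0) →
  ∃ v : B, v ≠ 0 ∧ ∀ r, χ r = 0 → act r v = 0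

/-- the support. Hint: `Φ` = the set of the forms `φ` given by `FORM` for all families `v` and
all contracting functionals `ℓ`; if all `φ ∈ Φ` vanish at `r` then `act r = 0` (`DENS`). For `EIG2`:
if `a` kills the common kernel then `φ (a ^ n) ∈ I ^ n` (`FORM`, `DIV`), `ARD2`. `Ob L` is a
principal ideal ring, see `TD.lean` (`pf49.py pull`). -/
-- deps: DIV FORM DENS ARD2 EIG2
def S_D3 : Prop := ∀ (L B : Type) [NormedField L] [IsUltrametricDist L]
  [NormedAddCommGroup B] [NormedSpace L B] [IsUltrametricDist B] [CompleteSpace B] (ϖ : L) (g : ℕ)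
  (R : Type) [CommRing R] (κ : MvPowerSeries (Fin g) (Ob L) →+* R)
  (act : R →+* Module.End L B), κ.Finite → Unif ϖ B →
  (∀ c : L, c ≠ 0 → ‖c‖ ≤ 1 → ∃ k : ℕ, ‖c‖ = ‖ϖ‖ ^ k) →
  (∀ r w, ‖act r w‖ ≤ ‖w‖) → (∀ c w, act (κ (C c)) w = (c : L) • w) →
  CoM (fun j => act (κ (X j))) →
  (∀ j v, Tendsto (fun k : ℕ => (act (κ (X j)) ^ k) v) atTop (𝓝 0)) →
  (∀ v : B, v ≠ 0 → ∃ ℓ : B →ₗ[L] L, (∀ w, ‖ℓ w‖ ≤ ‖w‖) ∧ ℓ v ≠ 0) →
  (∀ a r, a ≠ 0 → act (κ a * r) = 0 → act r = 0) ∧
  ∀ (E : Type) [Field E] (χ : R →+* E), (∀ c, χ (κ (C c)) = 0 → c = 0) →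
    (∀ j, χ (κ (X j)) = 0) → (∀ r, act r = 0 → χ r = 0) →
    ∃ v : B, v ≠ 0 ∧ ∀ r, χ r = 0 → act r v = 0

end Pool.Agent.P.MP_7cb106_nt.PG
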