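import Pool.Agent.P.MP_7cb106_nt.PG.IfaceN

/-! Block V: the reduction of a free module and its growth. -/

set_option autoImplicit false

namespace Pool.Agent.P.MP_7cb106_nt.PG

open Pool.Agent.P.MP_7cb106_nt.GK

/-- elements of `Fil 0` reduce into the completed algebra. Hint: `span_mono 0 T`, span induction
(the terms with `k ≥ 1` reduce to zero), `KILL`; `exh` as `hexh` in `GK/BunX2.lean` on main. -/
-- deps: KILL
def S_APX : Prop := ∀ (L B ι F V : Type) [NormedField L] [IsUltrametricDist L]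
  [NormedAddCommGroup B] [NormedSpace L B] [IsUltrametricDist B] [Fintype ι] [Field F]
  [AddCommGroup V] [Module F V] (R : Red L B F V) (ϖ : L) (b : ι → Module.End L B) (μ : ι → ℕ)
  (N : ℕ) (Fil : ℕ → Submodule (Ob L) (Module.End L B)), ‖ϖ‖ < 1 → FS2 ϖ b μ N Fil →
  (∀ a ∈ Fil 0, Apx (fun i => R.bar (b i)) μ (R.bar a)) ∧
  (∀ α α', Apx (fun i => R.bar (b i)) μ
    (mono (fun i => R.bar (b i)) α * mono (fun i => R.bar (b i)) α')) ∧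
  ∀ v, ∃ T, v ∈ Vs (fun i => R.bar (b i)) μ T

/-- reduction of functionals, and suprema are attained. Hint for the second part: take `ξ` with
`‖ϖ‖ * ‖v‖ < ‖fn v ξ‖`; a strictly larger value would have ratio `≤ ‖ϖ‖`. -/
-- deps:
def S_PT : Prop :=
  (∀ (L B F V : Type) [NormedField L] [IsUltrametricDist L] [NormedAddCommGroup B]
    [NormedSpace L B] [IsUltrametricDist B] [Field F] [AddCommGroup V] [Module F V]
    (R : Red L B F V) (ℓ : B →ₗ[L] L), (∀ v, ‖ℓ v‖ ≤ ‖v‖) →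
    ∃ ℓ' : Module.Dual F V, ∀ (v : B) (c : Ob L), ‖v‖ ≤ 1 → (c : L) = ℓ v →
      ℓ' (R.red v) = R.res c) ∧
  ∀ (L B X : Type) [NormedField L] [NormedAddCommGroup B] (ϖ : L) (fn : B → X → L), ‖ϖ‖ < 1 →
    (∀ c : L, ‖c‖ < 1 → ‖c‖ ≤ ‖ϖ‖) → (∀ v (r : ℝ), 0 ≤ r → (‖v‖ ≤ r ↔ ∀ ξ, ‖fn v ξ‖ ≤ r)) →
    ∀ v, v ≠ 0 → ∃ ξ, ‖v‖ = ‖fn v ξ‖

/-- the dual basis from a count. Hint: `sep` from the point functionals. The map
`v ↦ (lam k (mono β α v))`, `α` in the box `ι → Fin q`, is injective on `W` (monomials outside the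
box kill `W`: induction along the list, as in `p_BOX`), so bijective by the count. For `mem`:
if `v ∈ Vs (t+1)` and `lam k (mono β α v) = 0` for all `α` of weight `t` then `v ∈ Vs t` (`sep` for
`mono β α v`, `Good.zero`); descend from `exh`. -/
-- deps:
def S_DB : Prop := ∀ (ι F V X : Type) [Fintype ι] [Field F] [AddCommGroup V] [Module F V]
  (β : ι → Module.End F V) (μ : ι → ℕ) (m : ℕ) (lam : Fin m → Module.Dual F V)
  (e : X → Module.Dual F V), 0 < m → Good β μ → (∀ v, ∃ T, v ∈ Vs β μ T) →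
  (∀ α α', Apx β μ (mono β α * mono β α')) → (∀ v, (∀ ξ, e ξ v = 0) → v = 0) →
  (∀ ξ, ∃ k a, Apx β μ a ∧ ∀ v, e ξ v = lam k (a v)) →
  (∀ T, ∃ (q : ℕ) (W : Submodule F V) (J : Type) (_ : Fintype J) (w : J → V), T < q ∧
    (∀ i, ∀ v ∈ W, β i v ∈ W) ∧ (∀ i, ∀ v ∈ W, (β i ^ q) v = 0) ∧ (∀ j, w j ∈ W) ∧
    LinearIndependent F w ∧ m * q ^ Fintype.card ι ≤ Fintype.card J) →
  ∃ f, CF β μ lam f

/-- many cosets. Hint: `x c = 1 + X c` with `X c a b = ∑ j t, c (a,b,j,t) u ^ (J₀+j) τ t` (`GM`);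
`x c' - x c = x c * ((x c)⁻¹ * x c' - 1)` is small of order `r ^ (J₀ + e l)`; `OB1` with
`y i = u ^ (J₀+j) τ t` gives `‖c i - c' i‖ r ^ j ≤ r ^ (e l)`, so `p ^ l ∣ c i - c' i` since
`j < e` (`Padic.norm_int_le_pow_iff_dvd`, `Padic.norm_le_pow_iff_norm_lt_pow_add_one`). -/
-- deps: GM OB1
def S_CNT : Prop := ∀ (p : ℕ) [Fact p.Prime] (K L : Type) [Field K] [Algebra ℚ_[p] K]
  [NormedField L] [NormedAlgebra ℚ_[p] L] [IsUltrametricDist L] (σ : K →ₐ[ℚ_[p]] L) (ϖ : L)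
  (n e f₀ a J₀ : ℕ) (u : K) (τ : Fin f₀ → K) (U : Subgroup (GL (Fin n) K)) (Γ : ℕ → Subgroup U),
  KD σ ϖ e f₀ a u τ → 1 ≤ J₀ → (∀ h : GL (Fin n) K, Sm σ (‖σ u‖ ^ J₀) (h.val - 1) → h ∈ U) →
  (∀ J (h : U), h ∈ Γ J ↔ Sm σ (‖σ u‖ ^ (J₀ + J)) (h.val.val - 1)) →
  ∀ l, ∃ x : (Fin n × Fin n × Fin e × Fin f₀ → Fin (p ^ l)) → U,
    ∀ c c', (x c)⁻¹ * x c' ∈ Γ (e * l) → c = c'

/-- a stable subspace. Hint: as `p_FIN` in `GK/BunM.lean` on main, `W` = vectors fixed by the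
`bar (ρ h)`, `h ∈ Γ (e l)`, and killed by the `bar (y j) ^ p ^ l`; `bar_mul`, `bar_add`. -/
-- deps:
def S_WL : Prop := ∀ (p e : ℕ) [Fact p.Prime] (L B G ι F V : Type) [NormedField L]
  [IsUltrametricDist L] [NormedAddCommGroup B] [NormedSpace L B] [IsUltrametricDist B] [Group G]
  [Field F] [CharP F p] [AddCommGroup V] [Module F V] (R : Red L B F V) (h : ℕ)
  (Γ : ℕ → Subgroup G) (γ : ι → G) (lev : ι → ℕ) (ρ : G →* Module.End L B)
  (y : Fin h → Module.End L B), GD p e Γ γ lev → Rp Γ ρ y → ∀ l : ℕ, ∃ W : Submodule F V,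
    (∀ i, ∀ v ∈ W, R.bar (bG ρ γ y i) v ∈ W) ∧
    (∀ i, ∀ v ∈ W, (R.bar (bG ρ γ y i) ^ p ^ l) v = 0) ∧
    ∀ v : B, ‖v‖ ≤ 1 → (∀ u ∈ Γ (e * l), ρ u v = v) → (∀ j, (y j ^ p ^ l) v = 0) → R.red v ∈ W

/-- the reduction of a free module is cofree. Hint: `e ξ` = reduction of `v ↦ fn v ξ` (`PT`),
`lam k = e (k, 0, 1)`, `fn v (k, β, x) = fn (xp y β (ρ x v)) (k, 0, 1)` and `xp y β * ρ x ∈ Fil 0`;
the family `w` consists of the reductions of the indicator functions of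
`{k} × {β} × x c • Γ (e l)`, `β : Fin h → Fin (p ^ l)`; evaluate at the points `(k, β, x c)`. -/
-- deps: KILL APX PT DB WL
def S_COF : Prop := ∀ (p e : ℕ) [Fact p.Prime] (L B G ι F V : Type) [NormedField L]
  [IsUltrametricDist L] [NormedAddCommGroup B] [NormedSpace L B] [IsUltrametricDist B] [Group G]
  [Fintype ι] [Field F] [CharP F p] [AddCommGroup V] [Module F V] (R : Red L B F V) (h m : ℕ)
  (Γ : ℕ → Subgroup G) (γ : ι → G) (lev : ι → ℕ) (ρ : G →* Module.End L B)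
  (y : Fin h → Module.End L B) (ϖ : L) (μ : ι ⊕ Fin h → ℕ) (N : ℕ)
  (Fil : ℕ → Submodule (Ob L) (Module.End L B)) (fn : B →ₗ[L] (Fin m × (Fin h → ℕ) × G → L)),
  0 < m → GD p e Γ γ lev → Rp Γ ρ y → ‖ϖ‖ < 1 → (∀ c : L, ‖c‖ < 1 → ‖c‖ ≤ ‖ϖ‖) →
  FS2 ϖ (bG ρ γ y) μ N Fil → (∀ u, ρ u ∈ Fil 0) →
  (∀ v (r : ℝ), 0 ≤ r → (‖v‖ ≤ r ↔ ∀ ξ, ‖fn v ξ‖ ≤ r)) →
  (∀ u v k β x, fn (ρ u v) (k, β, x) = fn v (k, β, x * u)) →
  (∀ i v k β x, fn (y i v) (k, β, x) = fn v (k, β + Pi.single i 1, x)) →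
  (∀ (l T : ℕ) (ψ : Fin m × (Fin h → ℕ) × G → L),
    (∀ k β x i, T ≤ β i → ψ (k, β, x) = 0) →
    (∀ k β x, ∀ u ∈ Γ (e * l), ψ (k, β, x * u) = ψ (k, β, x)) → ∃ v, fn v = ψ) →
  (∀ l, ∃ x : (ι → Fin (p ^ l)) → G, ∀ c c', (x c)⁻¹ * x c' ∈ Γ (e * l) → c = c') →
  ∃ (lam : Fin m → Module.Dual F V) (f : Fin m → (ι ⊕ Fin h →₀ ℕ) → V),
    CF (fun i => R.bar (bG ρ γ y i)) μ lam f

/-- commuting nilpotent operators. Hint: first part `finrank W ≤ d * finrank (W ⊓ ker z)` for one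
operator (`z` maps `W ⊓ ker z ^ (i+1)` to `W ⊓ ker z ^ i` with kernel in `W ⊓ ker z`), induction on
`s`. Second part: induction on `s`, apply the largest power which does not kill the vector. -/
-- deps:
def S_DIM : Prop := ∀ (F V : Type) [Field F] [AddCommGroup V] [Module F V] (s : ℕ)
  (z : Fin s → Module.End F V), (∀ i j, Commute (z i) (z j)) →
  (∀ (d : ℕ) (W : Submodule F V), Module.Finite F W → (∀ j, ∀ v ∈ W, z j v ∈ W) →
    (∀ j, ∀ v ∈ W, (z j ^ d) v = 0) →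
    Module.finrank F W ≤ d ^ s * Module.finrank F ↥(W ⊓ ⨅ j, LinearMap.ker (z j))) ∧
  ((∀ j v, ∃ a, (z j ^ a) v = 0) → ∀ v : V, v ≠ 0 → ∃ u : V, u ≠ 0 ∧ ∀ j, z j u = 0)

/-- integral elements are nilpotent of bounded order. Hint: on a vector `v` killed by the
`ψ (κ (X j))` the operator `ψ (κ a)` is the scalar `res (constantCoeff a)` (`DIV`), also on
`ψ r v`; so a monic polynomial `P` over `F` of degree `d` in `ψ r` kills `v`; write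
`P = T ^ k q` with `q` coprime to `T ^ a`. -/
-- deps: DIV
def S_INTG : Prop := ∀ (O F V : Type) [CommRing O] [Field F] [AddCommGroup V] [Module F V]
  (res : O →+* F) (g : ℕ) (R : Type) [CommRing R] (κ : MvPowerSeries (Fin g) O →+* R)
  (ψ : R →+* Module.End F V), κ.Finite → (∀ c v, ψ (κ (MvPowerSeries.C c)) v = res c • v) →
  ∀ r : R, (∀ v, ∃ a, (ψ r ^ a) v = 0) →
    ∃ d : ℕ, ∀ v, (∀ j, ψ (κ (MvPowerSeries.X j)) v = 0) → ∀ d', d ≤ d' → (ψ r ^ d') v = 0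

/-- low steps of the filtration consist of invariants. Hint: take `N` with `w j < e a N` for
`j < e` and `p ^ l * w 0 ≤ e a N`; then `lam (e i) = p ^ i * w 0` for `i ≤ l` (`Lam.step`,
`Lam.win`); `rho_mem`, third clause of `KILL`. -/
-- deps: KILL
def S_INV : Prop := ∀ (p e a : ℕ) (L B G ι F V : Type) [NormedField L]
  [IsUltrametricDist L] [NormedAddCommGroup B] [NormedSpace L B] [IsUltrametricDist B] [Group G]
  [Fintype ι] [Field F] [AddCommGroup V] [Module F V] (R : Red L B F V) (h : ℕ)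
  (Γ : ℕ → Subgroup G) (γ : ι → G) (ρ : G →* Module.End L B) (y : Fin h → Module.End L B) (ϖ : L)
  (μ : ι ⊕ Fin h → ℕ) (w : ℕ → ℕ), 1 ≤ p → 0 < e → 0 < a → ‖ϖ‖ < 1 → 0 < w 0 →
  (∀ N, (∀ j < e, w j < e * a * N) → ∃ lam, Lam p e (e * a * N) w lam ∧
    FS2 ϖ (bG ρ γ y) μ N (FilG ϖ Γ ρ y lam N 1)) →
  ∀ (l : ℕ) (v : B), ‖v‖ ≤ 1 → R.red v ∈ Vs (fun i => R.bar (bG ρ γ y i)) μ (p ^ l) →
    ∀ u ∈ Γ (e * l), ‖ρ u v - v‖ < 1

/-- growth on the common kernel of the parameters. Hint: `W = Vs s ⊓ ⨅ ker (x j)` is stable under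
the `z i`; `DIM`; `l = Nat.log p s + 1`, `s ≤ p ^ l ≤ p (s + 1)`;
a basis of `W ⊓ ⨅ ker (z i)` is an independent family. -/
-- deps: DIM
def S_GRO : Prop := ∀ (p : ℕ) (ι F V : Type) [Fintype ι] [Field F] [AddCommGroup V] [Module F V]
  (β : ι → Module.End F V) (μ : ι → ℕ) (g s d C e : ℕ) (x : Fin g → Module.End F V)
  (z : Fin s → Module.End F V), 2 ≤ p → (∀ t, Module.Finite F (Vs β μ t)) →
  (∀ i j, Commute (z i) (z j)) → (∀ i j, Commute (z i) (x j)) → (∀ i j, Commute (z i) (β j)) →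
  (∀ i v, (∀ j, x j v = 0) → (z i ^ d) v = 0) →
  (∀ (l k : ℕ) (v : Fin k → V), LinearIndependent F v →
    (∀ i, v i ∈ Vs β μ (p ^ l) ∧ ∀ j, z j (v i) = 0) → k ≤ C * p ^ (e * l)) →
  ∃ C' : ℕ, ∀ t, Module.finrank F ↥(Vs β μ t ⊓ ⨅ j, LinearMap.ker (x j)) ≤ C' * (t + 1) ^ e

end Pool.Agent.P.MP_7cb106_nt.PG
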