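import Pool.Agent.P.MP_7cb106_nt.PG.IfaceV
import Pool.Agent.P.MP_7cb106_nt.PG.IfaceR
import Pool.Agent.P.MP_7cb106_nt.PG.IfaceU
import Pool.Agent.P.MP_7cb106_nt.PG.IfaceW

/-! The main statement. -/

set_option autoImplicit false

namespace Pool.Agent.P.MP_7cb106_nt.PG

open Pool.Agent.P.MP_7cb106_nt.GK Filter Topology MvPowerSeries

/-- co-regularity modulo the open ball -/
-- deps: UNI RES RED ORT MUL W FS1 FS2 FS3 KD GD0 GD2 XB FIN MAIN2 PT CNT COF TH INTG INV GRO COREG XNIL TN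
def S_CORE : Prop := ∀ (p : ℕ) [Fact p.Prime] (K L B R : Type) [Field K] [Algebra ℚ_[p] K]
  [FiniteDimensional ℚ_[p] K] [NormedField L] [NormedAlgebra ℚ_[p] L] [FiniteDimensional ℚ_[p] L]
  [IsUltrametricDist L] [NormedAddCommGroup B] [NormedSpace L B] [IsUltrametricDist B]
  [CompleteSpace B] [CommRing R] (σ : K →ₐ[ℚ_[p]] L) (n l₀ m h g s : ℕ)
  (U : Subgroup (GL (Fin n) K)) (ρ : U →* Module.End L B)
  (fn : B →ₗ[L] (Fin m × (Fin h → ℕ) × U → L)) (κ : MvPowerSeries (Fin g) (Ob L) →+* R)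
  (act : R →+* Module.End L B) (z : Fin s → R) (idx : Fin h → Fin s) (φ : ℕ → (Fin s → ℕ) → L),
  2 ≤ l₀ → (∀ u, u ∈ U ↔ Cong σ l₀ u) → 0 < m →
  (∀ v (r : ℝ), 0 ≤ r → (‖v‖ ≤ r ↔ ∀ ξ, ‖fn v ξ‖ ≤ r)) →
  (∀ u v k β x, fn (ρ u v) (k, β, x) = fn v (k, β, x * u)) →
  (∀ i v k β x, fn (act (z (idx i)) v) (k, β, x) = fn v (k, β + Pi.single i 1, x)) →
  (∀ (l T : ℕ) (ψ : Fin m × (Fin h → ℕ) × U → L), (∀ k β x i, T ≤ β i → ψ (k, β, x) = 0) →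
    (∀ k β x (u : U), Cong σ l u.val → ψ (k, β, x * u) = ψ (k, β, x)) → ∃ v, fn v = ψ) →
  (∀ (v : B) (ε : ℝ), 0 < ε → ∃ l, ∀ u : U, Cong σ l u.val → ‖ρ u v - v‖ ≤ ε) →
  κ.Finite → (∀ c v, act (κ (C c)) v = (c : L) • v) → (∀ r v, ‖act r v‖ ≤ ‖v‖) →
  (∀ r u, Commute (act r) (ρ u)) →
  (∀ i v, Tendsto (fun k : ℕ => (act (z i) ^ k) v) atTop (𝓝 0)) →
  (∀ (k : ℕ) (r : ℝ), 0 < r → r < 1 → ∃ c : ℝ, ∀ β, ‖φ k β‖ * r ^ (∑ j, β j) ≤ c) →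
  (∀ k, 1 ≤ k → k ≤ n → ∀ v, An σ ρ (fun i => act (z i)) v →
    HasSum (fun β => φ k β • xp (fun i => act (z i)) β v) (Cap (Eop σ ρ) k v)) →
  g ≤ h + Module.finrank ℚ_[p] K * (n + 1).choose 2 →
  CoM (fun j => act (κ (X j))) ∧
    ∀ j v, Tendsto (fun k : ℕ => (act (κ (X j)) ^ k) v) atTop (𝓝 0)

/-- the main theorem -/
-- deps: UNI PT CORE LFT ALG TR2 ARD2 D3
def S_PF2 : Prop := ∀ (p : ℕ) [Fact p.Prime] (K L B R : Type) [Field K] [Algebra ℚ_[p] K]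
  [FiniteDimensional ℚ_[p] K] [NormedField L] [NormedAlgebra ℚ_[p] L] [FiniteDimensional ℚ_[p] L]
  [IsUltrametricDist L] [NormedAddCommGroup B] [NormedSpace L B] [IsUltrametricDist B]
  [CompleteSpace B] [CommRing R] (σ : K →ₐ[ℚ_[p]] L) (n l₀ m h g s : ℕ)
  (U : Subgroup (GL (Fin n) K)) (ρ : U →* Module.End L B)
  (fn : B →ₗ[L] (Fin m × (Fin h → ℕ) × U → L)) (κ : MvPowerSeries (Fin g) (Ob L) →+* R)
  (act : R →+* Module.End L B) (z : Fin s → R) (idx : Fin h → Fin s) (φ : ℕ → (Fin s → ℕ) → L),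
  2 ≤ l₀ → (∀ u, u ∈ U ↔ Cong σ l₀ u) → 0 < m →
  (∀ v (r : ℝ), 0 ≤ r → (‖v‖ ≤ r ↔ ∀ ξ, ‖fn v ξ‖ ≤ r)) →
  (∀ u v k β x, fn (ρ u v) (k, β, x) = fn v (k, β, x * u)) →
  (∀ i v k β x, fn (act (z (idx i)) v) (k, β, x) = fn v (k, β + Pi.single i 1, x)) →
  (∀ (l T : ℕ) (ψ : Fin m × (Fin h → ℕ) × U → L), (∀ k β x i, T ≤ β i → ψ (k, β, x) = 0) →
    (∀ k β x (u : U), Cong σ l u.val → ψ (k, β, x * u) = ψ (k, β, x)) → ∃ v, fn v = ψ) →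
  (∀ (v : B) (ε : ℝ), 0 < ε → ∃ l, ∀ u : U, Cong σ l u.val → ‖ρ u v - v‖ ≤ ε) →
  κ.Finite → (∀ c v, act (κ (C c)) v = (c : L) • v) → (∀ r v, ‖act r v‖ ≤ ‖v‖) →
  (∀ r u, Commute (act r) (ρ u)) →
  (∀ i v, Tendsto (fun k : ℕ => (act (z i) ^ k) v) atTop (𝓝 0)) →
  (∀ (k : ℕ) (r : ℝ), 0 < r → r < 1 → ∃ c : ℝ, ∀ β, ‖φ k β‖ * r ^ (∑ j, β j) ≤ c) →
  (∀ k, 1 ≤ k → k ≤ n → ∀ v, An σ ρ (fun i => act (z i)) v →
    HasSum (fun β => φ k β • xp (fun i => act (z i)) β v) (Cap (Eop σ ρ) k v)) →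
  g ≤ h + Module.finrank ℚ_[p] K * (n + 1).choose 2 →
  ∀ (E : Type) [Field E] [Algebra L E] [FiniteDimensional L E] (χ : R →+* E),
    (∀ c : Ob L, χ (κ (C c)) = algebraMap L E c) → (IsDomain R ∨ ∀ r, act r = 0 → χ r = 0) →
    CoReg (fun j => Polynomial.aeval (act (κ (X j))) (minpoly L (χ (κ (X j))))) ∧
      ∃ v : B, v ≠ 0 ∧ ∀ r, χ r = 0 → act r v = 0

end Pool.Agent.P.MP_7cb106_nt.PG
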